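import Mathlib

/-!
Definitions for the counterexample to `C^1` regularity in dimension three.

The hedgehog is the doubly covered surface `S : [-1,1]^2 → ℝ^3` (asymptotic coordinates `a, b`),
with conormal `ν = (-b, -a, 1 + (a^2+b^2)/20)`.
-/

set_option autoImplicit false

namespace Pool.Agent.Lib.MP_3a7ba1_an

abbrev V := EuclideanSpace ℝ (Fin 3)

/-- vector with three given coordinates -/
noncomputable def vec (x y z : ℝ) : V := !₂[x, y, z]

/-- the surface -/
noncomputable def S1 (a b : ℝ) : ℝ := a - (a ^ 3 - 3 * a * b ^ 2) / 60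
noncomputable def S2 (a b : ℝ) : ℝ := b - (b ^ 3 - 3 * a ^ 2 * b) / 60
noncomputable def S3 (a b : ℝ) : ℝ := a * b

/-- the values of the Lagrangian on the surface -/
noncomputable def ell (a b : ℝ) : ℝ :=
  3 / 2 * (a ^ 2 + b ^ 2) - a ^ 2 * b ^ 2 + (a ^ 4 + b ^ 4) / 100

noncomputable def dl (a b : ℝ) : ℝ := 1 - (a ^ 2 + b ^ 2) / 20

/-- the gradient of the Lagrangian on the surface -/
noncomputable def GQ1 (a b : ℝ) : ℝ := (3 * a + 2 * a * b ^ 2 + a ^ 3 / 25) / dl a b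
noncomputable def GQ2 (a b : ℝ) : ℝ := (3 * b + 2 * a ^ 2 * b + b ^ 3 / 25) / dl a b
noncomputable def GQ3 (a b : ℝ) : ℝ := -4 * a * b - b / 10 * GQ1 a b - a / 10 * GQ2 a b

/-- the outer subgradients of the Lagrangian along the edge `b = 1` (point `S (a, 1)`) -/
noncomputable def GE1 (a : ℝ) : ℝ := -12 * a / 5
noncomputable def GE2 (a : ℝ) : ℝ := 10 - 6 * a ^ 2 / 5
noncomputable def GE3 (a : ℝ) : ℝ := (63 * a + a ^ 3) / 25

/-- partial derivatives of `x ⬝ S(a,b)` -/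
noncomputable def fa (x y z a b : ℝ) : ℝ :=
  x * (1 - (a ^ 2 - b ^ 2) / 20) + y * (a * b / 10) + z * b
noncomputable def fb (x y z a b : ℝ) : ℝ :=
  x * (a * b / 10) + y * (1 + (a ^ 2 - b ^ 2) / 20) + z * a

/-- the point `(a,b)` of the square is a critical point (in the variational inequality sense:
maximum in `a`, minimum in `b`) of `x ⬝ S`. -/
def KKT (x y z a b : ℝ) : Prop :=
  |a| ≤ 1 ∧ |b| ≤ 1 ∧ (|a| < 1 → fa x y z a b = 0) ∧ 0 ≤ a * fa x y z a b ∧
    (|b| < 1 → fb x y z a b = 0) ∧ b * fb x y z a b ≤ 0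

end Pool.Agent.Lib.MP_3a7ba1_an
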