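import Mathlib
import Pool.Agent.Lib.MP_3a7ba1_an.Defs

/-!
Existence and uniqueness of the critical point.
-/

set_option autoImplicit false

namespace Pool.Agent.Lib.MP_3a7ba1_an

lemma afa_sub_bfb (x y z a b : ℝ) :
    a * fa x y z a b - b * fb x y z a b = dl a b * (a * x - b * y) := by
  unfold fa fb dl; ring

lemma mono_identity (x y z a b a' b' : ℝ) :
    (fa x y z a b - fa x y z a' b') * (a - a') - (fb x y z a b - fb x y z a' b') * (b - b')
      = 1 / 20 * ((a - a') ^ 2 + (b - b') ^ 2) * ((b + b') * y - (a + a') * x) := by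
  unfold fa fb; ring

lemma dl_pos {a b : ℝ} (ha : |a| ≤ 1) (hb : |b| ≤ 1) : 0 < dl a b := by
  have h1 : a ^ 2 ≤ 1 := (sq_le_one_iff_abs_le_one a).mpr ha
  have h2 : b ^ 2 ≤ 1 := (sq_le_one_iff_abs_le_one b).mpr hb
  unfold dl; linarith

lemma dl_ge_aux {a b : ℝ} (ha : |a| ≤ 1) (hb : |b| ≤ 1) : 9 / 10 ≤ dl a b := by
  have h1 : a ^ 2 ≤ 1 := (sq_le_one_iff_abs_le_one a).mpr ha
  have h2 : b ^ 2 ≤ 1 := (sq_le_one_iff_abs_le_one b).mpr hb
  unfold dl; linarith

/-- first order condition in one variable -/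
lemma vi_of {a f a' : ℝ} (ha : |a| ≤ 1) (h0 : |a| < 1 → f = 0) (h1 : 0 ≤ a * f) (ha' : |a'| ≤ 1) :
    (a' - a) * f ≤ 0 := by
  rcases lt_or_eq_of_le ha with h | h
  · rw [h0 h]; simp
  · rw [abs_le] at ha'
    rcases (abs_eq (by norm_num : (0 : ℝ) ≤ 1)).mp h with h | h
    · subst h
      nlinarith [ha'.1, ha'.2]
    · subst h
      nlinarith [ha'.1, ha'.2]

lemma KKT.ax_by {x y z a b : ℝ} (h : KKT x y z a b) : 0 ≤ a * x - b * y := by
  obtain ⟨ha, hb, h1, h2, h3, h4⟩ := h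
  have h5 := afa_sub_bfb x y z a b
  have h6 := dl_pos ha hb
  have h7 : 0 ≤ dl a b * (a * x - b * y) := by rw [← h5]; linarith
  exact nonneg_of_mul_nonneg_right h7 h6

/-- at a point where `a x = b y` both derivatives vanish -/
lemma KKT.zero_of {x y z a b : ℝ} (h : KKT x y z a b) (h0 : a * x - b * y = 0) :
    fa x y z a b = 0 ∧ fb x y z a b = 0 := by
  obtain ⟨ha, hb, h1, h2, h3, h4⟩ := h
  have h5 := afa_sub_bfb x y z a b
  rw [h0, mul_zero] at h5
  have h6 : a * fa x y z a b = 0 := by linarith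
  have h7 : b * fb x y z a b = 0 := by linarith
  constructor
  · rcases mul_eq_zero.mp h6 with h | h
    · exact h1 (by rw [h]; simp)
    · exact h
  · rcases mul_eq_zero.mp h7 with h | h
    · exact h3 (by rw [h]; simp)
    · exact h

lemma lin_of_zero {x y z a b : ℝ} (h1 : fa x y z a b = 0) (h2 : fb x y z a b = 0)
    (h0 : a * x - b * y = 0) :
    x * (1 + (a ^ 2 + b ^ 2) / 20) = - z * b ∧ y * (1 + (a ^ 2 + b ^ 2) / 20) = - z * a := by
  unfold fa at h1
  unfold fb at h2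
  constructor
  · linear_combination h1 - (-a) / 10 * h0
  · linear_combination h2 - b / 10 * h0

lemma ax_by_of_zero {x y z a b : ℝ} (ha : |a| ≤ 1) (hb : |b| ≤ 1)
    (h1 : fa x y z a b = 0) (h2 : fb x y z a b = 0) : a * x - b * y = 0 := by
  have h5 := afa_sub_bfb x y z a b
  rw [h1, h2] at h5
  have h6 := dl_pos ha hb
  have : dl a b * (a * x - b * y) = 0 := by rw [← h5]; ring
  rcases mul_eq_zero.mp this with h | h
  · exact absurd h h6.ne'
  · exact h

lemma unique_aux {q r r' Z : ℝ} (hZ : 0 < Z) (hq : 0 ≤ q) (r1 : 1 ≤ r) (r2 : 1 ≤ r')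
    (r3 : r ≤ 11 / 10) (r4 : r' ≤ 11 / 10) (e1 : q * r ^ 2 = Z * (20 * (r - 1)))
    (e2 : q * r' ^ 2 = Z * (20 * (r' - 1))) : r = r' := by
  have e3 : (r - r') * (q * (r + r') - 20 * Z) = 0 := by
    linear_combination e1 - e2
  rcases mul_eq_zero.mp e3 with h | h
  · linarith
  · exfalso
    have p3 : q * r ^ 2 ≤ Z * 2 := by
      rw [e1]
      have : 20 * (r - 1) ≤ 2 := by linarith
      exact mul_le_mul_of_nonneg_left this hZ.le
    have p1 : q * (r + r') ≤ q * (22 / 10) :=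
      mul_le_mul_of_nonneg_left (by linarith) hq
    have p2 : q * 1 ≤ q * r ^ 2 :=
      mul_le_mul_of_nonneg_left (by nlinarith) hq
    linarith

theorem kkt_unique {x y z a b a' b' : ℝ} (hx : ¬ (x = 0 ∧ y = 0 ∧ z = 0))
    (h : KKT x y z a b) (h' : KKT x y z a' b') : a = a' ∧ b = b' := by
  by_contra hne
  have hpos : 0 < (a - a') ^ 2 + (b - b') ^ 2 := by
    rcases (add_nonneg (sq_nonneg (a - a')) (sq_nonneg (b - b'))).lt_or_eq with h | h
    · exact h
    · exfalso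
      have e1 : (a - a') ^ 2 = 0 := by linarith [sq_nonneg (a - a'), sq_nonneg (b - b')]
      have e2 : (b - b') ^ 2 = 0 := by linarith [sq_nonneg (a - a'), sq_nonneg (b - b')]
      apply hne
      constructor
      · have := pow_eq_zero_iff (two_ne_zero) |>.mp e1; linarith
      · have := pow_eq_zero_iff (two_ne_zero) |>.mp e2; linarith
  have k1 := h.ax_by
  have k2 := h'.ax_by
  obtain ⟨ha, hb, h1, h2, h3, h4⟩ := id h
  obtain ⟨ha', hb', h1', h2', h3', h4'⟩ := id h'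
  have m1 := vi_of ha h1 h2 ha'
  have m2 := vi_of ha' h1' h2' ha
  have m3 := vi_of (f := - fb x y z a b) hb (fun q => by rw [h3 q]; simp) (by linarith) hb'
  have m4 := vi_of (f := - fb x y z a' b') hb' (fun q => by rw [h3' q]; simp) (by linarith) hb
  have m5 := mono_identity x y z a b a' b'
  have m6 : 0 ≤ 1 / 20 * ((a - a') ^ 2 + (b - b') ^ 2) * ((b + b') * y - (a + a') * x) := by
    rw [← m5]; linarith
  have m7 : 0 ≤ (b + b') * y - (a + a') * x :=
    nonneg_of_mul_nonneg_right m6 (by positivity)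
  have z1 : a * x - b * y = 0 := by linarith
  have z2 : a' * x - b' * y = 0 := by linarith
  obtain ⟨f1, f2⟩ := h.zero_of z1
  obtain ⟨f1', f2'⟩ := h'.zero_of z2
  obtain ⟨g1, g2⟩ := lin_of_zero f1 f2 z1
  obtain ⟨g1', g2'⟩ := lin_of_zero f1' f2' z2
  clear m1 m2 m3 m4 m5 m6 m7 h1 h2 h3 h4 h1' h2' h3' h4' k1 k2 h h' f1 f2 f1' f2' hpos
  have a1 : a ^ 2 ≤ 1 := (sq_le_one_iff_abs_le_one a).mpr ha
  have b1 : b ^ 2 ≤ 1 := (sq_le_one_iff_abs_le_one b).mpr hb
  have a1' : a' ^ 2 ≤ 1 := (sq_le_one_iff_abs_le_one a').mpr ha'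
  have b1' : b' ^ 2 ≤ 1 := (sq_le_one_iff_abs_le_one b').mpr hb'
  have r1 : 1 ≤ 1 + (a ^ 2 + b ^ 2) / 20 := by
    have : 0 ≤ (a ^ 2 + b ^ 2) / 20 := by positivity
    linarith
  have r2 : 1 ≤ 1 + (a' ^ 2 + b' ^ 2) / 20 := by
    have : 0 ≤ (a' ^ 2 + b' ^ 2) / 20 := by positivity
    linarith
  have r3 : 1 + (a ^ 2 + b ^ 2) / 20 ≤ 11 / 10 := by linarith
  have r4 : 1 + (a' ^ 2 + b' ^ 2) / 20 ≤ 11 / 10 := by linarith
  have hz : z ≠ 0 := by
    intro hz
    apply hx
    rw [hz] at g1 g2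
    refine ⟨?_, ?_, hz⟩
    · have : x * (1 + (a ^ 2 + b ^ 2) / 20) = 0 := by rw [g1]; ring
      rcases mul_eq_zero.mp this with h | h
      · exact h
      · linarith
    · have : y * (1 + (a ^ 2 + b ^ 2) / 20) = 0 := by rw [g2]; ring
      rcases mul_eq_zero.mp this with h | h
      · exact h
      · linarith
  have z2pos : 0 < z ^ 2 := by positivity
  have e1 : (x ^ 2 + y ^ 2) * (1 + (a ^ 2 + b ^ 2) / 20) ^ 2
      = z ^ 2 * (20 * ((1 + (a ^ 2 + b ^ 2) / 20) - 1)) := by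
    have : (x ^ 2 + y ^ 2) * (1 + (a ^ 2 + b ^ 2) / 20) ^ 2
      = (x * (1 + (a ^ 2 + b ^ 2) / 20)) ^ 2 + (y * (1 + (a ^ 2 + b ^ 2) / 20)) ^ 2 := by ring
    rw [this, g1, g2]; ring
  have e2 : (x ^ 2 + y ^ 2) * (1 + (a' ^ 2 + b' ^ 2) / 20) ^ 2
      = z ^ 2 * (20 * ((1 + (a' ^ 2 + b' ^ 2) / 20) - 1)) := by
    have : (x ^ 2 + y ^ 2) * (1 + (a' ^ 2 + b' ^ 2) / 20) ^ 2
      = (x * (1 + (a' ^ 2 + b' ^ 2) / 20)) ^ 2 + (y * (1 + (a' ^ 2 + b' ^ 2) / 20)) ^ 2 := by ring
    rw [this, g1', g2']; ring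
  have e4 := unique_aux z2pos (by positivity) r1 r2 r3 r4 e1 e2
  rw [← e4] at g1' g2'
  apply hne
  constructor
  · have : z * (a - a') = 0 := by linarith
    rcases mul_eq_zero.mp this with h | h
    · exact absurd h hz
    · linarith
  · have : z * (b - b') = 0 := by linarith
    rcases mul_eq_zero.mp this with h | h
    · exact absurd h hz
    · linarith

/-! symmetries -/

lemma KKT.symm1 {x y z a b : ℝ} (h : KKT x y z a b) : KKT (-x) y (-z) (-a) b := by
  obtain ⟨ha, hb, h1, h2, h3, h4⟩ := h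
  have e1 : fa (-x) y (-z) (-a) b = - fa x y z a b := by unfold fa; ring
  have e2 : fb (-x) y (-z) (-a) b = fb x y z a b := by unfold fb; ring
  refine ⟨by rwa [abs_neg], hb, ?_, ?_, ?_, ?_⟩
  · rw [abs_neg, e1]; intro q; rw [h1 q]; simp
  · rw [e1]; linarith
  · rw [e2]; exact h3
  · rw [e2]; exact h4

lemma KKT.symm2 {x y z a b : ℝ} (h : KKT x y z a b) : KKT x (-y) (-z) a (-b) := by
  obtain ⟨ha, hb, h1, h2, h3, h4⟩ := h
  have e1 : fa x (-y) (-z) a (-b) = fa x y z a b := by unfold fa; ring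
  have e2 : fb x (-y) (-z) a (-b) = - fb x y z a b := by unfold fb; ring
  refine ⟨ha, by rwa [abs_neg], ?_, ?_, ?_, ?_⟩
  · rw [e1]; exact h1
  · rw [e1]; exact h2
  · rw [abs_neg, e2]; intro q; rw [h3 q]; simp
  · rw [e2]; linarith

lemma KKT.symm3 {x y z a b : ℝ} (h : KKT x y z a b) : KKT (-y) (-x) (-z) b a := by
  obtain ⟨ha, hb, h1, h2, h3, h4⟩ := h
  have e1 : fa (-y) (-x) (-z) b a = - fb x y z a b := by unfold fa fb; ring
  have e2 : fb (-y) (-x) (-z) b a = - fa x y z a b := by unfold fa fb; ring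
  refine ⟨hb, ha, ?_, ?_, ?_, ?_⟩
  · rw [e1]; intro q; rw [h3 q]; simp
  · rw [e1]; linarith
  · rw [e2]; intro q; rw [h1 q]; simp
  · rw [e2]; linarith

lemma abs_div_le_one {y x : ℝ} (hx : 0 < x) (h : |y| ≤ x) : |y / x| ≤ 1 := by
  rw [abs_div, abs_of_pos hx]
  exact (div_le_one hx).mpr h

/-- existence in the sector `|y| ≤ x` above the plane `z = - y - x/10` -/
lemma exists_sector_upper {x y z : ℝ} (hx : 0 < x) (hy : |y| ≤ x) (hz : - y - x / 10 ≤ z) :
    ∃ a b, KKT x y z a b := by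
  have hy' := abs_le.mp hy
  by_cases c1 : x + (x ^ 2 + y ^ 2) / (20 * x) ≤ z
  · -- sheet
    have hxz : x ≤ z := le_trans (by have : 0 ≤ (x ^ 2 + y ^ 2) / (20 * x) := by positivity
                                     linarith) c1
    have hcont : ContinuousOn (fun w : ℝ => w + (x ^ 2 + y ^ 2) / (20 * w)) (Set.Icc x z) := by
      apply ContinuousOn.add continuousOn_id
      apply ContinuousOn.div continuousOn_const (by fun_prop)
      intro w hw
      have : 0 < w := lt_of_lt_of_le hx hw.1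
      positivity
    have hzpos : 0 < z := lt_of_lt_of_le hx hxz
    have hmem : z ∈ Set.Icc (x + (x ^ 2 + y ^ 2) / (20 * x)) (z + (x ^ 2 + y ^ 2) / (20 * z)) :=
      ⟨c1, by have : 0 ≤ (x ^ 2 + y ^ 2) / (20 * z) := by positivity
              linarith⟩
    obtain ⟨w, hw, hwz⟩ := intermediate_value_Icc hxz hcont hmem
    have hwpos : 0 < w := lt_of_lt_of_le hx hw.1
    simp only at hwz
    have z0 : z = w + (x ^ 2 + y ^ 2) / (20 * w) := hwz.symm
    have ha : |-(y / w)| ≤ 1 := by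
      rw [abs_neg]; exact abs_div_le_one hwpos (le_trans hy hw.1)
    have hb : |-(x / w)| ≤ 1 := by
      rw [abs_neg]; exact abs_div_le_one hwpos (by rw [abs_of_pos hx]; exact hw.1)
    have f1 : fa x y z (-(y / w)) (-(x / w)) = 0 := by
      unfold fa; rw [z0]; field_simp; ring
    have f2 : fb x y z (-(y / w)) (-(x / w)) = 0 := by
      unfold fb; rw [z0]; field_simp; ring
    exact ⟨-(y / w), -(x / w), ha, hb, fun _ => f1, by rw [f1]; simp, fun _ => f2,
      by rw [f2]; simp⟩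
  push Not at c1
  by_cases c2 : x - y / 10 ≤ z
  · -- fan b = -1
    have hyx : -(y / x) ≤ 1 := by
      have := abs_div_le_one hx hy
      rw [abs_le] at this; linarith [this.1]
    have hyx' : |y / x| ≤ 1 := abs_div_le_one hx hy
    have hcont : ContinuousOn (fun w : ℝ => fa x y z w (-1)) (Set.Icc (-(y / x)) 1) := by
      unfold fa; fun_prop
    have v1 : fa x y z (-(y / x)) (-1) = x + (x ^ 2 + y ^ 2) / (20 * x) - z := by
      unfold fa; field_simp; ring
    have v2 : fa x y z 1 (-1) = x - y / 10 - z := by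
      unfold fa; ring
    have hmem : (0 : ℝ) ∈ Set.Icc (fa x y z 1 (-1)) (fa x y z (-(y / x)) (-1)) :=
      ⟨by rw [v2]; linarith, by rw [v1]; linarith⟩
    obtain ⟨w, hw, hwz⟩ := intermediate_value_Icc' hyx hcont hmem
    simp only at hwz
    have hwabs : |w| ≤ 1 := by
      rw [abs_le]
      rw [abs_le] at hyx'
      exact ⟨by linarith [hw.1, hyx'.2], hw.2⟩
    have e := afa_sub_bfb x y z w (-1)
    rw [hwz] at e
    have hd := dl_pos hwabs (by norm_num : |(-1 : ℝ)| ≤ 1)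
    have hwx : 0 ≤ w * x - (-1) * y := by
      have : -(y / x) * x ≤ w * x := mul_le_mul_of_nonneg_right hw.1 hx.le
      have h2 : -(y / x) * x = - y := by field_simp
      rw [h2] at this; linarith
    have hfb : 0 ≤ fb x y z w (-1) := by
      have : fb x y z w (-1) = dl w (-1) * (w * x - (-1) * y) := by rw [← e]; ring
      rw [this]; positivity
    refine ⟨w, -1, hwabs, by norm_num, fun _ => hwz, by rw [hwz]; simp, ?_, by linarith⟩
    intro q; norm_num at q
  push Not at c2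
  by_cases c3 : x / 10 - y ≤ z
  · refine ⟨1, -1, by norm_num, by norm_num, ?_, ?_, ?_, ?_⟩
    · intro q; norm_num at q
    · unfold fa; linarith
    · intro q; norm_num at q
    · unfold fb; linarith
  push Not at c3
  -- fan a = 1
  have hcont : ContinuousOn (fun w : ℝ => fb x y z 1 w) (Set.Icc (-1) 1) := by
    unfold fb; fun_prop
  have v1 : fb x y z 1 (-1) = y + z - x / 10 := by unfold fb; ring
  have v2 : fb x y z 1 1 = y + z + x / 10 := by unfold fb; ring
  have hmem : (0 : ℝ) ∈ Set.Icc (fb x y z 1 (-1)) (fb x y z 1 1) :=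
    ⟨by rw [v1]; linarith, by rw [v2]; linarith⟩
  obtain ⟨w, hw, hwz⟩ := intermediate_value_Icc (by norm_num : (-1 : ℝ) ≤ 1) hcont hmem
  simp only at hwz
  have hwabs : |w| ≤ 1 := abs_le.mpr ⟨hw.1, hw.2⟩
  have e := afa_sub_bfb x y z 1 w
  rw [hwz] at e
  have hd := dl_pos (by norm_num : |(1 : ℝ)| ≤ 1) hwabs
  have hwx : 0 ≤ 1 * x - w * y := by
    have h1 : w * y ≤ |w * y| := le_abs_self _
    rw [abs_mul] at h1
    have h2 : |w| * |y| ≤ 1 * x := mul_le_mul hwabs hy (abs_nonneg _) (by norm_num)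
    linarith
  have hfa : 0 ≤ fa x y z 1 w := by
    have : fa x y z 1 w = dl 1 w * (1 * x - w * y) := by rw [← e]; ring
    rw [this]; positivity
  refine ⟨1, w, by norm_num, hwabs, ?_, by linarith, fun _ => hwz, by rw [hwz]; simp⟩
  intro q; norm_num at q

lemma exists_sector {x y z : ℝ} (hx : 0 < x) (hy : |y| ≤ x) : ∃ a b, KKT x y z a b := by
  by_cases hz : - y - x / 10 ≤ z
  · exact exists_sector_upper hx hy hz
  · push Not at hz
    have : |(-y)| ≤ x := by rwa [abs_neg]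
    obtain ⟨a, b, h⟩ := exists_sector_upper (z := -z) hx this (by linarith)
    have h' := h.symm2
    rw [neg_neg, neg_neg] at h'
    exact ⟨_, _, h'⟩

lemma exists_half {x y z : ℝ} (hy : |y| ≤ |x|) : ∃ a b, KKT x y z a b := by
  rcases lt_trichotomy x 0 with h | h | h
  · have h1 : 0 < -x := by linarith
    rw [abs_of_neg h] at hy
    obtain ⟨a, b, hk⟩ := exists_sector (z := -z) h1 hy
    have h' := hk.symm1
    rw [neg_neg, neg_neg] at h'
    exact ⟨_, _, h'⟩
  · subst h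
    rw [abs_zero] at hy
    have hy0 : y = 0 := abs_nonpos_iff.mp hy
    subst hy0
    refine ⟨0, 0, by simp, by simp, ?_, ?_, ?_, ?_⟩ <;> simp [fa, fb]
  · rw [abs_of_pos h] at hy
    exact exists_sector h hy

theorem kkt_exists (x y z : ℝ) : ∃ a b, KKT x y z a b := by
  rcases le_total |y| |x| with h | h
  · exact exists_half h
  · have h' : |(-x)| ≤ |(-y)| := by rwa [abs_neg, abs_neg]
    obtain ⟨a, b, hk⟩ := exists_half (z := -z) h'
    have h2 := hk.symm3
    rw [neg_neg, neg_neg, neg_neg] at h2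
    exact ⟨_, _, h2⟩

end Pool.Agent.Lib.MP_3a7ba1_an
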