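import Mathlib
import Pool.Agent.Lib.MP_3a7ba1_an.Kkt

/-!
The projection `p : ℝ^3 → [-1,1]^2` and its continuity away from the origin.
-/

set_option autoImplicit false

namespace Pool.Agent.Lib.MP_3a7ba1_an

open Filter Topology

noncomputable def pa (x : V) : ℝ := (kkt_exists (x 0) (x 1) (x 2)).choose
noncomputable def pb (x : V) : ℝ := (kkt_exists (x 0) (x 1) (x 2)).choose_spec.choose

lemma kkt_spec (x : V) : KKT (x 0) (x 1) (x 2) (pa x) (pb x) :=
  (kkt_exists (x 0) (x 1) (x 2)).choose_spec.choose_spec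

lemma ne_zero_coord {x : V} (hx : x ≠ 0) : ¬ (x 0 = 0 ∧ x 1 = 0 ∧ x 2 = 0) := by
  rintro ⟨h0, h1, h2⟩
  apply hx
  ext i
  fin_cases i
  · exact h0
  · exact h1
  · exact h2

lemma p_unique {x : V} (hx : x ≠ 0) {a b : ℝ} (h : KKT (x 0) (x 1) (x 2) a b) :
    pa x = a ∧ pb x = b :=
  kkt_unique (ne_zero_coord hx) (kkt_spec x) h

lemma abs_pa_le (x : V) : |pa x| ≤ 1 := (kkt_spec x).1
lemma abs_pb_le (x : V) : |pb x| ≤ 1 := (kkt_spec x).2.1

lemma continuous_fa : Continuous fun q : (ℝ × ℝ × ℝ) × (ℝ × ℝ) =>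
    fa q.1.1 q.1.2.1 q.1.2.2 q.2.1 q.2.2 := by
  unfold fa; fun_prop

lemma continuous_fb : Continuous fun q : (ℝ × ℝ × ℝ) × (ℝ × ℝ) =>
    fb q.1.1 q.1.2.1 q.1.2.2 q.2.1 q.2.2 := by
  unfold fb; fun_prop

lemma kkt_closed {x y z a b : ℕ → ℝ} {x' y' z' a' b' : ℝ}
    (hx : Tendsto x atTop (𝓝 x')) (hy : Tendsto y atTop (𝓝 y')) (hz : Tendsto z atTop (𝓝 z'))
    (ha : Tendsto a atTop (𝓝 a')) (hb : Tendsto b atTop (𝓝 b'))
    (h : ∀ n, KKT (x n) (y n) (z n) (a n) (b n)) : KKT x' y' z' a' b' := by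
  have hq : Tendsto (fun n => ((x n, y n, z n), (a n, b n))) atTop
      (𝓝 ((x', y', z'), (a', b'))) :=
    (hx.prodMk_nhds (hy.prodMk_nhds hz)).prodMk_nhds (ha.prodMk_nhds hb)
  have h1 : Tendsto (fun n => fa (x n) (y n) (z n) (a n) (b n)) atTop (𝓝 (fa x' y' z' a' b')) :=
    (continuous_fa.tendsto _).comp hq
  have h2 : Tendsto (fun n => fb (x n) (y n) (z n) (a n) (b n)) atTop (𝓝 (fb x' y' z' a' b')) :=
    (continuous_fb.tendsto _).comp hq
  refine ⟨?_, ?_, ?_, ?_, ?_, ?_⟩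
  · exact le_of_tendsto (ha.abs) (Eventually.of_forall fun n => (h n).1)
  · exact le_of_tendsto (hb.abs) (Eventually.of_forall fun n => (h n).2.1)
  · intro hlt
    have : ∀ᶠ n in atTop, |a n| < 1 := ha.abs.eventually_lt_const hlt
    have h3 : ∀ᶠ n in atTop, fa (x n) (y n) (z n) (a n) (b n) = 0 :=
      this.mono fun n hn => (h n).2.2.1 hn
    exact tendsto_nhds_unique h1 (tendsto_const_nhds.congr' (h3.mono fun n hn => hn.symm))
  · exact ge_of_tendsto (ha.mul h1) (Eventually.of_forall fun n => (h n).2.2.2.1)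
  · intro hlt
    have : ∀ᶠ n in atTop, |b n| < 1 := hb.abs.eventually_lt_const hlt
    have h3 : ∀ᶠ n in atTop, fb (x n) (y n) (z n) (a n) (b n) = 0 :=
      this.mono fun n hn => (h n).2.2.2.2.1 hn
    exact tendsto_nhds_unique h2 (tendsto_const_nhds.congr' (h3.mono fun n hn => hn.symm))
  · exact le_of_tendsto (hb.mul h2) (Eventually.of_forall fun n => (h n).2.2.2.2.2)

lemma continuous_coord (i : Fin 3) : Continuous fun x : V => x i := by fun_prop

theorem continuousAt_p {x : V} (hx : x ≠ 0) : ContinuousAt (fun y : V => (pa y, pb y)) x := by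
  apply Filter.tendsto_of_subseq_tendsto
  intro ns hns
  have hmem : ∀ n, (pa (ns n), pb (ns n)) ∈ Set.Icc (-1 : ℝ) 1 ×ˢ Set.Icc (-1 : ℝ) 1 := fun n =>
    ⟨abs_le.mp (abs_pa_le _), abs_le.mp (abs_pb_le _)⟩
  obtain ⟨⟨a', b'⟩, _, φ, hφ, hlim⟩ :=
    (isCompact_Icc.prod isCompact_Icc).tendsto_subseq hmem
  refine ⟨φ, ?_⟩
  have hsub : Tendsto (fun n => ns (φ n)) atTop (𝓝 x) := hns.comp hφ.tendsto_atTop
  have hc : ∀ i : Fin 3, Tendsto (fun n => (ns (φ n)) i) atTop (𝓝 (x i)) := fun i =>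
    ((continuous_coord i).tendsto x).comp hsub
  have hA : Tendsto (fun n => pa (ns (φ n))) atTop (𝓝 a') :=
    (continuous_fst.tendsto _).comp hlim
  have hB : Tendsto (fun n => pb (ns (φ n))) atTop (𝓝 b') :=
    (continuous_snd.tendsto _).comp hlim
  have hk : KKT (x 0) (x 1) (x 2) a' b' :=
    kkt_closed (hc 0) (hc 1) (hc 2) hA hB (fun n => kkt_spec _)
  obtain ⟨e1, e2⟩ := p_unique hx hk
  change Tendsto _ atTop (𝓝 (pa x, pb x))
  rw [e1, e2]
  exact hlim

lemma continuousAt_pa {x : V} (hx : x ≠ 0) : ContinuousAt pa x :=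
  (continuous_fst.continuousAt).comp (continuousAt_p hx)
lemma continuousAt_pb {x : V} (hx : x ≠ 0) : ContinuousAt pb x :=
  (continuous_snd.continuousAt).comp (continuousAt_p hx)

lemma measurable_pa : Measurable pa := by
  have h : ContinuousOn pa ({0}ᶜ : Set V) := fun x hx => (continuousAt_pa hx).continuousWithinAt
  exact measurable_of_continuousOn_compl_singleton 0 h

lemma measurable_pb : Measurable pb := by
  have h : ContinuousOn pb ({0}ᶜ : Set V) := fun x hx => (continuousAt_pb hx).continuousWithinAt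
  exact measurable_of_continuousOn_compl_singleton 0 h

end Pool.Agent.Lib.MP_3a7ba1_an
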