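import Mathlib
import Pool.Agent.Lib.MP_3a7ba1_an.Pi

/-!
The function `u` and its gradient at nondegenerate points.
-/

set_option autoImplicit false

namespace Pool.Agent.Lib.MP_3a7ba1_an

open Filter Topology Asymptotics

noncomputable def F (x y z a b : ℝ) : ℝ := x * S1 a b + y * S2 a b + z * S3 a b

noncomputable def u (x : V) : ℝ := F (x 0) (x 1) (x 2) (pa x) (pb x)

noncomputable def Svec (a b : ℝ) : V := vec (S1 a b) (S2 a b) (S3 a b)

def Good (x y z a b : ℝ) : Prop :=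
  (|a| < 1 ∨ fa x y z a b ≠ 0) ∧ (|b| < 1 ∨ fb x y z a b ≠ 0)

lemma inner_vec (p q r : ℝ) (y : V) : inner ℝ (vec p q r) y = p * y 0 + q * y 1 + r * y 2 := by
  simp [vec, PiLp.inner_apply, Fin.sum_univ_three]
  ring

lemma inner_Svec (a b : ℝ) (y : V) : inner ℝ (Svec a b) y = F (y 0) (y 1) (y 2) a b := by
  unfold Svec F
  rw [inner_vec]; ring

lemma abs_coord_le (y : V) (i : Fin 3) : |y i| ≤ ‖y‖ := by
  have := PiLp.norm_apply_le y i
  simpa using this

lemma quad_bound {α β γ h k : ℝ} (h1 : |α| ≤ 1) (h2 : |β| ≤ 1) (h3 : |γ| ≤ 1) :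
    |α * h ^ 2 + β * (h * k) + γ * k ^ 2| ≤ 2 * (h ^ 2 + k ^ 2) := by
  have e1 : |α * h ^ 2| ≤ h ^ 2 := by
    rw [abs_mul, abs_of_nonneg (sq_nonneg h)]
    exact mul_le_of_le_one_left (sq_nonneg h) h1
  have e2 : |γ * k ^ 2| ≤ k ^ 2 := by
    rw [abs_mul, abs_of_nonneg (sq_nonneg k)]
    exact mul_le_of_le_one_left (sq_nonneg k) h3
  have e3 : |β * (h * k)| ≤ |h * k| := by
    rw [abs_mul]
    exact mul_le_of_le_one_left (abs_nonneg _) h2
  have e4 : |h * k| ≤ h ^ 2 + k ^ 2 := by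
    rw [abs_le]; constructor <;> nlinarith [sq_nonneg (h + k), sq_nonneg (h - k)]
  calc |α * h ^ 2 + β * (h * k) + γ * k ^ 2|
      ≤ |α * h ^ 2| + |β * (h * k)| + |γ * k ^ 2| := abs_add_three _ _ _
    _ ≤ _ := by linarith

/-- second order Taylor estimate -/
lemma F_taylor (x y z a b a' b' : ℝ) (ha : |a| ≤ 1) (hb : |b| ≤ 1) (ha' : |a'| ≤ 1)
    (hb' : |b'| ≤ 1) :
    |F x y z a' b' - F x y z a b - fa x y z a b * (a' - a) - fb x y z a b * (b' - b)|
      ≤ 2 * (|x| + |y| + |z|) * ((a' - a) ^ 2 + (b' - b) ^ 2) := by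
  set h := a' - a with hh
  set k := b' - b with hk
  have ha2 : a' = a + h := by rw [hh]; ring
  have hb2 : b' = b + k := by rw [hk]; ring
  have hha : |h| ≤ 2 := by
    rw [hh]; rw [abs_le] at *; constructor <;> linarith [ha.1, ha.2, ha'.1, ha'.2]
  have hka : |k| ≤ 2 := by
    rw [hk]; rw [abs_le] at *; constructor <;> linarith [hb.1, hb.2, hb'.1, hb'.2]
  have key : F x y z a' b' - F x y z a b - fa x y z a b * h - fb x y z a b * k
      = x * ((-(a / 20 + h / 60)) * h ^ 2 + (b / 10) * (h * k) + (a / 20 + h / 20) * k ^ 2)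
        + y * ((b / 20 + k / 20) * h ^ 2 + (a / 10) * (h * k) + (-(b / 20 + k / 60)) * k ^ 2)
        + z * (0 * h ^ 2 + 1 * (h * k) + 0 * k ^ 2) := by
    rw [ha2, hb2]; unfold F fa fb S1 S2 S3; ring
  rw [abs_le] at ha hb hha hka
  have q1 := quad_bound (h := h) (k := k) (α := -(a / 20 + h / 60)) (β := b / 10)
    (γ := a / 20 + h / 20) (by rw [abs_le]; constructor <;> linarith [ha.1, ha.2, hha.1, hha.2])
    (by rw [abs_le]; constructor <;> linarith [hb.1, hb.2])
    (by rw [abs_le]; constructor <;> linarith [ha.1, ha.2, hha.1, hha.2])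
  have q2 := quad_bound (h := h) (k := k) (α := b / 20 + k / 20) (β := a / 10)
    (γ := -(b / 20 + k / 60)) (by rw [abs_le]; constructor <;> linarith [hb.1, hb.2, hka.1, hka.2])
    (by rw [abs_le]; constructor <;> linarith [ha.1, ha.2])
    (by rw [abs_le]; constructor <;> linarith [hb.1, hb.2, hka.1, hka.2])
  have q3 := quad_bound (h := h) (k := k) (α := 0) (β := 1) (γ := 0) (by norm_num) (by norm_num)
    (by norm_num)
  rw [key]
  refine (abs_add_three _ _ _).trans ?_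
  rw [abs_mul, abs_mul, abs_mul]
  have p1 := mul_le_mul_of_nonneg_left q1 (abs_nonneg x)
  have p2 := mul_le_mul_of_nonneg_left q2 (abs_nonneg y)
  have p3 := mul_le_mul_of_nonneg_left q3 (abs_nonneg z)
  linarith

lemma fa_diff (x y z a b a' b' : ℝ) :
    fa x y z a b - fa x y z a' b' = (a - a') * ((b + b') / 20 * y - (a + a') / 20 * x)
      + (b - b') * ((b + b') / 20 * x + (a + a') / 20 * y + z) := by
  unfold fa; ring

lemma fb_diff (x y z a b a' b' : ℝ) :
    fb x y z a b - fb x y z a' b' = (a - a') * ((b + b') / 20 * x + (a + a') / 20 * y + z)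
      - (b - b') * ((b + b') / 20 * y - (a + a') / 20 * x) := by
  unfold fb; ring

lemma fa_sub (x y z x' y' z' a b : ℝ) :
    fa (x - x') (y - y') (z - z') a b = fa x y z a b - fa x' y' z' a b := by
  unfold fa; ring
lemma fb_sub (x y z x' y' z' a b : ℝ) :
    fb (x - x') (y - y') (z - z') a b = fb x y z a b - fb x' y' z' a b := by
  unfold fb; ring

lemma abs_fa_le (x y z a b : ℝ) (ha : |a| ≤ 1) (hb : |b| ≤ 1) :
    |fa x y z a b| ≤ 2 * (|x| + |y| + |z|) := by
  have h1 : |1 - (a ^ 2 - b ^ 2) / 20| ≤ 2 := by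
    have h1 : a ^ 2 ≤ 1 := (sq_le_one_iff_abs_le_one a).mpr ha
    have h2 : b ^ 2 ≤ 1 := (sq_le_one_iff_abs_le_one b).mpr hb
    rw [abs_le]; constructor <;> linarith [sq_nonneg a, sq_nonneg b]
  have h2 : |a * b / 10| ≤ 2 := by
    have : |a * b| ≤ 1 := by rw [abs_mul]; exact mul_le_one₀ ha (abs_nonneg _) hb
    rw [abs_le] at *; constructor <;> linarith [this.1, this.2]
  have e : fa x y z a b = x * (1 - (a ^ 2 - b ^ 2) / 20) + y * (a * b / 10) + z * b := rfl
  rw [e]
  refine (abs_add_three _ _ _).trans ?_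
  rw [abs_mul, abs_mul, abs_mul]
  have p1 := mul_le_mul_of_nonneg_left h1 (abs_nonneg x)
  have p2 := mul_le_mul_of_nonneg_left h2 (abs_nonneg y)
  have p3 := mul_le_mul_of_nonneg_left (hb.trans (by norm_num : (1 : ℝ) ≤ 2)) (abs_nonneg z)
  linarith

lemma abs_fb_le (x y z a b : ℝ) (ha : |a| ≤ 1) (hb : |b| ≤ 1) :
    |fb x y z a b| ≤ 2 * (|x| + |y| + |z|) := by
  have h1 : |1 + (a ^ 2 - b ^ 2) / 20| ≤ 2 := by
    have h1 : a ^ 2 ≤ 1 := (sq_le_one_iff_abs_le_one a).mpr ha
    have h2 : b ^ 2 ≤ 1 := (sq_le_one_iff_abs_le_one b).mpr hb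
    rw [abs_le]; constructor <;> linarith [sq_nonneg a, sq_nonneg b]
  have h2 : |a * b / 10| ≤ 2 := by
    have : |a * b| ≤ 1 := by rw [abs_mul]; exact mul_le_one₀ ha (abs_nonneg _) hb
    rw [abs_le] at *; constructor <;> linarith [this.1, this.2]
  have e : fb x y z a b = x * (a * b / 10) + y * (1 + (a ^ 2 - b ^ 2) / 20) + z * a := rfl
  rw [e]
  refine (abs_add_three _ _ _).trans ?_
  rw [abs_mul, abs_mul, abs_mul]
  have p1 := mul_le_mul_of_nonneg_left h1 (abs_nonneg y)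
  have p2 := mul_le_mul_of_nonneg_left h2 (abs_nonneg x)
  have p3 := mul_le_mul_of_nonneg_left (ha.trans (by norm_num : (1 : ℝ) ≤ 2)) (abs_nonneg z)
  linarith

lemma sum_coord_le (y : V) : |y 0| + |y 1| + |y 2| ≤ 3 * ‖y‖ := by
  linarith [abs_coord_le y 0, abs_coord_le y 1, abs_coord_le y 2]

/-- the displacement of the projection at good points -/
lemma displacement {x : V} (hx : x ≠ 0) (hg : Good (x 0) (x 1) (x 2) (pa x) (pb x)) :
    ∃ C : ℝ, 0 ≤ C ∧ ∀ᶠ y in 𝓝 x,
      (pa y - pa x) ^ 2 + (pb y - pb x) ^ 2 ≤ C * ‖y - x‖ ^ 2 ∧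
      fa (y 0) (y 1) (y 2) (pa y) (pb y) * (pa x - pa y) = 0 ∧
      fb (y 0) (y 1) (y 2) (pa y) (pb y) * (pb x - pb y) = 0 := by
  set a := pa x with hadef
  set b := pb x with hbdef
  obtain ⟨ha, hb, k1, k2, k3, k4⟩ := kkt_spec x
  rw [← hadef] at ha k1 k2 k3 k4
  rw [← hbdef] at hb k1 k2 k3 k4
  have ca : Tendsto pa (𝓝 x) (𝓝 a) := continuousAt_pa hx
  have cb : Tendsto pb (𝓝 x) (𝓝 b) := continuousAt_pb hx
  have cc : ∀ i : Fin 3, Tendsto (fun y : V => y i) (𝓝 x) (𝓝 (x i)) := fun i =>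
    (continuous_coord i).tendsto x
  have cq : Tendsto (fun y : V => ((y 0, y 1, y 2), (pa y, pb y))) (𝓝 x)
      (𝓝 ((x 0, x 1, x 2), (a, b))) :=
    ((cc 0).prodMk_nhds ((cc 1).prodMk_nhds (cc 2))).prodMk_nhds (ca.prodMk_nhds cb)
  have cfa : Tendsto (fun y : V => fa (y 0) (y 1) (y 2) (pa y) (pb y)) (𝓝 x)
      (𝓝 (fa (x 0) (x 1) (x 2) a b)) := (continuous_fa.tendsto _).comp cq
  have cfb : Tendsto (fun y : V => fb (y 0) (y 1) (y 2) (pa y) (pb y)) (𝓝 x)
      (𝓝 (fb (x 0) (x 1) (x 2) a b)) := (continuous_fb.tendsto _).comp cq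
  -- the dichotomies
  have eva : (∀ᶠ y in 𝓝 x, fa (y 0) (y 1) (y 2) (pa y) (pb y) = 0) ∨
      (∀ᶠ y in 𝓝 x, pa y = a) := by
    by_cases hlt : |a| < 1
    · left
      have : ∀ᶠ y in 𝓝 x, |pa y| < 1 := ca.abs.eventually_lt_const hlt
      exact this.mono fun y hy => (kkt_spec y).2.2.1 hy
    · right
      have hne : fa (x 0) (x 1) (x 2) a b ≠ 0 := by
        rcases hg.1 with h | h
        · exact absurd h hlt
        · exact h
      have e1 : ∀ᶠ y in 𝓝 x, fa (y 0) (y 1) (y 2) (pa y) (pb y) ≠ 0 := cfa.eventually_ne hne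
      have habs : |a| = 1 := le_antisymm ha (not_lt.mp hlt)
      have e2 : ∀ᶠ y in 𝓝 x, |pa y - a| < 1 := by
        have : Tendsto (fun y => |pa y - a|) (𝓝 x) (𝓝 |a - a|) := (ca.sub_const a).abs
        rw [sub_self, abs_zero] at this
        exact this.eventually_lt_const one_pos
      filter_upwards [e1, e2] with y h1 h2
      have h3 : |pa y| = 1 := by
        refine le_antisymm (abs_pa_le y) (not_lt.mp fun q => h1 ((kkt_spec y).2.2.1 q))
      rcases (abs_eq (by norm_num : (0 : ℝ) ≤ 1)).mp habs with h | h <;>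
      rcases (abs_eq (by norm_num : (0 : ℝ) ≤ 1)).mp h3 with h' | h' <;> rw [h, h'] <;>
      rw [h, h'] at h2 <;> norm_num at h2
  have evb : (∀ᶠ y in 𝓝 x, fb (y 0) (y 1) (y 2) (pa y) (pb y) = 0) ∨
      (∀ᶠ y in 𝓝 x, pb y = b) := by
    by_cases hlt : |b| < 1
    · left
      have : ∀ᶠ y in 𝓝 x, |pb y| < 1 := cb.abs.eventually_lt_const hlt
      exact this.mono fun y hy => (kkt_spec y).2.2.2.2.1 hy
    · right
      have hne : fb (x 0) (x 1) (x 2) a b ≠ 0 := by
        rcases hg.2 with h | h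
        · exact absurd h hlt
        · exact h
      have e1 : ∀ᶠ y in 𝓝 x, fb (y 0) (y 1) (y 2) (pa y) (pb y) ≠ 0 := cfb.eventually_ne hne
      have habs : |b| = 1 := le_antisymm hb (not_lt.mp hlt)
      have e2 : ∀ᶠ y in 𝓝 x, |pb y - b| < 1 := by
        have : Tendsto (fun y => |pb y - b|) (𝓝 x) (𝓝 |b - b|) := (cb.sub_const b).abs
        rw [sub_self, abs_zero] at this
        exact this.eventually_lt_const one_pos
      filter_upwards [e1, e2] with y h1 h2
      have h3 : |pb y| = 1 := by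
        refine le_antisymm (abs_pb_le y) (not_lt.mp fun q => h1 ((kkt_spec y).2.2.2.2.1 q))
      rcases (abs_eq (by norm_num : (0 : ℝ) ≤ 1)).mp habs with h | h <;>
      rcases (abs_eq (by norm_num : (0 : ℝ) ≤ 1)).mp h3 with h' | h' <;> rw [h, h'] <;>
      rw [h, h'] at h2 <;> norm_num at h2
  -- limits of the coefficients
  have cA : Tendsto (fun y : V => ((pb y + b) / 20 * y 1 - (pa y + a) / 20 * y 0)) (𝓝 x)
      (𝓝 ((b + b) / 20 * x 1 - (a + a) / 20 * x 0)) :=
    (((cb.add_const b).div_const 20).mul (cc 1)).sub (((ca.add_const a).div_const 20).mul (cc 0))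
  have cC : Tendsto (fun y : V => ((pb y + b) / 20 * y 0 + (pa y + a) / 20 * y 1 + y 2)) (𝓝 x)
      (𝓝 ((b + b) / 20 * x 0 + (a + a) / 20 * x 1 + x 2)) :=
    ((((cb.add_const b).div_const 20).mul (cc 0)).add
      (((ca.add_const a).div_const 20).mul (cc 1))).add (cc 2)
  have E1 : ∀ y : V, |fa (y 0 - x 0) (y 1 - x 1) (y 2 - x 2) a b| ≤ 6 * ‖y - x‖ := by
    intro y
    have h1 := abs_fa_le (y 0 - x 0) (y 1 - x 1) (y 2 - x 2) a b ha hb
    have h2 := sum_coord_le (y - x)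
    simp only [PiLp.sub_apply] at h2
    linarith
  have E2 : ∀ y : V, |fb (y 0 - x 0) (y 1 - x 1) (y 2 - x 2) a b| ≤ 6 * ‖y - x‖ := by
    intro y
    have h1 := abs_fb_le (y 0 - x 0) (y 1 - x 1) (y 2 - x 2) a b ha hb
    have h2 := sum_coord_le (y - x)
    simp only [PiLp.sub_apply] at h2
    linarith
  have sqE : ∀ (e : ℝ) (y : V), |e| ≤ 6 * ‖y - x‖ → e ^ 2 ≤ 36 * ‖y - x‖ ^ 2 := by
    intro e y h
    have : e ^ 2 ≤ (6 * ‖y - x‖) ^ 2 := sq_le_sq' (by linarith [abs_le.mp h]) (abs_le.mp h).2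
    linarith [this, mul_pow (6 : ℝ) ‖y - x‖ 2]
  by_cases hlta : |a| < 1
  · have fa0 : fa (x 0) (x 1) (x 2) a b = 0 := k1 hlta
    have eva0 : ∀ᶠ y in 𝓝 x, fa (y 0) (y 1) (y 2) (pa y) (pb y) = 0 := by
      have : ∀ᶠ y in 𝓝 x, |pa y| < 1 := ca.abs.eventually_lt_const hlta
      exact this.mono fun y hy => (kkt_spec y).2.2.1 hy
    by_cases hltb : |b| < 1
    · -- type Q
      have fb0 : fb (x 0) (x 1) (x 2) a b = 0 := k3 hltb
      have evb0 : ∀ᶠ y in 𝓝 x, fb (y 0) (y 1) (y 2) (pa y) (pb y) = 0 := by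
        have : ∀ᶠ y in 𝓝 x, |pb y| < 1 := cb.abs.eventually_lt_const hltb
        exact this.mono fun y hy => (kkt_spec y).2.2.2.2.1 hy
      have hab := ax_by_of_zero ha hb fa0 fb0
      obtain ⟨l1, l2⟩ := lin_of_zero fa0 fb0 hab
      have hn3 : 0 < 1 + (a ^ 2 + b ^ 2) / 20 := by positivity
      have hz : x 2 ≠ 0 := by
        intro hz
        apply ne_zero_coord hx
        rw [hz] at l1 l2
        refine ⟨?_, ?_, hz⟩
        · have : x 0 * (1 + (a ^ 2 + b ^ 2) / 20) = 0 := by rw [l1]; ring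
          rcases mul_eq_zero.mp this with h | h
          · exact h
          · exact absurd h hn3.ne'
        · have : x 1 * (1 + (a ^ 2 + b ^ 2) / 20) = 0 := by rw [l2]; ring
          rcases mul_eq_zero.mp this with h | h
          · exact h
          · exact absurd h hn3.ne'
      have hC0 : (b + b) / 20 * x 0 + (a + a) / 20 * x 1 + x 2 ≠ 0 := by
        intro h0
        have : x 2 * dl a b = 0 := by
          unfold dl
          linear_combination (1 + (a ^ 2 + b ^ 2) / 20) * h0 - b / 10 * l1 - a / 10 * l2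
        rcases mul_eq_zero.mp this with h | h
        · exact hz h
        · exact absurd h (dl_pos ha hb).ne'
      set C0 := (b + b) / 20 * x 0 + (a + a) / 20 * x 1 + x 2 with hC0def
      have cC2 : Tendsto (fun y : V => ((pb y + b) / 20 * y 0 + (pa y + a) / 20 * y 1 + y 2) ^ 2)
        (𝓝 x) (𝓝 (C0 ^ 2)) := cC.pow 2
      have hpos : 0 < C0 ^ 2 := by positivity
      have evC : ∀ᶠ y in 𝓝 x, C0 ^ 2 / 2 <
          ((pb y + b) / 20 * y 0 + (pa y + a) / 20 * y 1 + y 2) ^ 2 :=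
        cC2.eventually_const_lt (by linarith)
      refine ⟨144 / C0 ^ 2, by positivity, ?_⟩
      filter_upwards [eva0, evb0, evC] with y g1 g2 g3
      refine ⟨?_, by rw [g1]; simp, by rw [g2]; simp⟩
      have d1 := fa_diff (y 0) (y 1) (y 2) (pa y) (pb y) a b
      have d2 := fb_diff (y 0) (y 1) (y 2) (pa y) (pb y) a b
      have s1 := fa_sub (y 0) (y 1) (y 2) (x 0) (x 1) (x 2) a b
      have s2 := fb_sub (y 0) (y 1) (y 2) (x 0) (x 1) (x 2) a b
      rw [fa0] at s1
      rw [fb0] at s2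
      rw [g1] at d1
      rw [g2] at d2
      have t1 := sqE _ y (E1 y)
      have t2 := sqE _ y (E2 y)
      set A := (pb y + b) / 20 * y 1 - (pa y + a) / 20 * y 0
      set C := (pb y + b) / 20 * y 0 + (pa y + a) / 20 * y 1 + y 2
      have id1 : (A ^ 2 + C ^ 2) * ((pa y - a) ^ 2 + (pb y - b) ^ 2)
          = (fa (y 0 - x 0) (y 1 - x 1) (y 2 - x 2) a b) ^ 2
            + (fb (y 0 - x 0) (y 1 - x 1) (y 2 - x 2) a b) ^ 2 := by
        have i1 : fa (y 0 - x 0) (y 1 - x 1) (y 2 - x 2) a b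
            = -((pa y - a) * A + (pb y - b) * C) := by rw [s1]; linarith
        have i2 : fb (y 0 - x 0) (y 1 - x 1) (y 2 - x 2) a b
            = -((pa y - a) * C - (pb y - b) * A) := by rw [s2]; linarith
        rw [i1, i2]; ring
      have hnn : 0 ≤ (pa y - a) ^ 2 + (pb y - b) ^ 2 := by positivity
      have i3 : C0 ^ 2 / 2 * ((pa y - a) ^ 2 + (pb y - b) ^ 2)
          ≤ (A ^ 2 + C ^ 2) * ((pa y - a) ^ 2 + (pb y - b) ^ 2) :=
        mul_le_mul_of_nonneg_right (by linarith [sq_nonneg A]) hnn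
      rw [id1] at i3
      rw [div_mul_eq_mul_div, le_div_iff₀ hpos]
      linarith
    · -- type B
      have hfb : fb (x 0) (x 1) (x 2) a b ≠ 0 := by
        rcases hg.2 with h | h
        · exact absurd h hltb
        · exact h
      have habs : |b| = 1 := le_antisymm hb (not_lt.mp hltb)
      have hb0 : b ≠ 0 := by
        intro h; rw [h] at habs; simp at habs
      have evb1 : ∀ᶠ y in 𝓝 x, pb y = b := by
        rcases evb with h | h
        · exfalso
          have := tendsto_nhds_unique cfb (tendsto_const_nhds.congr' (h.mono fun n hn => hn.symm))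
          exact hfb this
        · exact h
      have hA0 : (b + b) / 20 * x 1 - (a + a) / 20 * x 0 ≠ 0 := by
        intro h0
        have e := afa_sub_bfb (x 0) (x 1) (x 2) a b
        rw [fa0] at e
        have : b * fb (x 0) (x 1) (x 2) a b = 0 := by
          linear_combination (-1) * e + 10 * dl a b * h0
        rcases mul_eq_zero.mp this with h | h
        · exact hb0 h
        · exact hfb h
      set A0 := (b + b) / 20 * x 1 - (a + a) / 20 * x 0 with hA0def
      have cA2 : Tendsto (fun y : V => ((pb y + b) / 20 * y 1 - (pa y + a) / 20 * y 0) ^ 2)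
        (𝓝 x) (𝓝 (A0 ^ 2)) := cA.pow 2
      have hpos : 0 < A0 ^ 2 := by positivity
      have evC : ∀ᶠ y in 𝓝 x, A0 ^ 2 / 2 <
          ((pb y + b) / 20 * y 1 - (pa y + a) / 20 * y 0) ^ 2 :=
        cA2.eventually_const_lt (by linarith)
      refine ⟨72 / A0 ^ 2, by positivity, ?_⟩
      filter_upwards [eva0, evb1, evC] with y g1 g2 g3
      refine ⟨?_, by rw [g1]; simp, by rw [g2]; simp⟩
      have d1 := fa_diff (y 0) (y 1) (y 2) (pa y) (pb y) a b
      have s1 := fa_sub (y 0) (y 1) (y 2) (x 0) (x 1) (x 2) a b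
      rw [fa0] at s1
      rw [g1] at d1
      have t1 := sqE _ y (E1 y)
      set A := (pb y + b) / 20 * y 1 - (pa y + a) / 20 * y 0
      set C := (pb y + b) / 20 * y 0 + (pa y + a) / 20 * y 1 + y 2
      have hk0 : pb y - b = 0 := by rw [g2]; ring
      rw [hk0] at d1 ⊢
      have i1 : fa (y 0 - x 0) (y 1 - x 1) (y 2 - x 2) a b = -((pa y - a) * A) := by
        rw [s1]; linarith
      rw [i1] at t1
      have i3 : A0 ^ 2 / 2 * (pa y - a) ^ 2 ≤ A ^ 2 * (pa y - a) ^ 2 :=
        mul_le_mul_of_nonneg_right (by linarith) (sq_nonneg _)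
      rw [div_mul_eq_mul_div, le_div_iff₀ hpos]
      have i4 : (-((pa y - a) * A)) ^ 2 = A ^ 2 * (pa y - a) ^ 2 := by ring
      rw [i4] at t1
      nlinarith
  · have hfa : fa (x 0) (x 1) (x 2) a b ≠ 0 := by
      rcases hg.1 with h | h
      · exact absurd h hlta
      · exact h
    have habs : |a| = 1 := le_antisymm ha (not_lt.mp hlta)
    have ha0 : a ≠ 0 := by
      intro h; rw [h] at habs; simp at habs
    have eva1 : ∀ᶠ y in 𝓝 x, pa y = a := by
      rcases eva with h | h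
      · exfalso
        have := tendsto_nhds_unique cfa (tendsto_const_nhds.congr' (h.mono fun n hn => hn.symm))
        exact hfa this
      · exact h
    by_cases hltb : |b| < 1
    · -- type A
      have fb0 : fb (x 0) (x 1) (x 2) a b = 0 := k3 hltb
      have evb0 : ∀ᶠ y in 𝓝 x, fb (y 0) (y 1) (y 2) (pa y) (pb y) = 0 := by
        have : ∀ᶠ y in 𝓝 x, |pb y| < 1 := cb.abs.eventually_lt_const hltb
        exact this.mono fun y hy => (kkt_spec y).2.2.2.2.1 hy
      have hA0 : (b + b) / 20 * x 1 - (a + a) / 20 * x 0 ≠ 0 := by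
        intro h0
        have e := afa_sub_bfb (x 0) (x 1) (x 2) a b
        rw [fb0] at e
        have : a * fa (x 0) (x 1) (x 2) a b = 0 := by
          linear_combination e - 10 * dl a b * h0
        rcases mul_eq_zero.mp this with h | h
        · exact ha0 h
        · exact hfa h
      set A0 := (b + b) / 20 * x 1 - (a + a) / 20 * x 0 with hA0def
      have cA2 : Tendsto (fun y : V => ((pb y + b) / 20 * y 1 - (pa y + a) / 20 * y 0) ^ 2)
        (𝓝 x) (𝓝 (A0 ^ 2)) := cA.pow 2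
      have hpos : 0 < A0 ^ 2 := by positivity
      have evC : ∀ᶠ y in 𝓝 x, A0 ^ 2 / 2 <
          ((pb y + b) / 20 * y 1 - (pa y + a) / 20 * y 0) ^ 2 :=
        cA2.eventually_const_lt (by linarith)
      refine ⟨72 / A0 ^ 2, by positivity, ?_⟩
      filter_upwards [eva1, evb0, evC] with y g1 g2 g3
      refine ⟨?_, by rw [g1]; simp, by rw [g2]; simp⟩
      have d1 := fb_diff (y 0) (y 1) (y 2) (pa y) (pb y) a b
      have s1 := fb_sub (y 0) (y 1) (y 2) (x 0) (x 1) (x 2) a b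
      rw [fb0] at s1
      rw [g2] at d1
      have t1 := sqE _ y (E2 y)
      set A := (pb y + b) / 20 * y 1 - (pa y + a) / 20 * y 0
      set C := (pb y + b) / 20 * y 0 + (pa y + a) / 20 * y 1 + y 2
      have hk0 : pa y - a = 0 := by rw [g1]; ring
      rw [hk0] at d1 ⊢
      have i1 : fb (y 0 - x 0) (y 1 - x 1) (y 2 - x 2) a b = (pb y - b) * A := by
        rw [s1]; linarith
      rw [i1] at t1
      have i3 : A0 ^ 2 / 2 * (pb y - b) ^ 2 ≤ A ^ 2 * (pb y - b) ^ 2 :=
        mul_le_mul_of_nonneg_right (by linarith) (sq_nonneg _)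
      rw [div_mul_eq_mul_div, le_div_iff₀ hpos]
      have i4 : ((pb y - b) * A) ^ 2 = A ^ 2 * (pb y - b) ^ 2 := by ring
      rw [i4] at t1
      nlinarith
    · -- type V
      have hfb : fb (x 0) (x 1) (x 2) a b ≠ 0 := by
        rcases hg.2 with h | h
        · exact absurd h hltb
        · exact h
      have evb1 : ∀ᶠ y in 𝓝 x, pb y = b := by
        rcases evb with h | h
        · exfalso
          have := tendsto_nhds_unique cfb (tendsto_const_nhds.congr' (h.mono fun n hn => hn.symm))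
          exact hfb this
        · exact h
      refine ⟨0, le_refl _, ?_⟩
      filter_upwards [eva1, evb1] with y g1 g2
      rw [g1, g2]; simp

theorem hasGradientAt_u {x : V} (hx : x ≠ 0) (hg : Good (x 0) (x 1) (x 2) (pa x) (pb x)) :
    HasGradientAt u (Svec (pa x) (pb x)) x := by
  obtain ⟨C, hC, hev⟩ := displacement hx hg
  set a := pa x with hadef
  set b := pb x with hbdef
  have ha : |a| ≤ 1 := abs_pa_le x
  have hb : |b| ≤ 1 := abs_pb_le x
  -- remainder
  have hO : (fun y : V => u y - inner ℝ (Svec a b) y) =O[𝓝 x] fun y => ‖y - x‖ ^ 2 := by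
    have hball : ∀ᶠ y in 𝓝 x, ‖y‖ ≤ ‖x‖ + 1 := by
      have : Tendsto (fun y : V => ‖y‖) (𝓝 x) (𝓝 ‖x‖) := continuous_norm.tendsto x
      exact (this.eventually_lt_const (by linarith : ‖x‖ < ‖x‖ + 1)).mono fun y hy => hy.le
    apply IsBigO.of_bound (6 * (‖x‖ + 1) * C)
    filter_upwards [hev, hball] with y hy hy2
    obtain ⟨h1, h2, h3⟩ := hy
    have ht := F_taylor (y 0) (y 1) (y 2) (pa y) (pb y) a b (abs_pa_le y) (abs_pb_le y) ha hb
    rw [h2, h3, sub_zero, sub_zero] at ht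
    rw [inner_Svec]
    have e : u y = F (y 0) (y 1) (y 2) (pa y) (pb y) := rfl
    rw [e, Real.norm_eq_abs, abs_sub_comm]
    refine ht.trans ?_
    have h4 := sum_coord_le y
    have h5 : (a - pa y) ^ 2 + (b - pb y) ^ 2 ≤ C * ‖y - x‖ ^ 2 := by
      have : (a - pa y) ^ 2 + (b - pb y) ^ 2 = (pa y - a) ^ 2 + (pb y - b) ^ 2 := by ring
      rw [this]; exact h1
    have h6 : 0 ≤ (a - pa y) ^ 2 + (b - pb y) ^ 2 := by positivity
    rw [norm_pow, norm_norm]
    calc 2 * (|y 0| + |y 1| + |y 2|) * ((a - pa y) ^ 2 + (b - pb y) ^ 2)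
        ≤ 2 * (3 * (‖x‖ + 1)) * ((a - pa y) ^ 2 + (b - pb y) ^ 2) := by
          apply mul_le_mul_of_nonneg_right _ h6
          linarith
      _ ≤ 2 * (3 * (‖x‖ + 1)) * (C * ‖y - x‖ ^ 2) := by
          apply mul_le_mul_of_nonneg_left h5
          positivity
      _ = _ := by ring
  have h0 := Asymptotics.IsBigO.hasFDerivAt (𝕜 := ℝ) hO (by norm_num : 1 < 2)
  have h1 : HasFDerivAt (fun y : V => inner ℝ (Svec a b) y)
      (innerSL ℝ (Svec a b)) x := (innerSL ℝ (Svec a b)).hasFDerivAt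
  have h2 := h0.add h1
  rw [hasGradientAt_iff_hasFDerivAt]
  have h3 : HasFDerivAt u (0 + innerSL ℝ (Svec a b)) x :=
    h2.congr_of_eventuallyEq (Eventually.of_forall fun y => by simp)
  refine h3.congr_fderiv ?_
  ext y
  simp

end Pool.Agent.Lib.MP_3a7ba1_an
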