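import Mathlib
import Pool.Agent.Lib.MP_3a7ba1_an.U

/-!
Degenerate directions, Lipschitz continuity of `u`, failure of differentiability at the origin.
-/

set_option autoImplicit false

namespace Pool.Agent.Lib.MP_3a7ba1_an

open Filter Topology Asymptotics MeasureTheory

/-- the product of the polynomials defining the interfaces -/
def PPr {R : Type} [CommRing R] (x y z : R) : R :=
  ((20 * y * z + 21 * y ^ 2 + x ^ 2) * (-(20 * y * z) + 21 * y ^ 2 + x ^ 2)) *
  ((20 * x * z + 21 * x ^ 2 + y ^ 2) * (-(20 * x * z) + 21 * x ^ 2 + y ^ 2)) *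
  ((10 * x + y + 10 * z) * (10 * x - y - 10 * z) * (10 * x - y + 10 * z) * (10 * x + y - 10 * z)) *
  ((x + 10 * y + 10 * z) * (-x + 10 * y + 10 * z) * (-x + 10 * y - 10 * z) * (x + 10 * y - 10 * z))

noncomputable def PP (x : V) : ℝ := PPr (x 0) (x 1) (x 2)

lemma PPr_map {R S : Type} [CommRing R] [CommRing S] (f : R →+* S) (x y z : R) :
    f (PPr x y z) = PPr (f x) (f y) (f z) := by
  unfold PPr; simp only [map_mul, map_add, map_sub, map_neg, map_pow, map_ofNat]

@[simp] lemma vec_0 (x y z : ℝ) : (vec x y z) 0 = x := rfl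
@[simp] lemma vec_1 (x y z : ℝ) : (vec x y z) 1 = y := rfl
@[simp] lemma vec_2 (x y z : ℝ) : (vec x y z) 2 = z := rfl

lemma PPr_smul (c x y z : ℝ) : PPr (c * x) (c * y) (c * z) = c ^ 16 * PPr x y z := by
  unfold PPr; ring

/-- along lines `PP` is a polynomial -/
lemma PP_line (x v : V) : ∃ P : Polynomial ℝ, ∀ t : ℝ, PP (x + t • v) = P.eval t := by
  refine ⟨PPr (Polynomial.C (x 0) + Polynomial.C (v 0) * Polynomial.X)
    (Polynomial.C (x 1) + Polynomial.C (v 1) * Polynomial.X)
    (Polynomial.C (x 2) + Polynomial.C (v 2) * Polynomial.X), fun t => ?_⟩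
  have h := PPr_map (Polynomial.evalRingHom t) (Polynomial.C (x 0) + Polynomial.C (v 0) * Polynomial.X)
    (Polynomial.C (x 1) + Polynomial.C (v 1) * Polynomial.X)
    (Polynomial.C (x 2) + Polynomial.C (v 2) * Polynomial.X)
  simp only [Polynomial.coe_evalRingHom] at h
  rw [h]
  unfold PP
  simp only [Polynomial.eval_add, Polynomial.eval_mul, Polynomial.eval_C, Polynomial.eval_X,
    PiLp.add_apply, PiLp.smul_apply, smul_eq_mul]
  congr 1 <;> ring

lemma PP_line_finite {x v : V} (h : ∃ t : ℝ, PP (x + t • v) ≠ 0) :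
    {t : ℝ | PP (x + t • v) = 0}.Finite := by
  obtain ⟨P, hP⟩ := PP_line x v
  obtain ⟨t, ht⟩ := h
  have hP0 : P ≠ 0 := by
    intro h0
    apply ht
    rw [hP, h0]; simp
  have : {t : ℝ | PP (x + t • v) = 0} ⊆ (P.roots.toFinset : Set ℝ) := by
    intro s hs
    simp only [Set.mem_ofPred_eq] at hs
    rw [hP] at hs
    simp [hP0, hs]
  exact (Finset.finite_toSet _).subset this

lemma continuous_PP : Continuous PP := by
  unfold PP PPr; fun_prop

noncomputable def e1 : V := vec 1 0 0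

lemma PP_e1 : PP e1 ≠ 0 := by
  unfold PP PPr e1; simp only [vec_0, vec_1, vec_2]; norm_num

lemma PP_smul (c : ℝ) (x : V) : PP (c • x) = c ^ 16 * PP x := by
  unfold PP; simp only [PiLp.smul_apply, smul_eq_mul]; exact PPr_smul _ _ _ _

/-- on every line in direction `e1` the polynomial is not identically zero -/
lemma PP_e1_line (x : V) : ∃ t : ℝ, PP (x + t • e1) ≠ 0 := by
  have h1 : Tendsto (fun s : ℝ => PP (s • x + e1)) (𝓝 0) (𝓝 (PP ((0 : ℝ) • x + e1))) := by
    have : Continuous fun s : ℝ => PP (s • x + e1) :=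
      continuous_PP.comp ((continuous_id.smul continuous_const).add continuous_const)
    exact this.tendsto 0
  rw [zero_smul, zero_add] at h1
  have h2 : ∀ᶠ s in 𝓝[>] (0 : ℝ), PP (s • x + e1) ≠ 0 :=
    (h1.eventually_ne PP_e1).filter_mono nhdsWithin_le_nhds
  have h3 : ∀ᶠ s in 𝓝[>] (0 : ℝ), (0 : ℝ) < s := eventually_mem_nhdsWithin
  obtain ⟨s, hs, hs0⟩ := (h2.and h3).exists
  refine ⟨s⁻¹, fun h => hs ?_⟩
  have : s • x + e1 = s • (x + s⁻¹ • e1) := by
    rw [smul_add, smul_smul, mul_inv_cancel₀ hs0.ne', one_smul]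
  rw [this, PP_smul, h, mul_zero]

lemma ae_PP_ne : ∀ᵐ x : V, PP x ≠ 0 := by
  have hmeas : MeasurableSet {x : V | PP x ≠ 0} :=
    (isOpen_ne_fun continuous_PP continuous_const).measurableSet
  let L : ℝ →ₗ[ℝ] V := LinearMap.toSpanSingleton ℝ V e1
  have := ae_mem_of_ae_add_linearMap_mem (𝕜 := ℝ) (E := ℝ) (F := V) L volume volume hmeas ?_
  · exact this
  · intro y
    have hfin := PP_line_finite (PP_e1_line y)
    have : ∀ᵐ t : ℝ, t ∉ {t : ℝ | PP (y + t • e1) = 0} := by
      rw [ae_iff]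
      simp only [not_not]
      exact hfin.measure_zero _
    filter_upwards [this] with t ht
    simpa [L] using ht

lemma pm_one_of_abs {a : ℝ} (h : |a| = 1) : a = 1 ∨ a = -1 :=
  (abs_eq (by norm_num : (0 : ℝ) ≤ 1)).mp h

lemma ne_zero_of_PP {x : V} (h : PP x ≠ 0) : x ≠ 0 := by
  intro h0
  apply h
  rw [h0]; unfold PP PPr; simp

lemma factors {x y z : ℝ} (h : PPr x y z ≠ 0) :
    (20 * y * z + 21 * y ^ 2 + x ^ 2 ≠ 0 ∧ -(20 * y * z) + 21 * y ^ 2 + x ^ 2 ≠ 0) ∧
    (20 * x * z + 21 * x ^ 2 + y ^ 2 ≠ 0 ∧ -(20 * x * z) + 21 * x ^ 2 + y ^ 2 ≠ 0) ∧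
    (10 * x + y + 10 * z ≠ 0 ∧ 10 * x - y - 10 * z ≠ 0 ∧ 10 * x - y + 10 * z ≠ 0 ∧
      10 * x + y - 10 * z ≠ 0) ∧
    (x + 10 * y + 10 * z ≠ 0 ∧ -x + 10 * y + 10 * z ≠ 0 ∧ -x + 10 * y - 10 * z ≠ 0 ∧
      x + 10 * y - 10 * z ≠ 0) := by
  unfold PPr at h
  simp only [mul_ne_zero_iff] at h
  tauto

/-- nonvanishing of `PP` implies nondegeneracy -/
lemma good_of_PPr {x y z a b : ℝ} (h : PPr x y z ≠ 0) (hk : KKT x y z a b) :
    Good x y z a b := by
  obtain ⟨⟨q1, q2⟩, ⟨q3, q4⟩, ⟨l1, l2, l3, l4⟩, ⟨m1, m2, m3, m4⟩⟩ := factors h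
  obtain ⟨ha, hb, k1, k2, k3, k4⟩ := hk
  constructor
  · by_contra hcon
    push Not at hcon
    obtain ⟨h1, h2⟩ := hcon
    have ha1 : |a| = 1 := le_antisymm ha h1
    by_cases hb1 : |b| < 1
    · have h3 := k3 hb1
      have h4 := ax_by_of_zero ha hb h2 h3
      obtain ⟨g1, g2⟩ := lin_of_zero h2 h3 h4
      rcases pm_one_of_abs ha1 with h | h
      · apply q1
        subst h
        have hx : x = b * y := by linarith
        subst hx
        linear_combination 20 * y * g2
      · apply q2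
        subst h
        have hx : x = - b * y := by linarith
        subst hx
        linear_combination 20 * y * g2
    · have hb2 : |b| = 1 := le_antisymm hb (not_lt.mp hb1)
      rcases pm_one_of_abs ha1 with h | h <;> rcases pm_one_of_abs hb2 with h' | h' <;>
      subst h <;> subst h' <;> unfold fa at h2
      · apply l1; linarith
      · apply l2; linarith
      · apply l3; linarith
      · apply l4; linarith
  · by_contra hcon
    push Not at hcon
    obtain ⟨h1, h2⟩ := hcon
    have hb1 : |b| = 1 := le_antisymm hb h1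
    by_cases ha1 : |a| < 1
    · have h3 := k1 ha1
      have h4 := ax_by_of_zero ha hb h3 h2
      obtain ⟨g1, g2⟩ := lin_of_zero h3 h2 h4
      rcases pm_one_of_abs hb1 with h | h
      · apply q3
        subst h
        have hx : y = a * x := by linarith
        subst hx
        linear_combination 20 * x * g1
      · apply q4
        subst h
        have hx : y = - a * x := by linarith
        subst hx
        linear_combination 20 * x * g1
    · have ha2 : |a| = 1 := le_antisymm ha (not_lt.mp ha1)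
      rcases pm_one_of_abs ha2 with h | h <;> rcases pm_one_of_abs hb1 with h' | h' <;>
      subst h <;> subst h' <;> unfold fb at h2
      · apply m1; linarith
      · apply m2; linarith
      · apply m3; linarith
      · apply m4; linarith

lemma hasGradientAt_of_PP {x : V} (h : PP x ≠ 0) : HasGradientAt u (Svec (pa x) (pb x)) x :=
  hasGradientAt_u (ne_zero_of_PP h) (good_of_PPr h (kkt_spec x))

lemma norm_vec_le (p q r : ℝ) : ‖vec p q r‖ ≤ |p| + |q| + |r| := by
  have h : ‖vec p q r‖ ^ 2 = p ^ 2 + q ^ 2 + r ^ 2 := by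
    rw [EuclideanSpace.norm_sq_eq]
    simp [vec, Fin.sum_univ_three]
  have h2 : 0 ≤ |p| + |q| + |r| := by positivity
  apply le_of_sq_le_sq _ h2
  rw [h]
  nlinarith [sq_abs p, sq_abs q, sq_abs r, abs_nonneg p, abs_nonneg q, abs_nonneg r,
    mul_nonneg (abs_nonneg p) (abs_nonneg q), mul_nonneg (abs_nonneg p) (abs_nonneg r),
    mul_nonneg (abs_nonneg q) (abs_nonneg r)]

lemma norm_Svec_le {a b : ℝ} (ha : |a| ≤ 1) (hb : |b| ≤ 1) : ‖Svec a b‖ ≤ 4 := by
  have h1 : a ^ 2 ≤ 1 := (sq_le_one_iff_abs_le_one a).mpr ha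
  have h2 : b ^ 2 ≤ 1 := (sq_le_one_iff_abs_le_one b).mpr hb
  have e1 : |S1 a b| ≤ 3 / 2 := by
    have : S1 a b = a * (1 - (a ^ 2 - 3 * b ^ 2) / 60) := by unfold S1; ring
    rw [this, abs_mul]
    have h3 : |1 - (a ^ 2 - 3 * b ^ 2) / 60| ≤ 3 / 2 := by
      rw [abs_le]; constructor <;> linarith [sq_nonneg a, sq_nonneg b]
    calc |a| * |1 - (a ^ 2 - 3 * b ^ 2) / 60| ≤ 1 * (3 / 2) :=
          mul_le_mul ha h3 (abs_nonneg _) (by norm_num)
      _ = 3 / 2 := by norm_num
  have e2 : |S2 a b| ≤ 3 / 2 := by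
    have : S2 a b = b * (1 - (b ^ 2 - 3 * a ^ 2) / 60) := by unfold S2; ring
    rw [this, abs_mul]
    have h3 : |1 - (b ^ 2 - 3 * a ^ 2) / 60| ≤ 3 / 2 := by
      rw [abs_le]; constructor <;> linarith [sq_nonneg a, sq_nonneg b]
    calc |b| * |1 - (b ^ 2 - 3 * a ^ 2) / 60| ≤ 1 * (3 / 2) :=
          mul_le_mul hb h3 (abs_nonneg _) (by norm_num)
      _ = 3 / 2 := by norm_num
  have e3 : |S3 a b| ≤ 1 := by
    unfold S3; rw [abs_mul]; exact mul_le_one₀ ha (abs_nonneg _) hb
  exact (norm_vec_le _ _ _).trans (by linarith)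

lemma u_eq_inner (x : V) : u x = inner ℝ (Svec (pa x) (pb x)) x := (inner_Svec _ _ _).symm

lemma abs_u_le (x : V) : |u x| ≤ 4 * ‖x‖ := by
  rw [u_eq_inner]
  refine (abs_real_inner_le_norm _ _).trans ?_
  exact mul_le_mul_of_nonneg_right (norm_Svec_le (abs_pa_le x) (abs_pb_le x)) (norm_nonneg _)

lemma u_zero : u 0 = 0 := by
  have := abs_u_le 0
  rw [norm_zero, mul_zero] at this
  exact abs_nonpos_iff.mp this

lemma continuous_F : Continuous fun q : (ℝ × ℝ × ℝ) × (ℝ × ℝ) =>
    F q.1.1 q.1.2.1 q.1.2.2 q.2.1 q.2.2 := by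
  unfold F S1 S2 S3; fun_prop

lemma continuous_u : Continuous u := by
  rw [continuous_iff_continuousAt]
  intro x
  by_cases hx : x = 0
  · subst hx
    rw [ContinuousAt, u_zero]
    rw [tendsto_zero_iff_abs_tendsto_zero]
    have h : Tendsto (fun x : V => 4 * ‖x‖) (𝓝 0) (𝓝 0) := by
      have : Continuous fun x : V => 4 * ‖x‖ := by fun_prop
      simpa using this.tendsto 0
    exact squeeze_zero (fun x => abs_nonneg _) (fun x => abs_u_le x) h
  · have cc : ∀ i : Fin 3, Tendsto (fun y : V => y i) (𝓝 x) (𝓝 (x i)) := fun i =>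
      (continuous_coord i).tendsto x
    have cq : Tendsto (fun y : V => ((y 0, y 1, y 2), (pa y, pb y))) (𝓝 x)
        (𝓝 ((x 0, x 1, x 2), (pa x, pb x))) :=
      ((cc 0).prodMk_nhds ((cc 1).prodMk_nhds (cc 2))).prodMk_nhds (continuousAt_p hx)
    exact (continuous_F.tendsto _).comp cq

/-- the inequality from a generic point -/
lemma lip_generic {x : V} (hx : PP x ≠ 0) (y : V) : |u y - u x| ≤ 4 * ‖y - x‖ := by
  set v := y - x with hv
  have hfin := PP_line_finite (x := x) (v := v) ⟨0, by simpa using hx⟩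
  have hcont : Continuous fun t : ℝ => u (x + t • v) :=
    continuous_u.comp (continuous_const.add (continuous_id.smul continuous_const))
  set f' : ℝ → ℝ := fun t => inner ℝ (Svec (pa (x + t • v)) (pb (x + t • v))) v with hf'
  have hbound : ∀ t, |f' t| ≤ 4 * ‖v‖ := fun t => by
    refine (abs_real_inner_le_norm _ _).trans ?_
    exact mul_le_mul_of_nonneg_right (norm_Svec_le (abs_pa_le _) (abs_pb_le _)) (norm_nonneg _)
  have hline : Measurable fun t : ℝ => x + t • v := by fun_prop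
  have hmeas : Measurable f' := by
    have h1 : Measurable fun t : ℝ => pa (x + t • v) := measurable_pa.comp hline
    have h2 : Measurable fun t : ℝ => pb (x + t • v) := measurable_pb.comp hline
    simp only [hf', inner_Svec]
    unfold F S1 S2 S3
    fun_prop
  have hderiv : ∀ t ∈ Set.Ioo (0 : ℝ) 1 \ {t : ℝ | PP (x + t • v) = 0},
      HasDerivAt (fun t : ℝ => u (x + t • v)) (f' t) t := by
    intro t ht
    have hPP : PP (x + t • v) ≠ 0 := ht.2
    have h1 := (hasGradientAt_of_PP hPP).hasFDerivAt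
    have h2 : HasDerivAt (fun t : ℝ => x + t • v) v t := by
      have := ((hasDerivAt_id t).smul_const v).const_add x
      simpa using this
    have h3 := h1.comp_hasDerivAt t h2
    have e : (InnerProductSpace.toDual ℝ V (Svec (pa (x + t • v)) (pb (x + t • v)))) v = f' t := by
      simp [hf']
    rw [e] at h3
    exact h3
  have hint : IntervalIntegrable f' volume 0 1 := by
    rw [intervalIntegrable_iff]
    refine Measure.integrableOn_of_bounded (M := 4 * ‖v‖) ?_ hmeas.aestronglyMeasurable ?_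
    · simp
    · exact Eventually.of_forall fun t => hbound t
  have key := MeasureTheory.integral_eq_of_hasDerivAt_off_countable_of_le
    (fun t : ℝ => u (x + t • v)) f' (zero_le_one) hfin.countable hcont.continuousOn hderiv hint
  have e0 : u (x + (0 : ℝ) • v) = u x := by simp
  have e1 : u (x + (1 : ℝ) • v) = u y := by rw [hv]; simp
  simp only [e0, e1] at key
  rw [← key]
  have := intervalIntegral.norm_integral_le_of_norm_le_const (a := 0) (b := 1) (f := f')
    (C := 4 * ‖v‖) (fun t _ => hbound t)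
  simpa using this

theorem lipschitz_u : LipschitzWith 4 u := by
  have hD : Dense {x : V | PP x ≠ 0} := Measure.dense_of_ae ae_PP_ne
  have h1 : LipschitzOnWith 4 u {x : V | PP x ≠ 0} := by
    apply LipschitzOnWith.of_dist_le_mul
    intro x hx y hy
    rw [Real.dist_eq, dist_eq_norm]
    exact lip_generic hy x
  have h2 := LipschitzOnWith.closure (K := 4) continuous_u.continuousOn h1
  rw [hD.closure_eq] at h2
  exact lipschitzOnWith_univ.mp h2

lemma u_smul {c : ℝ} (hc : 0 < c) {x : V} (hx : x ≠ 0) : u (c • x) = c * u x := by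
  have hfa : ∀ a b, fa (c * x 0) (c * x 1) (c * x 2) a b = c * fa (x 0) (x 1) (x 2) a b := by
    intro a b; unfold fa; ring
  have hfb : ∀ a b, fb (c * x 0) (c * x 1) (c * x 2) a b = c * fb (x 0) (x 1) (x 2) a b := by
    intro a b; unfold fb; ring
  have hk : KKT ((c • x) 0) ((c • x) 1) ((c • x) 2) (pa x) (pb x) := by
    obtain ⟨ha, hb, h1, h2, h3, h4⟩ := kkt_spec x
    simp only [PiLp.smul_apply, smul_eq_mul]
    refine ⟨ha, hb, ?_, ?_, ?_, ?_⟩
    · intro q; rw [hfa, h1 q, mul_zero]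
    · rw [hfa]
      have : pa x * (c * fa (x 0) (x 1) (x 2) (pa x) (pb x))
        = c * (pa x * fa (x 0) (x 1) (x 2) (pa x) (pb x)) := by ring
      rw [this]; positivity
    · intro q; rw [hfb, h3 q, mul_zero]
    · rw [hfb]
      have : pb x * (c * fb (x 0) (x 1) (x 2) (pa x) (pb x))
        = c * (pb x * fb (x 0) (x 1) (x 2) (pa x) (pb x)) := by ring
      rw [this]
      exact mul_nonpos_of_nonneg_of_nonpos hc.le h4
  have hcx : c • x ≠ 0 := smul_ne_zero hc.ne' hx
  obtain ⟨g1, g2⟩ := p_unique hcx hk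
  unfold u
  rw [g1, g2]
  simp only [PiLp.smul_apply, smul_eq_mul]
  unfold F; ring

lemma u_e1 : u (vec 1 0 0) = 59 / 60 := by
  have hx : vec 1 0 0 ≠ 0 := by
    intro h
    have := congrArg (fun v : V => v 0) h
    simp [vec] at this
  have hk : KKT ((vec 1 0 0) 0) ((vec 1 0 0) 1) ((vec 1 0 0) 2) 1 0 := by
    simp only [vec_0, vec_1, vec_2]
    refine ⟨by norm_num, by norm_num, ?_, ?_, ?_, ?_⟩
    · intro q; norm_num at q
    · unfold fa; norm_num
    · intro q; unfold fb; norm_num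
    · unfold fb; norm_num
  obtain ⟨g1, g2⟩ := p_unique hx hk
  unfold u
  rw [g1, g2]
  simp [vec, F, S1, S2, S3]
  norm_num

lemma u_neg_e1 : u (vec (-1) 0 0) = 59 / 60 := by
  have hx : vec (-1) 0 0 ≠ 0 := by
    intro h
    have := congrArg (fun v : V => v 0) h
    simp [vec] at this
  have hk : KKT ((vec (-1) 0 0) 0) ((vec (-1) 0 0) 1) ((vec (-1) 0 0) 2) (-1) 0 := by
    simp only [vec_0, vec_1, vec_2]
    refine ⟨by norm_num, by norm_num, ?_, ?_, ?_, ?_⟩
    · intro q; norm_num at q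
    · unfold fa; norm_num
    · intro q; unfold fb; norm_num
    · unfold fb; norm_num
  obtain ⟨g1, g2⟩ := p_unique hx hk
  unfold u
  rw [g1, g2]
  simp [vec, F, S1, S2, S3]
  norm_num

theorem not_differentiableAt_u : ¬ DifferentiableAt ℝ u 0 := by
  intro hd
  have key : ∀ x : V, x ≠ 0 → fderiv ℝ u 0 x = u x := by
    intro x hx
    have h1 : HasDerivAt (fun t : ℝ => u (t • x)) (fderiv ℝ u 0 x) 0 := by
      have h2 : HasDerivAt (fun t : ℝ => t • x) x 0 := by
        simpa using (hasDerivAt_id (0 : ℝ)).smul_const x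
      have h3 : HasFDerivAt u (fderiv ℝ u 0) ((0 : ℝ) • x) := by
        rw [zero_smul]; exact hd.hasFDerivAt
      exact h3.comp_hasDerivAt 0 h2
    have h4 := h1.hasDerivWithinAt (s := Set.Ioi 0)
    rw [hasDerivWithinAt_iff_tendsto_slope' (by simp)] at h4
    have h5 : (slope (fun t : ℝ => u (t • x)) 0) =ᶠ[𝓝[>] (0 : ℝ)] fun _ => u x := by
      filter_upwards [self_mem_nhdsWithin] with t ht
      have ht' : (0 : ℝ) < t := ht
      rw [slope_def_field]
      simp only [zero_smul, sub_zero]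
      rw [u_smul ht' hx, u_zero, sub_zero]
      field_simp
    have h6 : Tendsto (fun _ : ℝ => u x) (𝓝[>] (0 : ℝ)) (𝓝 (fderiv ℝ u 0 x)) := h4.congr' h5
    exact tendsto_nhds_unique h6 tendsto_const_nhds
  have hx1 : vec 1 0 0 ≠ 0 := by
    intro h
    have := congrArg (fun v : V => v 0) h
    simp [vec] at this
  have hx2 : vec (-1) 0 0 ≠ 0 := by
    intro h
    have := congrArg (fun v : V => v 0) h
    simp [vec] at this
  have k1 := key _ hx1
  have k2 := key _ hx2
  have hneg : vec (-1) 0 0 = - vec 1 0 0 := by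
    ext i; fin_cases i <;> simp [vec]
  rw [u_e1] at k1
  rw [u_neg_e1, hneg, map_neg, k1] at k2
  norm_num at k2

end Pool.Agent.Lib.MP_3a7ba1_an
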