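import Mathlib

/-!
Change of variables + divergence theorem on a box.
-/

set_option autoImplicit false

namespace Pool.Agent.Lib.MP_3a7ba1_an

open MeasureTheory Set

abbrev E3 := Fin 3 → ℝ

noncomputable def toCLM (M : Matrix (Fin 3) (Fin 3) ℝ) : E3 →L[ℝ] E3 :=
  (Matrix.toLin' M).toContinuousLinearMap

lemma toCLM_single (M : Matrix (Fin 3) (Fin 3) ℝ) (i : Fin 3) :
    toCLM M (Pi.single i 1) = fun k => M k i := by
  ext k
  simp [toCLM]

lemma toCLM_det (M : Matrix (Fin 3) (Fin 3) ℝ) : (toCLM M).det = M.det := by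
  unfold toCLM
  simp [ContinuousLinearMap.det]

lemma continuous_toCLM : Continuous toCLM := by
  have : toCLM = fun M => (LinearMap.toContinuousLinearMap.toLinearMap ∘ₗ
      (Matrix.toLin' : Matrix (Fin 3) (Fin 3) ℝ ≃ₗ[ℝ] _).toLinearMap) M := by
    ext M; rfl
  rw [this]
  exact LinearMap.continuous_of_finiteDimensional _

/-- divergence of `ψ ∘ Φ` times the Piola field -/
noncomputable def fld (c : Fin 3 → E3 → ℝ) (Φ : E3 → E3) (ψ : E3 → ℝ) (i : Fin 3) (y : E3) : ℝ :=
  c i y * ψ (Φ y)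

noncomputable def fld' (c : Fin 3 → E3 → ℝ) (c' : Fin 3 → E3 → E3 →L[ℝ] ℝ) (Φ : E3 → E3)
    (M : E3 → Matrix (Fin 3) (Fin 3) ℝ) (ψ : E3 → ℝ) (i : Fin 3) (y : E3) : E3 →L[ℝ] ℝ :=
  c i y • ((fderiv ℝ ψ (Φ y)).comp (toCLM (M y))) + ψ (Φ y) • c' i y

theorem region_integral
    (Φ : E3 → E3) (M : E3 → Matrix (Fin 3) (Fin 3) ℝ) (c : Fin 3 → E3 → ℝ)
    (c' : Fin 3 → E3 → E3 →L[ℝ] ℝ) (lo hi : E3) (hle : lo ≤ hi)
    (hΦ : ∀ y, HasFDerivAt Φ (toCLM (M y)) y)
    (hc : ∀ i y, HasFDerivAt (c i) (c' i y) y)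
    (hMc : Continuous M) (hc'c : ∀ i, Continuous (c' i))
    (hdiv0 : ∀ y, ∑ i, c' i y (Pi.single i 1) = 0)
    (s : Set E3) (hs : MeasurableSet s) (hsub : s ⊆ Icc lo hi)
    (hnull : volume (Icc lo hi \ s) = 0) (hinj : InjOn Φ s) (g : E3 → E3)
    (hpiola : ∀ y ∈ s, ∀ k, ∑ i, M y k i * c i y = |(M y).det| * g (Φ y) k)
    (ψ : E3 → ℝ) (hψ : ContDiff ℝ 1 ψ) :
    IntegrableOn (fun x => ∑ k, g x k * fderiv ℝ ψ x (Pi.single k 1)) (Φ '' s) ∧
    ∫ x in Φ '' s, ∑ k, g x k * fderiv ℝ ψ x (Pi.single k 1) =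
      ∑ i : Fin 3, ((∫ x in Icc (lo ∘ i.succAbove) (hi ∘ i.succAbove),
          c i (i.insertNth (hi i) x) * ψ (Φ (i.insertNth (hi i) x))) -
        ∫ x in Icc (lo ∘ i.succAbove) (hi ∘ i.succAbove),
          c i (i.insertNth (lo i) x) * ψ (Φ (i.insertNth (lo i) x))) := by
  set D : E3 → ℝ := fun y => ∑ i, fld' c c' Φ M ψ i y (Pi.single i 1) with hD
  have hψd : ∀ x, HasFDerivAt ψ (fderiv ℝ ψ x) x := fun x =>
    (hψ.differentiable (by norm_num) x).hasFDerivAt
  have hfl : ∀ i y, HasFDerivAt (fld c Φ ψ i) (fld' c c' Φ M ψ i y) y := by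
    intro i y
    have h1 := (hψd (Φ y)).comp y (hΦ y)
    exact (hc i y).mul h1
  have hΦc : Continuous Φ := continuous_iff_continuousAt.mpr fun y => (hΦ y).continuousAt
  have hcc : ∀ i, Continuous (c i) := fun i =>
    continuous_iff_continuousAt.mpr fun y => (hc i y).continuousAt
  have hDc : Continuous D := by
    rw [hD]
    apply continuous_finsetSum
    intro i _
    unfold fld'
    have h1 : Continuous fun y => fderiv ℝ ψ (Φ y) := (hψ.continuous_fderiv (by norm_num)).comp hΦc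
    have h2 : Continuous fun y => toCLM (M y) := continuous_toCLM.comp hMc
    have h3 : Continuous fun y => ψ (Φ y) := hψ.continuous.comp hΦc
    have h4 := (((hcc i).smul (h1.clm_comp h2)).add (h3.smul (hc'c i))).clm_apply
      (continuous_const (y := (Pi.single i 1 : E3)))
    exact h4
  have hDs : ∀ y ∈ s, D y = |(toCLM (M y)).det| •
      (∑ k, g (Φ y) k * fderiv ℝ ψ (Φ y) (Pi.single k 1)) := by
    intro y hy
    have e1 : ∀ i, fderiv ℝ ψ (Φ y) (toCLM (M y) (Pi.single i 1))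
        = ∑ k, M y k i * fderiv ℝ ψ (Φ y) (Pi.single k 1) := by
      intro i
      rw [toCLM_single]
      have : (fun k => M y k i) = ∑ k, M y k i • (Pi.single k (1 : ℝ) : E3) := by
        ext j
        simp [Finset.sum_apply, Pi.single_apply]
      rw [this, map_sum]
      simp
    have e2 : D y = ∑ i, c i y * ∑ k, M y k i * fderiv ℝ ψ (Φ y) (Pi.single k 1)
        + ψ (Φ y) * ∑ i, c' i y (Pi.single i 1) := by
      simp only [hD, fld', ContinuousLinearMap.add_apply, ContinuousLinearMap.smul_apply,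
        ContinuousLinearMap.comp_apply, smul_eq_mul, e1]
      rw [Finset.sum_add_distrib, Finset.mul_sum]
    rw [e2, hdiv0, mul_zero, add_zero, toCLM_det, smul_eq_mul, Finset.mul_sum]
    simp only [Finset.mul_sum]
    rw [Finset.sum_comm]
    apply Finset.sum_congr rfl
    intro k _
    rw [← mul_assoc, ← hpiola y hy k, Finset.sum_mul]
    apply Finset.sum_congr rfl
    intro i _
    ring
  have hDI : IntegrableOn D (Icc lo hi) := hDc.continuousOn.integrableOn_compact isCompact_Icc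
  have hae : s =ᵐ[volume] Icc lo hi := by
    apply Filter.EventuallyLE.antisymm
    · exact (HasSubset.Subset.eventuallyLE hsub)
    · exact ae_le_set.mpr hnull
  constructor
  · rw [integrableOn_image_iff_integrableOn_abs_det_fderiv_smul volume hs
      (fun y _ => (hΦ y).hasFDerivWithinAt) hinj]
    have h1 : IntegrableOn D s := hDI.mono_set hsub
    exact h1.congr_fun hDs hs
  · rw [integral_image_eq_integral_abs_det_fderiv_smul volume hs
      (fun y _ => (hΦ y).hasFDerivWithinAt) hinj]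
    rw [← setIntegral_congr_fun hs hDs, setIntegral_congr_set hae]
    exact integral_divergence_of_hasFDerivAt_off_countable' lo hi hle (fld c Φ ψ)
      (fld' c c' Φ M ψ) ∅ countable_empty
      (fun i => (continuous_iff_continuousAt.mpr fun y => (hfl i y).continuousAt).continuousOn)
      (fun y _ i => hfl i y) hDI

end Pool.Agent.Lib.MP_3a7ba1_an
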