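import Mathlib
import Pool.Agent.Lib.MP_3a7ba1_an.Region
import Pool.Agent.Lib.MP_3a7ba1_an.Lip

/-!
The nine regions and their boundary terms.
-/

set_option autoImplicit false

namespace Pool.Agent.Lib.MP_3a7ba1_an

open MeasureTheory Set

lemma hp (i : Fin 3) (y : E3) : HasFDerivAt (fun y : E3 => y i)
    (ContinuousLinearMap.proj (R := ℝ) (φ := fun _ : Fin 3 => ℝ) i) y :=
  (ContinuousLinearMap.proj (R := ℝ) (φ := fun _ : Fin 3 => ℝ) i).hasFDerivAt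

/-- the linear form with given coefficients -/
noncomputable def lin (p q r : ℝ) : E3 →L[ℝ] ℝ :=
  p • ContinuousLinearMap.proj (R := ℝ) (φ := fun _ : Fin 3 => ℝ) 0
    + q • ContinuousLinearMap.proj (R := ℝ) (φ := fun _ : Fin 3 => ℝ) 1
    + r • ContinuousLinearMap.proj (R := ℝ) (φ := fun _ : Fin 3 => ℝ) 2

lemma lin_apply (p q r : ℝ) (v : E3) : lin p q r v = p * v 0 + q * v 1 + r * v 2 := by
  simp [lin]

lemma continuous_lin {p q r : E3 → ℝ} (hp : Continuous p) (hq : Continuous q)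
    (hr : Continuous r) : Continuous fun y => lin (p y) (q y) (r y) := by
  unfold lin; fun_prop

lemma insert0 (v : ℝ) (x : Fin 2 → ℝ) :
    ((0 : Fin 3).insertNth (α := fun _ => ℝ) v x) = ![v, x 0, x 1] := by
  ext i; fin_cases i <;> rfl
lemma insert1 (v : ℝ) (x : Fin 2 → ℝ) :
    ((1 : Fin 3).insertNth (α := fun _ => ℝ) v x) = ![x 0, v, x 1] := by
  ext i; fin_cases i <;> rfl
lemma insert2 (v : ℝ) (x : Fin 2 → ℝ) :
    ((2 : Fin 3).insertNth (α := fun _ => ℝ) v x) = ![x 0, x 1, v] := by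
  ext i; fin_cases i <;> rfl

lemma above0 (a b c : ℝ) : (![a, b, c] ∘ (0 : Fin 3).succAbove) = ![b, c] := by
  ext i; fin_cases i <;> rfl
lemma above1 (a b c : ℝ) : (![a, b, c] ∘ (1 : Fin 3).succAbove) = ![a, c] := by
  ext i; fin_cases i <;> rfl
lemma above2 (a b c : ℝ) : (![a, b, c] ∘ (2 : Fin 3).succAbove) = ![a, b] := by
  ext i; fin_cases i <;> rfl

lemma mem_Icc3 {y : E3} {a b c a' b' c' : ℝ} : y ∈ Icc (![a, b, c] : E3) ![a', b', c'] ↔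
    (a ≤ y 0 ∧ y 0 ≤ a') ∧ (b ≤ y 1 ∧ y 1 ≤ b') ∧ (c ≤ y 2 ∧ y 2 ≤ c') := by
  simp only [mem_Icc, Pi.le_def, Fin.forall_fin_succ]
  simp
  tauto

/-- coordinate hyperplanes are null -/
lemma volume_coord (i : Fin 3) (c : ℝ) : volume {y : E3 | y i = c} = 0 := by
  have := Measure.pi_hyperplane (fun _ : Fin 3 => (volume : Measure ℝ)) i c
  rw [volume_pi]
  exact this

/-- the weight `m'` along the edges -/
noncomputable def mp (a : ℝ) : ℝ := a + a ^ 3 / 25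

noncomputable def JA (ψ : E3 → ℝ) (R s : ℝ) : ℝ :=
  ∫ x in Icc (![-1, -R] : Fin 2 → ℝ) ![1, R],
    x 1 * mp (x 0) * ψ ![-(x 1 * x 0), -(x 1 * s), x 1 * (1 + (x 0 ^ 2 + 1) / 20)]
noncomputable def JB (ψ : E3 → ℝ) (R s : ℝ) : ℝ :=
  ∫ x in Icc (![-1, -R] : Fin 2 → ℝ) ![1, R],
    x 1 * mp (x 0) * ψ ![-(x 1 * s), -(x 1 * x 0), x 1 * (1 + (x 0 ^ 2 + 1) / 20)]
noncomputable def KC (ψ : E3 → ℝ) (R s t : ℝ) : ℝ :=
  ∫ x in Icc (![-R, 0] : Fin 2 → ℝ) ![R, R],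
    ψ ![-(x 0 * t), -(x 0 * s) - t * x 1, 11 / 10 * x 0 + s * t * x 1 / 10]
noncomputable def KD (ψ : E3 → ℝ) (R s t : ℝ) : ℝ :=
  ∫ x in Icc (![-R, 0] : Fin 2 → ℝ) ![R, R],
    ψ ![-(x 0 * t) + s * x 1, -(x 0 * s), 11 / 10 * x 0 - s * t * x 1 / 10]

def Far (ψ : E3 → ℝ) (R : ℝ) : Prop :=
  ∀ x : E3, (R / 4 ≤ |x 0| ∨ R / 4 ≤ |x 1| ∨ R / 4 ≤ |x 2|) → ψ x = 0

noncomputable def FF (g : E3 → E3) (ψ : E3 → ℝ) (x : E3) : ℝ :=
  ∑ k, g x k * fderiv ℝ ψ x (Pi.single k 1)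

/-! ### the sheet -/

noncomputable def PhiQ (y : E3) : E3 :=
  ![-(y 2 * y 1), -(y 2 * y 0), y 2 * (1 + (y 0 * y 0 + y 1 * y 1) / 20)]
noncomputable def MQ (y : E3) : Matrix (Fin 3) (Fin 3) ℝ :=
  !![0, -(y 2), -(y 1); -(y 2), 0, -(y 0);
    y 2 * y 0 / 10, y 2 * y 1 / 10, 1 + (y 0 * y 0 + y 1 * y 1) / 20]

lemma hasFDerivAt_PhiQ (y : E3) : HasFDerivAt PhiQ (toCLM (MQ y)) y := by
  rw [hasFDerivAt_pi']
  intro k
  fin_cases k
  · refine (((hp 2 y).mul (hp 1 y)).neg).congr_fderiv ?_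
    ext v
    simp [toCLM, MQ, Matrix.vecHead, Matrix.vecTail]
    ring
  · refine (((hp 2 y).mul (hp 0 y)).neg).congr_fderiv ?_
    ext v
    simp [toCLM, MQ, Matrix.vecHead, Matrix.vecTail]
    ring
  · refine (((hp 2 y).mul (((((hp 0 y).mul (hp 0 y)).add
      ((hp 1 y).mul (hp 1 y))).mul_const (20⁻¹ : ℝ)).const_add 1))).congr_fderiv ?_
    ext v
    simp [toCLM, MQ, Matrix.vecHead, Matrix.vecTail]
    ring

noncomputable def cQ : Fin 3 → E3 → ℝ :=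
  ![fun y => -(y 2 * (3 * y 1 - 2 * y 0 ^ 2 * y 1 + y 1 ^ 3 / 25)),
    fun y => -(y 2 * (3 * y 0 - 2 * y 1 ^ 2 * y 0 + y 0 ^ 3 / 25)),
    fun y => y 2 ^ 2 * (-4 * y 0 * y 1)]
noncomputable def cQ' : Fin 3 → E3 → E3 →L[ℝ] ℝ :=
  ![fun y => lin (4 * y 2 * y 0 * y 1) (-(y 2 * (3 - 2 * y 0 ^ 2 + 3 * y 1 ^ 2 / 25)))
      (-(3 * y 1 - 2 * y 0 ^ 2 * y 1 + y 1 ^ 3 / 25)),
    fun y => lin (-(y 2 * (3 - 2 * y 1 ^ 2 + 3 * y 0 ^ 2 / 25))) (4 * y 2 * y 0 * y 1)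
      (-(3 * y 0 - 2 * y 1 ^ 2 * y 0 + y 0 ^ 3 / 25)),
    fun y => lin (-4 * y 2 ^ 2 * y 1) (-4 * y 2 ^ 2 * y 0) (-8 * y 2 * y 0 * y 1)]

lemma hasFDerivAt_cQ (i : Fin 3) (y : E3) : HasFDerivAt (cQ i) (cQ' i y) y := by
  fin_cases i
  · refine (((hp 2 y).mul ((((hp 1 y).const_mul 3).sub
      ((((hp 0 y).pow 2).const_mul 2).mul (hp 1 y))).add
      (((hp 1 y).pow 3).mul_const (25⁻¹ : ℝ)))).neg).congr_fderiv ?_
    ext v
    simp [cQ', lin_apply]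
    ring
  · refine (((hp 2 y).mul ((((hp 0 y).const_mul 3).sub
      ((((hp 1 y).pow 2).const_mul 2).mul (hp 0 y))).add
      (((hp 0 y).pow 3).mul_const (25⁻¹ : ℝ)))).neg).congr_fderiv ?_
    ext v
    simp [cQ', lin_apply]
    ring
  · refine (((hp 2 y).pow 2).mul (((hp 0 y).const_mul (-4)).mul (hp 1 y))).congr_fderiv ?_
    ext v
    simp [cQ', lin_apply]
    ring

noncomputable def sQ (R : ℝ) : Set E3 :=
  {y | (-1 < y 0 ∧ y 0 < 1) ∧ (-1 < y 1 ∧ y 1 < 1) ∧ (-R < y 2 ∧ y 2 < R) ∧ y 2 ≠ 0}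

lemma det_MQ (y : E3) : (MQ y).det = -(y 2 ^ 2 * dl (y 0) (y 1)) := by
  rw [MQ, Matrix.det_fin_three]
  simp [dl]
  ring

lemma null_aux (s : Set E3) (a b c a' b' c' d : ℝ)
    (h : ∀ y : E3, (a < y 0 ∧ y 0 < a') → (b < y 1 ∧ y 1 < b') → (c < y 2 ∧ y 2 < c') →
      y 2 ≠ d → y ∈ s) :
    volume (Icc (![a, b, c] : E3) ![a', b', c'] \ s) = 0 := by
  refine measure_mono_null (t := {y : E3 | y 0 = a} ∪ {y : E3 | y 0 = a'} ∪ {y : E3 | y 1 = b} ∪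
    {y : E3 | y 1 = b'} ∪ {y : E3 | y 2 = c} ∪ {y : E3 | y 2 = c'} ∪ {y : E3 | y 2 = d}) ?_ ?_
  · intro y hy
    obtain ⟨hy1, hy2⟩ := hy
    rw [mem_Icc3] at hy1
    obtain ⟨⟨h1, h2⟩, ⟨h3, h4⟩, ⟨h5, h6⟩⟩ := hy1
    by_contra hcon
    simp only [mem_union, mem_ofPred_eq, not_or] at hcon
    obtain ⟨⟨⟨⟨⟨⟨c1, c2⟩, c3⟩, c4⟩, c5⟩, c6⟩, c7⟩ := hcon
    exact hy2 (h y ⟨lt_of_le_of_ne h1 (Ne.symm c1), lt_of_le_of_ne h2 c2⟩
      ⟨lt_of_le_of_ne h3 (Ne.symm c3), lt_of_le_of_ne h4 c4⟩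
      ⟨lt_of_le_of_ne h5 (Ne.symm c5), lt_of_le_of_ne h6 c6⟩ c7)
  · simp only [measure_union_null_iff]
    exact ⟨⟨⟨⟨⟨⟨volume_coord _ _, volume_coord _ _⟩, volume_coord _ _⟩, volume_coord _ _⟩,
      volume_coord _ _⟩, volume_coord _ _⟩, volume_coord _ _⟩

lemma continuous_matrix3 {M : E3 → Matrix (Fin 3) (Fin 3) ℝ}
    (h : ∀ i j, Continuous fun y => M y i j) : Continuous M :=
  continuous_matrix h

lemma meas_between (i : Fin 3) (a b : ℝ) : MeasurableSet {y : E3 | a < y i ∧ y i < b} :=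
  (measurableSet_lt measurable_const (measurable_pi_apply i)).inter
    (measurableSet_lt (measurable_pi_apply i) measurable_const)

lemma one_le_abs (p q : ℝ) : 1 ≤ |1 + (p * p + q * q) / 20| := by
  rw [abs_of_nonneg (by have := mul_self_nonneg p; have := mul_self_nonneg q; positivity)]
  have := mul_self_nonneg p
  have := mul_self_nonneg q
  linarith

theorem intQ (g : E3 → E3) (ψ : E3 → ℝ) (hψ : ContDiff ℝ 1 ψ) (R : ℝ) (hR : 0 < R)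
    (hfar : Far ψ R) (hinj : InjOn PhiQ (sQ R))
    (hg : ∀ y ∈ sQ R, g (PhiQ y) = ![GQ1 (y 0) (y 1), GQ2 (y 0) (y 1), GQ3 (y 0) (y 1)]) :
    IntegrableOn (FF g ψ) (PhiQ '' sQ R) ∧
    ∫ x in PhiQ '' sQ R, FF g ψ x = -JA ψ R 1 + JA ψ R (-1) - JB ψ R 1 + JB ψ R (-1) := by
  have hMc : Continuous MQ := by
    apply continuous_matrix3
    intro i j
    fin_cases i <;> fin_cases j <;> simp [MQ] <;> fun_prop
  have hc'c : ∀ i, Continuous (cQ' i) := by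
    intro i
    fin_cases i <;> simp only [cQ', Fin.zero_eta, Fin.mk_one, Fin.reduceFinMk,
      Matrix.cons_val_zero, Matrix.cons_val_one, Matrix.cons_val] <;>
      apply continuous_lin <;> fun_prop
  have hdiv : ∀ y, ∑ i, cQ' i y (Pi.single i 1) = 0 := by
    intro y
    rw [Fin.sum_univ_three]
    simp [cQ', lin_apply]
    ring
  have hs : MeasurableSet (sQ R) := by
    unfold sQ
    exact (meas_between 0 _ _).inter ((meas_between 1 _ _).inter ((meas_between 2 _ _).inter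
      (measurableSet_eq_fun (measurable_pi_apply 2) measurable_const).compl))
  have hsub : sQ R ⊆ Icc (![-1, -1, -R] : E3) ![1, 1, R] := by
    intro y hy
    obtain ⟨⟨h1, h2⟩, ⟨h3, h4⟩, ⟨h5, h6⟩, _⟩ := hy
    rw [mem_Icc3]
    exact ⟨⟨h1.le, h2.le⟩, ⟨h3.le, h4.le⟩, ⟨h5.le, h6.le⟩⟩
  have hle : (![-1, -1, -R] : E3) ≤ ![1, 1, R] := by
    intro i; fin_cases i <;> simp <;> linarith
  have hpiola : ∀ y ∈ sQ R, ∀ k, ∑ i, MQ y k i * cQ i y = |(MQ y).det| * g (PhiQ y) k := by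
    intro y hy k
    rw [hg y hy, det_MQ]
    obtain ⟨⟨h1, h2⟩, ⟨h3, h4⟩, ⟨h5, h6⟩, h7⟩ := hy
    have hd : 0 < dl (y 0) (y 1) := dl_pos (abs_le.mpr ⟨h1.le, h2.le⟩) (abs_le.mpr ⟨h3.le, h4.le⟩)
    have habs : |-(y 2 ^ 2 * dl (y 0) (y 1))| = y 2 ^ 2 * dl (y 0) (y 1) := by
      rw [abs_neg, abs_of_nonneg (by positivity)]
    rw [habs, Fin.sum_univ_three]
    have hd' : dl (y 0) (y 1) ≠ 0 := hd.ne'
    fin_cases k
    · simp only [MQ, cQ, GQ1]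
      simp
      field_simp
      ring
    · simp only [MQ, cQ, GQ2]
      simp
      field_simp
      ring
    · simp only [MQ, cQ, GQ3, GQ1, GQ2]
      simp
      field_simp
      unfold dl
      ring
  have key := region_integral PhiQ MQ cQ cQ' ![-1, -1, -R] ![1, 1, R] hle hasFDerivAt_PhiQ
    hasFDerivAt_cQ hMc hc'c hdiv (sQ R) hs hsub
    (null_aux _ _ _ _ _ _ _ 0 (fun y h1 h2 h3 h4 => ⟨h1, h2, h3, h4⟩)) hinj g hpiola ψ hψ
  refine ⟨key.1, ?_⟩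
  have h2 := key.2
  have e0 : ∫ x in PhiQ '' sQ R, FF g ψ x
      = ∫ x in PhiQ '' sQ R, ∑ k, g x k * fderiv ℝ ψ x (Pi.single k 1) := rfl
  rw [e0, h2, Fin.sum_univ_three]
  simp only [insert0, insert1, insert2, above0, above1, above2]
  -- the far faces
  have z1 : ∫ x in Icc (![-1, -1] : Fin 2 → ℝ) ![1, 1],
      cQ 2 ![x 0, x 1, (![1, 1, R] : E3) 2] * ψ (PhiQ ![x 0, x 1, (![1, 1, R] : E3) 2]) = 0 := by
    apply setIntegral_eq_zero_of_forall_eq_zero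
    intro x _
    rw [hfar _ (Or.inr (Or.inr ?_)), mul_zero]
    simp only [PhiQ]
    simp
    rw [abs_of_pos hR]
    nlinarith [one_le_abs (x 0) (x 1)]
  have z2 : ∫ x in Icc (![-1, -1] : Fin 2 → ℝ) ![1, 1],
      cQ 2 ![x 0, x 1, (![-1, -1, -R] : E3) 2] * ψ (PhiQ ![x 0, x 1, (![-1, -1, -R] : E3) 2])
        = 0 := by
    apply setIntegral_eq_zero_of_forall_eq_zero
    intro x _
    rw [hfar _ (Or.inr (Or.inr ?_)), mul_zero]
    simp only [PhiQ]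
    simp
    rw [abs_of_pos hR]
    nlinarith [one_le_abs (x 0) (x 1)]
  rw [z1, z2]
  have f1 : ∫ x in Icc (![-1, -R] : Fin 2 → ℝ) ![1, R],
      cQ 0 ![(![1, 1, R] : E3) 0, x 0, x 1] * ψ (PhiQ ![(![1, 1, R] : E3) 0, x 0, x 1])
        = - JA ψ R 1 := by
    unfold JA
    rw [← integral_neg]
    congr 1
    ext x
    simp only [PhiQ, cQ, mp]
    simp
    ring_nf
  have f2 : ∫ x in Icc (![-1, -R] : Fin 2 → ℝ) ![1, R],
      cQ 0 ![(![-1, -1, -R] : E3) 0, x 0, x 1] * ψ (PhiQ ![(![-1, -1, -R] : E3) 0, x 0, x 1])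
        = - JA ψ R (-1) := by
    unfold JA
    rw [← integral_neg]
    congr 1
    ext x
    simp only [PhiQ, cQ, mp]
    simp
    ring_nf
  have f3 : ∫ x in Icc (![-1, -R] : Fin 2 → ℝ) ![1, R],
      cQ 1 ![x 0, (![1, 1, R] : E3) 1, x 1] * ψ (PhiQ ![x 0, (![1, 1, R] : E3) 1, x 1])
        = - JB ψ R 1 := by
    unfold JB
    rw [← integral_neg]
    congr 1
    ext x
    simp only [PhiQ, cQ, mp]
    simp
    ring_nf
  have f4 : ∫ x in Icc (![-1, -R] : Fin 2 → ℝ) ![1, R],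
      cQ 1 ![x 0, (![-1, -1, -R] : E3) 1, x 1] * ψ (PhiQ ![x 0, (![-1, -1, -R] : E3) 1, x 1])
        = - JB ψ R (-1) := by
    unfold JB
    rw [← integral_neg]
    congr 1
    ext x
    simp only [PhiQ, cQ, mp]
    simp
    ring_nf
  rw [f1, f2, f3, f4]
  ring

end Pool.Agent.Lib.MP_3a7ba1_an
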