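import Mathlib
import Pool.Agent.Lib.MP_3a7ba1_an.Regions

/-!
The fans over the edges `b = s`, `a = s`, and the lunes at the vertices.
-/

set_option autoImplicit false

namespace Pool.Agent.Lib.MP_3a7ba1_an

open MeasureTheory Set

/-- open box `(-1,1) × (-R,R) × (0,R)` -/
noncomputable def sF (R : ℝ) : Set E3 :=
  {y | (-1 < y 0 ∧ y 0 < 1) ∧ (-R < y 1 ∧ y 1 < R) ∧ (0 < y 2 ∧ y 2 < R)}

lemma meas_sF (R : ℝ) : MeasurableSet (sF R) :=
  (meas_between 0 _ _).inter ((meas_between 1 _ _).inter (meas_between 2 _ _))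

lemma sF_sub (R : ℝ) : sF R ⊆ Icc (![-1, -R, 0] : E3) ![1, R, R] := by
  intro y hy
  obtain ⟨⟨h1, h2⟩, ⟨h3, h4⟩, ⟨h5, h6⟩⟩ := hy
  rw [mem_Icc3]
  exact ⟨⟨h1.le, h2.le⟩, ⟨h3.le, h4.le⟩, ⟨h5.le, h6.le⟩⟩

lemma sF_null (R : ℝ) : volume (Icc (![-1, -R, 0] : E3) ![1, R, R] \ sF R) = 0 :=
  null_aux _ _ _ _ _ _ _ 0 (fun y h1 h2 h3 _ => ⟨h1, h2, h3⟩)

lemma box_le {R : ℝ} (hR : 0 < R) : (![-1, -R, 0] : E3) ≤ ![1, R, R] := by
  intro i; fin_cases i <;> simp <;> linarith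

/-! ### fan over the edge `b = s` : `y = (a, λ, τ)` -/

noncomputable def PhiB (s : ℝ) (y : E3) : E3 :=
  ![-(y 1 * s), -(y 1 * y 0) - s * y 2,
    y 1 * (1 + (y 0 * y 0 + 1) / 20) + s * (y 2 * y 0) / 10]
noncomputable def MB (s : ℝ) (y : E3) : Matrix (Fin 3) (Fin 3) ℝ :=
  !![0, -s, 0; -(y 1), -(y 0), -s;
    y 1 * y 0 / 10 + s * y 2 / 10, 1 + (y 0 * y 0 + 1) / 20, s * y 0 / 10]

lemma hasFDerivAt_PhiB (s : ℝ) (y : E3) : HasFDerivAt (PhiB s) (toCLM (MB s y)) y := by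
  rw [hasFDerivAt_pi']
  intro k
  fin_cases k
  · refine (((hp 1 y).mul_const s).neg).congr_fderiv ?_
    ext v
    simp [toCLM, MB, Matrix.vecHead, Matrix.vecTail]
  · refine ((((hp 1 y).mul (hp 0 y)).neg).sub ((hp 2 y).const_mul s)).congr_fderiv ?_
    ext v
    simp [toCLM, MB, Matrix.vecHead, Matrix.vecTail]
    ring
  · refine (((hp 1 y).mul (((((hp 0 y).mul (hp 0 y)).add_const 1).mul_const
      (20⁻¹ : ℝ)).const_add 1)).add
      ((((hp 2 y).mul (hp 0 y)).const_mul s).mul_const (10⁻¹ : ℝ))).congr_fderiv ?_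
    ext v
    simp [toCLM, MB, Matrix.vecHead, Matrix.vecTail]
    ring

noncomputable def cB (s : ℝ) : Fin 3 → E3 → ℝ :=
  ![fun y => y 0 + y 0 ^ 3 / 25,
    fun y => s * (y 2 * (6 / 25 * y 0)),
    fun y => -(y 2 * (1 + 3 / 25 * y 0 ^ 2) + s * (y 1 * (y 0 + y 0 ^ 3 / 25)))]
noncomputable def cB' (s : ℝ) : Fin 3 → E3 → E3 →L[ℝ] ℝ :=
  ![fun y => lin (1 + 3 / 25 * y 0 ^ 2) 0 0,
    fun y => lin (s * (y 2 * (6 / 25))) 0 (s * (6 / 25 * y 0)),
    fun y => lin (-(y 2 * (6 / 25 * y 0) + s * (y 1 * (1 + 3 / 25 * y 0 ^ 2))))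
      (-(s * (y 0 + y 0 ^ 3 / 25))) (-(1 + 3 / 25 * y 0 ^ 2))]

lemma hasFDerivAt_cB (s : ℝ) (i : Fin 3) (y : E3) : HasFDerivAt (cB s i) (cB' s i y) y := by
  fin_cases i
  · refine ((hp 0 y).add (((hp 0 y).pow 3).mul_const (25⁻¹ : ℝ))).congr_fderiv ?_
    ext v
    simp [cB', lin_apply]
    ring
  · refine (((hp 2 y).mul ((hp 0 y).const_mul (6 / 25))).const_mul s).congr_fderiv ?_
    ext v
    simp [cB', lin_apply]
    ring
  · refine ((((hp 2 y).mul ((((hp 0 y).pow 2).const_mul (3 / 25)).const_add 1)).add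
      (((hp 1 y).mul ((hp 0 y).add (((hp 0 y).pow 3).mul_const (25⁻¹ : ℝ)))).const_mul
        s)).neg).congr_fderiv ?_
    ext v
    simp [cB', lin_apply]
    ring

lemma det_MB (s : ℝ) (hs : s ^ 2 = 1) (y : E3) : (MB s y).det = s * y 2 / 10 := by
  rw [MB, Matrix.det_fin_three]
  simp
  linear_combination (s * y 2 / 10) * hs

lemma abs_s {s : ℝ} (hs : s ^ 2 = 1) : |s| = 1 := by
  rw [← sq_abs] at hs
  have h := abs_nonneg s
  nlinarith

theorem intB (s : ℝ) (hs2 : s ^ 2 = 1) (g : E3 → E3) (ψ : E3 → ℝ) (hψ : ContDiff ℝ 1 ψ) (R : ℝ)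
    (hR : 0 < R) (hfar : Far ψ R) (hinj : InjOn (PhiB s) (sF R))
    (hg : ∀ y ∈ sF R, g (PhiB s y) = ![GE1 (y 0), s * GE2 (y 0), s * GE3 (y 0)]) :
    IntegrableOn (FF g ψ) (PhiB s '' sF R) ∧
    ∫ x in PhiB s '' sF R, FF g ψ x = s * JB ψ R s + 26 / 25 * (KC ψ R 1 s + KC ψ R (-1) s) := by
  have hMc : Continuous (MB s) := by
    apply continuous_matrix3
    intro i j
    fin_cases i <;> fin_cases j <;> simp [MB] <;> fun_prop
  have hc'c : ∀ i, Continuous (cB' s i) := by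
    intro i
    fin_cases i <;> simp only [cB', Fin.zero_eta, Fin.mk_one, Fin.reduceFinMk,
      Matrix.cons_val_zero, Matrix.cons_val_one, Matrix.cons_val] <;>
      apply continuous_lin <;> fun_prop
  have hdiv : ∀ y, ∑ i, cB' s i y (Pi.single i 1) = 0 := by
    intro y
    rw [Fin.sum_univ_three]
    simp [cB', lin_apply]
  have hpiola : ∀ y ∈ sF R, ∀ k,
      ∑ i, MB s y k i * cB s i y = |(MB s y).det| * g (PhiB s y) k := by
    intro y hy k
    rw [hg y hy, det_MB s hs2]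
    obtain ⟨⟨h1, h2⟩, ⟨h3, h4⟩, ⟨h5, h6⟩⟩ := hy
    have habs : |s * y 2 / 10| = y 2 / 10 := by
      rw [abs_div, abs_mul, abs_s hs2, abs_of_pos h5]; norm_num
    rw [habs, Fin.sum_univ_three]
    fin_cases k
    · simp only [MB, cB, GE1]
      simp
      linear_combination (-(y 2 * (6 / 25 * y 0))) * hs2
    · simp only [MB, cB, GE2]
      simp
      linear_combination (y 1 * (y 0 + y 0 ^ 3 / 25)) * hs2
    · simp only [MB, cB, GE3]
      simp
      linear_combination (-(y 0 * y 1 * (y 0 + y 0 ^ 3 / 25) / 10)) * hs2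
  have key := region_integral (PhiB s) (MB s) (cB s) (cB' s) ![-1, -R, 0] ![1, R, R] (box_le hR)
    (hasFDerivAt_PhiB s) (hasFDerivAt_cB s) hMc hc'c hdiv (sF R) (meas_sF R) (sF_sub R)
    (sF_null R) hinj g hpiola ψ hψ
  refine ⟨key.1, ?_⟩
  have h2 := key.2
  have e0 : ∫ x in PhiB s '' sF R, FF g ψ x
      = ∫ x in PhiB s '' sF R, ∑ k, g x k * fderiv ℝ ψ x (Pi.single k 1) := rfl
  rw [e0, h2, Fin.sum_univ_three]
  simp only [insert0, insert1, insert2, above0, above1, above2]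
  -- the far faces
  have z1 : ∫ x in Icc (![-1, 0] : Fin 2 → ℝ) ![1, R],
      cB s 1 ![x 0, (![1, R, R] : E3) 1, x 1] * ψ (PhiB s ![x 0, (![1, R, R] : E3) 1, x 1]) = 0 := by
    apply setIntegral_eq_zero_of_forall_eq_zero
    intro x _
    rw [hfar _ (Or.inl ?_), mul_zero]
    simp only [PhiB]
    simp
    rw [abs_s hs2, abs_of_pos hR]
    linarith
  have z2 : ∫ x in Icc (![-1, 0] : Fin 2 → ℝ) ![1, R],
      cB s 1 ![x 0, (![-1, -R, 0] : E3) 1, x 1] * ψ (PhiB s ![x 0, (![-1, -R, 0] : E3) 1, x 1])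
        = 0 := by
    apply setIntegral_eq_zero_of_forall_eq_zero
    intro x _
    rw [hfar _ (Or.inl ?_), mul_zero]
    simp only [PhiB]
    simp
    rw [abs_s hs2, abs_of_pos hR]
    linarith
  have z3 : ∫ x in Icc (![-1, -R] : Fin 2 → ℝ) ![1, R],
      cB s 2 ![x 0, x 1, (![1, R, R] : E3) 2] * ψ (PhiB s ![x 0, x 1, (![1, R, R] : E3) 2]) = 0 := by
    apply setIntegral_eq_zero_of_forall_eq_zero
    intro x hx
    have hx0 : |x 0| ≤ 1 := by
      rw [abs_le]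
      have h1 := hx.1 0
      have h2 := hx.2 0
      simp at h1 h2
      exact ⟨h1, h2⟩
    have hcase : R / 4 ≤ |x 1| ∨ R / 4 ≤ |-(x 1 * x 0) - s * R| := by
      by_contra hcon
      push Not at hcon
      obtain ⟨c1, c2⟩ := hcon
      have c3 : |x 1 * x 0| ≤ |x 1| := by
        rw [abs_mul]; exact mul_le_of_le_one_right (abs_nonneg _) hx0
      have c4 : R = |s * R| := by rw [abs_mul, abs_s hs2, abs_of_pos hR, one_mul]
      have c5 : |s * R| ≤ |-(x 1 * x 0) - s * R| + |x 1 * x 0| := by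
        have : s * R = -(-(x 1 * x 0) - s * R) + (-(x 1 * x 0)) := by ring
        calc |s * R| = |-(-(x 1 * x 0) - s * R) + (-(x 1 * x 0))| := by rw [← this]
          _ ≤ |-(-(x 1 * x 0) - s * R)| + |-(x 1 * x 0)| := abs_add_le _ _
          _ = _ := by rw [abs_neg, abs_neg]
      linarith
    rw [hfar _ ?_, mul_zero]
    rcases hcase with h | h
    · left
      simp only [PhiB]
      simp
      rw [abs_s hs2, mul_one]
      exact h
    · right; left
      simp only [PhiB]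
      simp
      exact h
  rw [z1, z2, z3]
  have f1 : ∫ x in Icc (![-R, 0] : Fin 2 → ℝ) ![R, R],
      cB s 0 ![(![1, R, R] : E3) 0, x 0, x 1] * ψ (PhiB s ![(![1, R, R] : E3) 0, x 0, x 1])
        = 26 / 25 * KC ψ R 1 s := by
    unfold KC
    rw [← integral_const_mul]
    congr 1
    ext x
    simp only [PhiB, cB]
    simp
    ring_nf
  have f2 : ∫ x in Icc (![-R, 0] : Fin 2 → ℝ) ![R, R],
      cB s 0 ![(![-1, -R, 0] : E3) 0, x 0, x 1] * ψ (PhiB s ![(![-1, -R, 0] : E3) 0, x 0, x 1])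
        = -(26 / 25 * KC ψ R (-1) s) := by
    unfold KC
    rw [← integral_const_mul, ← integral_neg]
    congr 1
    ext x
    simp only [PhiB, cB]
    simp
    ring_nf
  have f3 : ∫ x in Icc (![-1, -R] : Fin 2 → ℝ) ![1, R],
      cB s 2 ![x 0, x 1, (![-1, -R, 0] : E3) 2] * ψ (PhiB s ![x 0, x 1, (![-1, -R, 0] : E3) 2])
        = -(s * JB ψ R s) := by
    unfold JB
    rw [← integral_const_mul, ← integral_neg]
    congr 1
    ext x
    simp only [PhiB, cB, mp]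
    simp
    ring_nf
  rw [f1, f2, f3]
  ring

/-! ### fan over the edge `a = s` : `y = (b, λ, τ)` -/

noncomputable def PhiA (s : ℝ) (y : E3) : E3 :=
  ![-(y 1 * y 0) + s * y 2, -(y 1 * s),
    y 1 * (1 + (y 0 * y 0 + 1) / 20) - s * (y 2 * y 0) / 10]
noncomputable def MA (s : ℝ) (y : E3) : Matrix (Fin 3) (Fin 3) ℝ :=
  !![-(y 1), -(y 0), s; 0, -s, 0;
    y 1 * y 0 / 10 - s * y 2 / 10, 1 + (y 0 * y 0 + 1) / 20, -(s * y 0 / 10)]

lemma hasFDerivAt_PhiA (s : ℝ) (y : E3) : HasFDerivAt (PhiA s) (toCLM (MA s y)) y := by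
  rw [hasFDerivAt_pi']
  intro k
  fin_cases k
  · refine ((((hp 1 y).mul (hp 0 y)).neg).add ((hp 2 y).const_mul s)).congr_fderiv ?_
    ext v
    simp [toCLM, MA, Matrix.vecHead, Matrix.vecTail]
    ring
  · refine (((hp 1 y).mul_const s).neg).congr_fderiv ?_
    ext v
    simp [toCLM, MA, Matrix.vecHead, Matrix.vecTail]
  · refine (((hp 1 y).mul (((((hp 0 y).mul (hp 0 y)).add_const 1).mul_const
      (20⁻¹ : ℝ)).const_add 1)).sub
      ((((hp 2 y).mul (hp 0 y)).const_mul s).mul_const (10⁻¹ : ℝ))).congr_fderiv ?_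
    ext v
    simp [toCLM, MA, Matrix.vecHead, Matrix.vecTail]
    ring

noncomputable def cA (s : ℝ) : Fin 3 → E3 → ℝ :=
  ![fun y => -(y 0 + y 0 ^ 3 / 25),
    fun y => s * (y 2 * (6 / 25 * y 0)),
    fun y => y 2 * (1 + 3 / 25 * y 0 ^ 2) - s * (y 1 * (y 0 + y 0 ^ 3 / 25))]
noncomputable def cA' (s : ℝ) : Fin 3 → E3 → E3 →L[ℝ] ℝ :=
  ![fun y => lin (-(1 + 3 / 25 * y 0 ^ 2)) 0 0,
    fun y => lin (s * (y 2 * (6 / 25))) 0 (s * (6 / 25 * y 0)),
    fun y => lin (y 2 * (6 / 25 * y 0) - s * (y 1 * (1 + 3 / 25 * y 0 ^ 2)))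
      (-(s * (y 0 + y 0 ^ 3 / 25))) (1 + 3 / 25 * y 0 ^ 2)]

lemma hasFDerivAt_cA (s : ℝ) (i : Fin 3) (y : E3) : HasFDerivAt (cA s i) (cA' s i y) y := by
  fin_cases i
  · refine (((hp 0 y).add (((hp 0 y).pow 3).mul_const (25⁻¹ : ℝ))).neg).congr_fderiv ?_
    ext v
    simp [cA', lin_apply]
    ring
  · refine (((hp 2 y).mul ((hp 0 y).const_mul (6 / 25))).const_mul s).congr_fderiv ?_
    ext v
    simp [cA', lin_apply]
    ring
  · refine ((((hp 2 y).mul ((((hp 0 y).pow 2).const_mul (3 / 25)).const_add 1)).sub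
      (((hp 1 y).mul ((hp 0 y).add (((hp 0 y).pow 3).mul_const (25⁻¹ : ℝ)))).const_mul
        s))).congr_fderiv ?_
    ext v
    simp [cA', lin_apply]
    ring

lemma det_MA (s : ℝ) (hs : s ^ 2 = 1) (y : E3) : (MA s y).det = -(s * y 2 / 10) := by
  rw [MA, Matrix.det_fin_three]
  simp
  linear_combination (-(s * y 2 / 10)) * hs

theorem intA (s : ℝ) (hs2 : s ^ 2 = 1) (g : E3 → E3) (ψ : E3 → ℝ) (hψ : ContDiff ℝ 1 ψ) (R : ℝ)
    (hR : 0 < R) (hfar : Far ψ R) (hinj : InjOn (PhiA s) (sF R))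
    (hg : ∀ y ∈ sF R, g (PhiA s y) = ![s * GE2 (y 0), GE1 (y 0), s * GE3 (y 0)]) :
    IntegrableOn (FF g ψ) (PhiA s '' sF R) ∧
    ∫ x in PhiA s '' sF R, FF g ψ x = s * JA ψ R s - 26 / 25 * (KD ψ R s 1 + KD ψ R s (-1)) := by
  have hMc : Continuous (MA s) := by
    apply continuous_matrix3
    intro i j
    fin_cases i <;> fin_cases j <;> simp [MA] <;> fun_prop
  have hc'c : ∀ i, Continuous (cA' s i) := by
    intro i
    fin_cases i <;> simp only [cA', Fin.zero_eta, Fin.mk_one, Fin.reduceFinMk,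
      Matrix.cons_val_zero, Matrix.cons_val_one, Matrix.cons_val] <;>
      apply continuous_lin <;> fun_prop
  have hdiv : ∀ y, ∑ i, cA' s i y (Pi.single i 1) = 0 := by
    intro y
    rw [Fin.sum_univ_three]
    simp [cA', lin_apply]
  have hpiola : ∀ y ∈ sF R, ∀ k,
      ∑ i, MA s y k i * cA s i y = |(MA s y).det| * g (PhiA s y) k := by
    intro y hy k
    rw [hg y hy, det_MA s hs2]
    obtain ⟨⟨h1, h2⟩, ⟨h3, h4⟩, ⟨h5, h6⟩⟩ := hy
    have habs : |-(s * y 2 / 10)| = y 2 / 10 := by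
      rw [abs_neg, abs_div, abs_mul, abs_s hs2, abs_of_pos h5]; norm_num
    rw [habs, Fin.sum_univ_three]
    fin_cases k
    · simp only [MA, cA, GE2]
      simp
      linear_combination (-(y 1 * (y 0 + y 0 ^ 3 / 25))) * hs2
    · simp only [MA, cA, GE1]
      simp
      linear_combination (-(y 2 * (6 / 25 * y 0))) * hs2
    · simp only [MA, cA, GE3]
      simp
      linear_combination (y 0 * y 1 * (y 0 + y 0 ^ 3 / 25) / 10) * hs2
  have key := region_integral (PhiA s) (MA s) (cA s) (cA' s) ![-1, -R, 0] ![1, R, R] (box_le hR)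
    (hasFDerivAt_PhiA s) (hasFDerivAt_cA s) hMc hc'c hdiv (sF R) (meas_sF R) (sF_sub R)
    (sF_null R) hinj g hpiola ψ hψ
  refine ⟨key.1, ?_⟩
  have h2 := key.2
  have e0 : ∫ x in PhiA s '' sF R, FF g ψ x
      = ∫ x in PhiA s '' sF R, ∑ k, g x k * fderiv ℝ ψ x (Pi.single k 1) := rfl
  rw [e0, h2, Fin.sum_univ_three]
  simp only [insert0, insert1, insert2, above0, above1, above2]
  -- the far faces
  have z1 : ∫ x in Icc (![-1, 0] : Fin 2 → ℝ) ![1, R],
      cA s 1 ![x 0, (![1, R, R] : E3) 1, x 1] * ψ (PhiA s ![x 0, (![1, R, R] : E3) 1, x 1]) = 0 := by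
    apply setIntegral_eq_zero_of_forall_eq_zero
    intro x _
    rw [hfar _ (Or.inr (Or.inl ?_)), mul_zero]
    simp only [PhiA]
    simp
    rw [abs_s hs2, abs_of_pos hR]
    linarith
  have z2 : ∫ x in Icc (![-1, 0] : Fin 2 → ℝ) ![1, R],
      cA s 1 ![x 0, (![-1, -R, 0] : E3) 1, x 1] * ψ (PhiA s ![x 0, (![-1, -R, 0] : E3) 1, x 1])
        = 0 := by
    apply setIntegral_eq_zero_of_forall_eq_zero
    intro x _
    rw [hfar _ (Or.inr (Or.inl ?_)), mul_zero]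
    simp only [PhiA]
    simp
    rw [abs_s hs2, abs_of_pos hR]
    linarith
  have z3 : ∫ x in Icc (![-1, -R] : Fin 2 → ℝ) ![1, R],
      cA s 2 ![x 0, x 1, (![1, R, R] : E3) 2] * ψ (PhiA s ![x 0, x 1, (![1, R, R] : E3) 2]) = 0 := by
    apply setIntegral_eq_zero_of_forall_eq_zero
    intro x hx
    have hx0 : |x 0| ≤ 1 := by
      rw [abs_le]
      have h1 := hx.1 0
      have h2 := hx.2 0
      simp at h1 h2
      exact ⟨h1, h2⟩
    have hcase : R / 4 ≤ |x 1| ∨ R / 4 ≤ |-(x 1 * x 0) + s * R| := by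
      by_contra hcon
      push Not at hcon
      obtain ⟨c1, c2⟩ := hcon
      have c3 : |x 1 * x 0| ≤ |x 1| := by
        rw [abs_mul]; exact mul_le_of_le_one_right (abs_nonneg _) hx0
      have c4 : R = |s * R| := by rw [abs_mul, abs_s hs2, abs_of_pos hR, one_mul]
      have c5 : |s * R| ≤ |-(x 1 * x 0) + s * R| + |x 1 * x 0| := by
        have : s * R = (-(x 1 * x 0) + s * R) + (x 1 * x 0) := by ring
        calc |s * R| = |(-(x 1 * x 0) + s * R) + (x 1 * x 0)| := by rw [← this]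
          _ ≤ |(-(x 1 * x 0) + s * R)| + |x 1 * x 0| := abs_add_le _ _
      linarith
    rw [hfar _ ?_, mul_zero]
    rcases hcase with h | h
    · right; left
      simp only [PhiA]
      simp
      rw [abs_s hs2, mul_one]
      exact h
    · left
      simp only [PhiA]
      simp
      exact h
  rw [z1, z2, z3]
  have f1 : ∫ x in Icc (![-R, 0] : Fin 2 → ℝ) ![R, R],
      cA s 0 ![(![1, R, R] : E3) 0, x 0, x 1] * ψ (PhiA s ![(![1, R, R] : E3) 0, x 0, x 1])
        = -(26 / 25 * KD ψ R s 1) := by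
    unfold KD
    rw [← integral_const_mul, ← integral_neg]
    congr 1
    ext x
    simp only [PhiA, cA]
    simp
    ring_nf
  have f2 : ∫ x in Icc (![-R, 0] : Fin 2 → ℝ) ![R, R],
      cA s 0 ![(![-1, -R, 0] : E3) 0, x 0, x 1] * ψ (PhiA s ![(![-1, -R, 0] : E3) 0, x 0, x 1])
        = 26 / 25 * KD ψ R s (-1) := by
    unfold KD
    rw [← integral_const_mul]
    congr 1
    ext x
    simp only [PhiA, cA]
    simp
    ring_nf
  have f3 : ∫ x in Icc (![-1, -R] : Fin 2 → ℝ) ![1, R],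
      cA s 2 ![x 0, x 1, (![-1, -R, 0] : E3) 2] * ψ (PhiA s ![x 0, x 1, (![-1, -R, 0] : E3) 2])
        = -(s * JA ψ R s) := by
    unfold JA
    rw [← integral_const_mul, ← integral_neg]
    congr 1
    ext x
    simp only [PhiA, cA, mp]
    simp
    ring_nf
  rw [f1, f2, f3]
  ring

/-! ### vertex `(s,t)` : `y = (λ, σ₁, σ₂)` -/

noncomputable def PhiV (s t : ℝ) (y : E3) : E3 :=
  ![-(y 0 * t) + s * y 2, -(y 0 * s) - t * y 1,
    11 / 10 * y 0 + s * t * y 1 / 10 - s * t * y 2 / 10]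
noncomputable def MV (s t : ℝ) (_ : E3) : Matrix (Fin 3) (Fin 3) ℝ :=
  !![-t, 0, s; -s, -t, 0; 11 / 10, s * t / 10, -(s * t / 10)]

lemma hasFDerivAt_PhiV (s t : ℝ) (y : E3) : HasFDerivAt (PhiV s t) (toCLM (MV s t y)) y := by
  rw [hasFDerivAt_pi']
  intro k
  fin_cases k
  · refine ((((hp 0 y).mul_const t).neg).add ((hp 2 y).const_mul s)).congr_fderiv ?_
    ext v
    simp [toCLM, MV, Matrix.vecHead, Matrix.vecTail]
  · refine ((((hp 0 y).mul_const s).neg).sub ((hp 1 y).const_mul t)).congr_fderiv ?_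
    ext v
    simp [toCLM, MV, Matrix.vecHead, Matrix.vecTail]
    ring
  · refine ((((hp 0 y).const_mul (11 / 10)).add (((hp 1 y).const_mul (s * t)).mul_const
      (10⁻¹ : ℝ))).sub (((hp 2 y).const_mul (s * t)).mul_const (10⁻¹ : ℝ))).congr_fderiv ?_
    ext v
    simp [toCLM, MV, Matrix.vecHead, Matrix.vecTail]
    ring

noncomputable def cV (s t : ℝ) : Fin 3 → E3 → ℝ :=
  ![fun _ => -4 * s * t, fun _ => -(26 / 25), fun _ => 26 / 25]

lemma hasFDerivAt_cV (s t : ℝ) (i : Fin 3) (y : E3) : HasFDerivAt (cV s t i) (0 : E3 →L[ℝ] ℝ) y := by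
  fin_cases i
  · exact hasFDerivAt_const _ _
  · exact hasFDerivAt_const _ _
  · exact hasFDerivAt_const _ _

noncomputable def sV (R : ℝ) : Set E3 :=
  {y | (-R < y 0 ∧ y 0 < R) ∧ (0 < y 1 ∧ y 1 < R) ∧ (0 < y 2 ∧ y 2 < R)}

lemma meas_sV (R : ℝ) : MeasurableSet (sV R) :=
  (meas_between 0 _ _).inter ((meas_between 1 _ _).inter (meas_between 2 _ _))

lemma sV_sub (R : ℝ) : sV R ⊆ Icc (![-R, 0, 0] : E3) ![R, R, R] := by
  intro y hy
  obtain ⟨⟨h1, h2⟩, ⟨h3, h4⟩, ⟨h5, h6⟩⟩ := hy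
  rw [mem_Icc3]
  exact ⟨⟨h1.le, h2.le⟩, ⟨h3.le, h4.le⟩, ⟨h5.le, h6.le⟩⟩

lemma sV_null (R : ℝ) : volume (Icc (![-R, 0, 0] : E3) ![R, R, R] \ sV R) = 0 :=
  null_aux _ _ _ _ _ _ _ 0 (fun y h1 h2 h3 _ => ⟨h1, h2, h3⟩)

lemma boxV_le {R : ℝ} (hR : 0 < R) : (![-R, 0, 0] : E3) ≤ ![R, R, R] := by
  intro i; fin_cases i <;> simp <;> linarith

lemma det_MV (s t : ℝ) (hs : s ^ 2 = 1) (ht : t ^ 2 = 1) (y : E3) :
    (MV s t y).det = 9 / 10 * (s * t) := by
  rw [MV, Matrix.det_fin_three]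
  simp
  linear_combination (-(s * t) / 10) * ht + (- (s * t) / 10) * hs

theorem intV (s t : ℝ) (hs2 : s ^ 2 = 1) (ht2 : t ^ 2 = 1) (g : E3 → E3) (ψ : E3 → ℝ)
    (hψ : ContDiff ℝ 1 ψ) (R : ℝ)
    (hR : 0 < R) (hfar : Far ψ R) (hinj : InjOn (PhiV s t) (sV R))
    (hg : ∀ y ∈ sV R, g (PhiV s t y) = ![GQ1 s t, GQ2 s t, GQ3 s t]) :
    IntegrableOn (FF g ψ) (PhiV s t '' sV R) ∧
    ∫ x in PhiV s t '' sV R, FF g ψ x = 26 / 25 * (KD ψ R s t - KC ψ R s t) := by
  have hMc : Continuous (MV s t) := by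
    apply continuous_matrix3
    intro i j
    fin_cases i <;> fin_cases j <;> simp [MV] <;> exact continuous_const
  have hdiv : ∀ y : E3, ∑ i : Fin 3, (0 : E3 →L[ℝ] ℝ) (Pi.single i 1) = 0 := by
    intro y
    simp
  have hpiola : ∀ y ∈ sV R, ∀ k,
      ∑ i, MV s t y k i * cV s t i y = |(MV s t y).det| * g (PhiV s t y) k := by
    intro y hy k
    rw [hg y hy, det_MV s t hs2 ht2]
    have hst : (s * t) ^ 2 = 1 := by rw [mul_pow, hs2, ht2]; norm_num
    have habs : |9 / 10 * (s * t)| = 9 / 10 := by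
      rw [abs_mul, abs_s hst]; norm_num
    have hdl : dl s t = 9 / 10 := by unfold dl; rw [hs2, ht2]; norm_num
    have hs3 : s ^ 3 = s := by
      have : s ^ 3 = s * s ^ 2 := by ring
      rw [this, hs2, mul_one]
    have ht3 : t ^ 3 = t := by
      have : t ^ 3 = t * t ^ 2 := by ring
      rw [this, ht2, mul_one]
    rw [habs, Fin.sum_univ_three]
    fin_cases k
    · simp only [MV, cV, GQ1, hdl, ht2, hs3]
      simp
      linear_combination (4 * s) * ht2
    · simp only [MV, cV, GQ2, hdl, hs2, ht3]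
      simp
      linear_combination (4 * t) * hs2
    · simp only [MV, cV, GQ3, GQ1, GQ2, hdl, hs2, ht2, hs3, ht3]
      simp
      ring
  have key := region_integral (PhiV s t) (MV s t) (cV s t) (fun _ _ => 0) ![-R, 0, 0] ![R, R, R]
    (boxV_le hR) (hasFDerivAt_PhiV s t) (hasFDerivAt_cV s t) hMc (fun _ => continuous_const) hdiv
    (sV R) (meas_sV R) (sV_sub R) (sV_null R) hinj g hpiola ψ hψ
  refine ⟨key.1, ?_⟩
  have h2 := key.2
  have e0 : ∫ x in PhiV s t '' sV R, FF g ψ x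
      = ∫ x in PhiV s t '' sV R, ∑ k, g x k * fderiv ℝ ψ x (Pi.single k 1) := rfl
  rw [e0, h2, Fin.sum_univ_three]
  simp only [insert0, insert1, insert2, above0, above1, above2]
  have hst : (s * t) ^ 2 = 1 := by rw [mul_pow, hs2, ht2]; norm_num
  -- general far estimate : if `x = PhiV y` is not far then the coordinates are small
  have hnear : ∀ y : E3, 0 ≤ y 1 → 0 ≤ y 2 → (R ≤ |y 0| ∨ R ≤ y 1 ∨ R ≤ y 2) →
      ψ (PhiV s t y) = 0 := by
    intro y hy1 hy2 hy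
    apply hfar
    by_contra hcon
    push Not at hcon
    obtain ⟨c1, c2, c3⟩ := hcon
    set X := PhiV s t y 0 with hX
    set Y := PhiV s t y 1 with hY
    set Z := PhiV s t y 2 with hZ
    have eX : X = -(y 0 * t) + s * y 2 := rfl
    have eY : Y = -(y 0 * s) - t * y 1 := rfl
    have eZ : Z = 11 / 10 * y 0 + s * t * y 1 / 10 - s * t * y 2 / 10 := rfl
    have g2 : s * X + s * (s * t) / 10 * Y + s * t * Z = 9 / 10 * y 2 := by
      rw [eX, eY, eZ]
      linear_combination (y 2 * (1 - t ^ 2 / 10) - y 0 * s * t / 10) * hs2 + (- y 2 / 10) * ht2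
    have g1 : t * (s * t) / 10 * X + t * Y + s * t * Z = -(9 / 10 * y 1) := by
      rw [eX, eY, eZ]
      linear_combination (- y 0 * s * t / 10 - y 1 + y 1 * s ^ 2 / 10) * ht2 + (y 1 / 10) * hs2
    have as := abs_s hs2
    have at' := abs_s ht2
    have ast := abs_s hst
    have b2 : 9 / 10 * y 2 ≤ |X| + |Y| / 10 + |Z| := by
      rw [← g2]
      have q1 : s * X ≤ |X| := by
        calc s * X ≤ |s * X| := le_abs_self _
          _ = |X| := by rw [abs_mul, as, one_mul]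
      have q2 : s * (s * t) / 10 * Y ≤ |Y| / 10 := by
        calc s * (s * t) / 10 * Y ≤ |s * (s * t) / 10 * Y| := le_abs_self _
          _ = |Y| / 10 := by rw [abs_mul, abs_div, abs_mul, as, ast]; norm_num; ring
      have q3 : s * t * Z ≤ |Z| := by
        calc s * t * Z ≤ |s * t * Z| := le_abs_self _
          _ = |Z| := by rw [abs_mul, ast, one_mul]
      linarith
    have b1 : 9 / 10 * y 1 ≤ |X| / 10 + |Y| + |Z| := by
      have e : 9 / 10 * y 1 = -(t * (s * t) / 10 * X) + -(t * Y) + -(s * t * Z) := by linarith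
      rw [e]
      have q1 : -(t * (s * t) / 10 * X) ≤ |X| / 10 := by
        calc -(t * (s * t) / 10 * X) ≤ |t * (s * t) / 10 * X| := neg_le_abs _
          _ = |X| / 10 := by rw [abs_mul, abs_div, abs_mul, at', ast]; norm_num; ring
      have q2 : -(t * Y) ≤ |Y| := by
        calc -(t * Y) ≤ |t * Y| := neg_le_abs _
          _ = |Y| := by rw [abs_mul, at', one_mul]
      have q3 : -(s * t * Z) ≤ |Z| := by
        calc -(s * t * Z) ≤ |s * t * Z| := neg_le_abs _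
          _ = |Z| := by rw [abs_mul, ast, one_mul]
      linarith
    have b0 : |y 0| ≤ |X| + y 2 := by
      have e : y 0 * t = -X + s * y 2 := by rw [eX]; ring
      calc |y 0| = |y 0 * t| := by rw [abs_mul, at', mul_one]
        _ = |-X + s * y 2| := by rw [e]
        _ ≤ |-X| + |s * y 2| := abs_add_le _ _
        _ = |X| + y 2 := by rw [abs_neg, abs_mul, as, one_mul, abs_of_nonneg hy2]
    rcases hy with h | h | h <;> linarith
  have z1 : ∫ x in Icc (![0, 0] : Fin 2 → ℝ) ![R, R],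
      cV s t 0 ![(![R, R, R] : E3) 0, x 0, x 1] * ψ (PhiV s t ![(![R, R, R] : E3) 0, x 0, x 1])
        = 0 := by
    apply setIntegral_eq_zero_of_forall_eq_zero
    intro x hx
    have h1 := hx.1 0
    have h2 := hx.1 1
    simp at h1 h2
    rw [hnear _ (by simpa using h1) (by simpa using h2) (Or.inl ?_), mul_zero]
    simp [abs_of_pos hR]
  have z2 : ∫ x in Icc (![0, 0] : Fin 2 → ℝ) ![R, R],
      cV s t 0 ![(![-R, 0, 0] : E3) 0, x 0, x 1] * ψ (PhiV s t ![(![-R, 0, 0] : E3) 0, x 0, x 1])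
        = 0 := by
    apply setIntegral_eq_zero_of_forall_eq_zero
    intro x hx
    have h1 := hx.1 0
    have h2 := hx.1 1
    simp at h1 h2
    rw [hnear _ (by simpa using h1) (by simpa using h2) (Or.inl ?_), mul_zero]
    simp [abs_of_pos hR]
  have z3 : ∫ x in Icc (![-R, 0] : Fin 2 → ℝ) ![R, R],
      cV s t 1 ![x 0, (![R, R, R] : E3) 1, x 1] * ψ (PhiV s t ![x 0, (![R, R, R] : E3) 1, x 1])
        = 0 := by
    apply setIntegral_eq_zero_of_forall_eq_zero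
    intro x hx
    have h2 := hx.1 1
    simp at h2
    rw [hnear _ (by simp; exact hR.le) (by simpa using h2) (Or.inr (Or.inl ?_)), mul_zero]
    simp
  have z4 : ∫ x in Icc (![-R, 0] : Fin 2 → ℝ) ![R, R],
      cV s t 2 ![x 0, x 1, (![R, R, R] : E3) 2] * ψ (PhiV s t ![x 0, x 1, (![R, R, R] : E3) 2])
        = 0 := by
    apply setIntegral_eq_zero_of_forall_eq_zero
    intro x hx
    have h2 := hx.1 1
    simp at h2
    rw [hnear _ (by simpa using h2) (by simp; exact hR.le) (Or.inr (Or.inr ?_)), mul_zero]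
    simp
  rw [z1, z2, z3, z4]
  have f1 : ∫ x in Icc (![-R, 0] : Fin 2 → ℝ) ![R, R],
      cV s t 1 ![x 0, (![-R, 0, 0] : E3) 1, x 1] * ψ (PhiV s t ![x 0, (![-R, 0, 0] : E3) 1, x 1])
        = -(26 / 25 * KD ψ R s t) := by
    unfold KD
    rw [← integral_const_mul, ← integral_neg]
    congr 1
    ext x
    simp only [PhiV, cV]
    simp
  have f2 : ∫ x in Icc (![-R, 0] : Fin 2 → ℝ) ![R, R],
      cV s t 2 ![x 0, x 1, (![-R, 0, 0] : E3) 2] * ψ (PhiV s t ![x 0, x 1, (![-R, 0, 0] : E3) 2])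
        = 26 / 25 * KC ψ R s t := by
    unfold KC
    rw [← integral_const_mul]
    congr 1
    ext x
    simp only [PhiV, cV]
    simp
  rw [f1, f2]
  ring

end Pool.Agent.Lib.MP_3a7ba1_an
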