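import Mathlib
import Pool.Agent.Lib.MP_3a7ba1_an.Fans

/-!
The field `G` and its weak divergence: the nine regions tile space.
-/

set_option autoImplicit false

namespace Pool.Agent.Lib.MP_3a7ba1_an

open MeasureTheory Set

noncomputable def gf (a b : ℝ) : E3 :=
  if |a| < 1 ∧ ¬ |b| < 1 then ![GE1 a, b * GE2 a, b * GE3 a]
  else if ¬ |a| < 1 ∧ |b| < 1 then ![a * GE2 b, GE1 b, a * GE3 b]
  else ![GQ1 a b, GQ2 a b, GQ3 a b]

noncomputable def qa (x : E3) : ℝ := pa (WithLp.toLp 2 x)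
noncomputable def qb (x : E3) : ℝ := pb (WithLp.toLp 2 x)
noncomputable def gE (x : E3) : E3 := gf (qa x) (qb x)

lemma q_spec (x : E3) : KKT (x 0) (x 1) (x 2) (qa x) (qb x) := kkt_spec (WithLp.toLp 2 x)

lemma q_unique {x : E3} (hx : x ≠ 0) {a b : ℝ} (h : KKT (x 0) (x 1) (x 2) a b) :
    qa x = a ∧ qb x = b := by
  apply p_unique (x := WithLp.toLp 2 x)
  · intro h0
    apply hx
    ext i
    have := congrArg (fun v : V => v i) h0
    simpa using this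
  · exact h

/-! ### KKT conditions on the regions -/

lemma kkt_Q {y : E3} (h0 : |y 0| < 1) (h1 : |y 1| < 1) :
    KKT (PhiQ y 0) (PhiQ y 1) (PhiQ y 2) (y 0) (y 1) := by
  have e1 : fa (PhiQ y 0) (PhiQ y 1) (PhiQ y 2) (y 0) (y 1) = 0 := by
    simp [PhiQ, fa]; ring
  have e2 : fb (PhiQ y 0) (PhiQ y 1) (PhiQ y 2) (y 0) (y 1) = 0 := by
    simp [PhiQ, fb]; ring
  exact ⟨h0.le, h1.le, fun _ => e1, by rw [e1]; simp, fun _ => e2, by rw [e2]; simp⟩

lemma fa_B {s : ℝ} (hs : s ^ 2 = 1) (y : E3) :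
    fa (PhiB s y 0) (PhiB s y 1) (PhiB s y 2) (y 0) s = 0 := by
  simp [PhiB, fa]
  linear_combination (- (y 1 * s) / 20) * hs

lemma fb_B {s : ℝ} (hs : s ^ 2 = 1) (y : E3) :
    s * fb (PhiB s y 0) (PhiB s y 1) (PhiB s y 2) (y 0) s = -(y 2 * dl (y 0) s) := by
  simp [PhiB, fb, dl]
  linear_combination (-(s * y 1 * y 0) / 20 + y 0 ^ 2 * y 2 / 20 + y 2 * (s ^ 2 / 20 - 1)) * hs

lemma fb_A {s : ℝ} (hs : s ^ 2 = 1) (y : E3) :
    fb (PhiA s y 0) (PhiA s y 1) (PhiA s y 2) s (y 0) = 0 := by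
  simp [PhiA, fb]
  linear_combination (-(y 1 * s) / 20) * hs

lemma fa_A {s : ℝ} (hs : s ^ 2 = 1) (y : E3) :
    s * fa (PhiA s y 0) (PhiA s y 1) (PhiA s y 2) s (y 0) = y 2 * dl s (y 0) := by
  simp [PhiA, fa, dl]
  linear_combination (-(s * y 1 * y 0) / 20 - y 0 ^ 2 * y 2 / 20 - y 2 * (s ^ 2 / 20 - 1)) * hs

lemma fa_V {s t : ℝ} (hs : s ^ 2 = 1) (ht : t ^ 2 = 1) (y : E3) :
    s * fa (PhiV s t y 0) (PhiV s t y 1) (PhiV s t y 2) s t = 9 / 10 * y 2 := by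
  simp [PhiV, fa]
  linear_combination (-(s * y 0 * t) / 20 - s ^ 2 * y 2 / 20) * ht
    + (-(s * y 0 * t) / 20 - y 2 * (s ^ 2 - 18) / 20) * hs

lemma fb_V {s t : ℝ} (hs : s ^ 2 = 1) (ht : t ^ 2 = 1) (y : E3) :
    t * fb (PhiV s t y 0) (PhiV s t y 1) (PhiV s t y 2) s t = -(9 / 10 * y 1) := by
  simp [PhiV, fb]
  linear_combination (-(t * y 0 * s) / 20 + t ^ 2 * y 1 / 20) * hs
    + (-(t * y 0 * s) / 20 + y 1 * (t ^ 2 - 18) / 20) * ht

lemma sign_cancel {s p q : ℝ} (hs : s ^ 2 = 1) (h : s * p = s * q) : p = q := by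
  have h1 : s * (s * p) = s * (s * q) := by rw [h]
  have h2 : s * (s * p) = s ^ 2 * p := by ring
  have h3 : s * (s * q) = s ^ 2 * q := by ring
  rw [h2, h3, hs] at h1
  linarith

lemma kkt_B {s : ℝ} (hs : s ^ 2 = 1) {y : E3} (h0 : |y 0| < 1) (h2 : 0 < y 2) :
    KKT (PhiB s y 0) (PhiB s y 1) (PhiB s y 2) (y 0) s := by
  have e1 := fa_B hs y
  have e2 := fb_B hs y
  have hd := dl_pos h0.le (abs_s hs).le
  exact ⟨h0.le, (abs_s hs).le, fun _ => e1, by rw [e1]; simp,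
    fun h => absurd (abs_s hs) h.ne, by rw [e2]; have := mul_pos h2 hd; linarith⟩

lemma kkt_A {s : ℝ} (hs : s ^ 2 = 1) {y : E3} (h0 : |y 0| < 1) (h2 : 0 < y 2) :
    KKT (PhiA s y 0) (PhiA s y 1) (PhiA s y 2) s (y 0) := by
  have e1 := fb_A hs y
  have e2 := fa_A hs y
  have hd := dl_pos (abs_s hs).le h0.le
  exact ⟨(abs_s hs).le, h0.le, fun h => absurd (abs_s hs) h.ne,
    by rw [e2]; exact (mul_pos h2 hd).le, fun _ => e1, by rw [e1]; simp⟩

lemma kkt_V {s t : ℝ} (hs : s ^ 2 = 1) (ht : t ^ 2 = 1) {y : E3} (h1 : 0 < y 1) (h2 : 0 < y 2) :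
    KKT (PhiV s t y 0) (PhiV s t y 1) (PhiV s t y 2) s t := by
  have e1 := fa_V hs ht y
  have e2 := fb_V hs ht y
  exact ⟨(abs_s hs).le, (abs_s ht).le, fun h => absurd (abs_s hs) h.ne,
    by rw [e1]; linarith, fun h => absurd (abs_s ht) h.ne, by rw [e2]; linarith⟩

lemma ne_zero_of_fa {x : E3} {a b : ℝ} (h : fa (x 0) (x 1) (x 2) a b ≠ 0) : x ≠ 0 := by
  rintro rfl
  apply h
  simp [fa]

lemma ne_zero_of_fb {x : E3} {a b : ℝ} (h : fb (x 0) (x 1) (x 2) a b ≠ 0) : x ≠ 0 := by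
  rintro rfl
  apply h
  simp [fb]

lemma abs_lt_of {a : ℝ} (h : -1 < a ∧ a < 1) : |a| < 1 := abs_lt.mpr h

/-- values of the projection on the regions -/
lemma q_Q {R : ℝ} {y : E3} (hy : y ∈ sQ R) : qa (PhiQ y) = y 0 ∧ qb (PhiQ y) = y 1 := by
  obtain ⟨h1, h2, h3, h4⟩ := hy
  apply q_unique
  · intro h
    have h5 : PhiQ y 2 = 0 := by rw [h]; rfl
    have h6 : y 2 * (1 + (y 0 * y 0 + y 1 * y 1) / 20) = 0 := h5
    rcases mul_eq_zero.mp h6 with h7 | h7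
    · exact h4 h7
    · have := mul_self_nonneg (y 0)
      have := mul_self_nonneg (y 1)
      linarith
  · exact kkt_Q (abs_lt_of h1) (abs_lt_of h2)

lemma q_B {s : ℝ} (hs : s ^ 2 = 1) {R : ℝ} {y : E3} (hy : y ∈ sF R) :
    qa (PhiB s y) = y 0 ∧ qb (PhiB s y) = s := by
  obtain ⟨h1, h2, h3⟩ := hy
  apply q_unique _ (kkt_B hs (abs_lt_of h1) h3.1)
  apply ne_zero_of_fb (a := y 0) (b := s)
  intro h
  have e2 := fb_B hs y
  rw [h, mul_zero] at e2
  have hd := mul_pos h3.1 (dl_pos (abs_lt_of h1).le (abs_s hs).le)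
  linarith

lemma q_A {s : ℝ} (hs : s ^ 2 = 1) {R : ℝ} {y : E3} (hy : y ∈ sF R) :
    qa (PhiA s y) = s ∧ qb (PhiA s y) = y 0 := by
  obtain ⟨h1, h2, h3⟩ := hy
  apply q_unique _ (kkt_A hs (abs_lt_of h1) h3.1)
  apply ne_zero_of_fa (a := s) (b := y 0)
  intro h
  have e2 := fa_A hs y
  rw [h, mul_zero] at e2
  have hd := mul_pos h3.1 (dl_pos (abs_s hs).le (abs_lt_of h1).le)
  linarith

lemma q_V {s t : ℝ} (hs : s ^ 2 = 1) (ht : t ^ 2 = 1) {R : ℝ} {y : E3} (hy : y ∈ sV R) :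
    qa (PhiV s t y) = s ∧ qb (PhiV s t y) = t := by
  obtain ⟨h1, h2, h3⟩ := hy
  apply q_unique _ (kkt_V hs ht h2.1 h3.1)
  apply ne_zero_of_fa (a := s) (b := t)
  intro h
  have e2 := fa_V hs ht y
  rw [h, mul_zero] at e2
  linarith [h3.1]

/-! ### injectivity -/

lemma inj_Q (R : ℝ) : InjOn PhiQ (sQ R) := by
  intro y hy y' hy' h
  obtain ⟨a1, b1⟩ := q_Q hy
  obtain ⟨a2, b2⟩ := q_Q hy'
  rw [h] at a1 b1
  have e0 : y 0 = y' 0 := by rw [← a1, ← a2]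
  have e1 : y 1 = y' 1 := by rw [← b1, ← b2]
  have e2 : y 2 = y' 2 := by
    have h5 : PhiQ y 2 = PhiQ y' 2 := by rw [h]
    have h6 : y 2 * (1 + (y 0 * y 0 + y 1 * y 1) / 20)
        = y' 2 * (1 + (y' 0 * y' 0 + y' 1 * y' 1) / 20) := h5
    rw [e0, e1] at h6
    refine mul_right_cancel₀ ?_ h6
    have := mul_self_nonneg (y' 0)
    have := mul_self_nonneg (y' 1)
    positivity
  ext i
  fin_cases i
  · exact e0
  · exact e1
  · exact e2

lemma inj_B {s : ℝ} (hs : s ^ 2 = 1) (R : ℝ) : InjOn (PhiB s) (sF R) := by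
  intro y hy y' hy' h
  obtain ⟨a1, b1⟩ := q_B hs hy
  obtain ⟨a2, b2⟩ := q_B hs hy'
  rw [h] at a1 b1
  have e0 : y 0 = y' 0 := by rw [← a1, ← a2]
  have e1 : y 1 = y' 1 := by
    have h5 : PhiB s y 0 = PhiB s y' 0 := by rw [h]
    have h6 : -(y 1 * s) = -(y' 1 * s) := h5
    apply sign_cancel hs
    linarith
  have e2 : y 2 = y' 2 := by
    have h5 : PhiB s y 1 = PhiB s y' 1 := by rw [h]
    have h6 : -(y 1 * y 0) - s * y 2 = -(y' 1 * y' 0) - s * y' 2 := h5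
    rw [e0, e1] at h6
    apply sign_cancel hs
    linarith
  ext i
  fin_cases i
  · exact e0
  · exact e1
  · exact e2

lemma inj_A {s : ℝ} (hs : s ^ 2 = 1) (R : ℝ) : InjOn (PhiA s) (sF R) := by
  intro y hy y' hy' h
  obtain ⟨a1, b1⟩ := q_A hs hy
  obtain ⟨a2, b2⟩ := q_A hs hy'
  rw [h] at a1 b1
  have e0 : y 0 = y' 0 := by rw [← b1, ← b2]
  have e1 : y 1 = y' 1 := by
    have h5 : PhiA s y 1 = PhiA s y' 1 := by rw [h]
    have h6 : -(y 1 * s) = -(y' 1 * s) := h5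
    apply sign_cancel hs
    linarith
  have e2 : y 2 = y' 2 := by
    have h5 : PhiA s y 0 = PhiA s y' 0 := by rw [h]
    have h6 : -(y 1 * y 0) + s * y 2 = -(y' 1 * y' 0) + s * y' 2 := h5
    rw [e0, e1] at h6
    apply sign_cancel hs
    linarith
  ext i
  fin_cases i
  · exact e0
  · exact e1
  · exact e2

lemma inj_V {s t : ℝ} (hs : s ^ 2 = 1) (ht : t ^ 2 = 1) (R : ℝ) :
    InjOn (PhiV s t) (sV R) := by
  intro y hy y' hy' h
  have e2 : y 2 = y' 2 := by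
    have g1 := fa_V hs ht y
    have g2 := fa_V hs ht y'
    rw [h] at g1
    linarith
  have e1 : y 1 = y' 1 := by
    have g1 := fb_V hs ht y
    have g2 := fb_V hs ht y'
    rw [h] at g1
    linarith
  have e0 : y 0 = y' 0 := by
    have h5 : PhiV s t y 0 = PhiV s t y' 0 := by rw [h]
    have h6 : -(y 0 * t) + s * y 2 = -(y' 0 * t) + s * y' 2 := h5
    rw [e2] at h6
    apply sign_cancel ht
    linarith
  ext i
  fin_cases i
  · exact e0
  · exact e1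
  · exact e2

/-! ### values of the field -/

lemma g_Q {R : ℝ} {y : E3} (hy : y ∈ sQ R) :
    gE (PhiQ y) = ![GQ1 (y 0) (y 1), GQ2 (y 0) (y 1), GQ3 (y 0) (y 1)] := by
  obtain ⟨a1, b1⟩ := q_Q hy
  obtain ⟨h1, h2, h3, h4⟩ := hy
  unfold gE
  rw [a1, b1]
  unfold gf
  rw [if_neg (fun h => h.2 (abs_lt_of h2)), if_neg (fun h => h.1 (abs_lt_of h1))]

lemma g_B {s : ℝ} (hs : s ^ 2 = 1) {R : ℝ} {y : E3} (hy : y ∈ sF R) :
    gE (PhiB s y) = ![GE1 (y 0), s * GE2 (y 0), s * GE3 (y 0)] := by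
  obtain ⟨a1, b1⟩ := q_B hs hy
  obtain ⟨h1, h2, h3⟩ := hy
  unfold gE
  rw [a1, b1]
  unfold gf
  rw [if_pos ⟨abs_lt_of h1, fun h => absurd (abs_s hs) h.ne⟩]

lemma g_A {s : ℝ} (hs : s ^ 2 = 1) {R : ℝ} {y : E3} (hy : y ∈ sF R) :
    gE (PhiA s y) = ![s * GE2 (y 0), GE1 (y 0), s * GE3 (y 0)] := by
  obtain ⟨a1, b1⟩ := q_A hs hy
  obtain ⟨h1, h2, h3⟩ := hy
  have n1 : ¬ |s| < 1 := fun h => absurd (abs_s hs) h.ne
  unfold gE
  rw [a1, b1]
  unfold gf
  rw [if_neg (fun h => n1 h.1), if_pos ⟨n1, abs_lt_of h1⟩]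

lemma g_V {s t : ℝ} (hs : s ^ 2 = 1) (ht : t ^ 2 = 1) {R : ℝ} {y : E3} (hy : y ∈ sV R) :
    gE (PhiV s t y) = ![GQ1 s t, GQ2 s t, GQ3 s t] := by
  obtain ⟨a1, b1⟩ := q_V hs ht hy
  have n1 : ¬ |s| < 1 := fun h => absurd (abs_s hs) h.ne
  have n2 : ¬ |t| < 1 := fun h => absurd (abs_s ht) h.ne
  unfold gE
  rw [a1, b1]
  unfold gf
  rw [if_neg (fun h => n1 h.1), if_neg (fun h => n2 h.2)]

/-! ### the tiling -/

noncomputable def TT (R : ℝ) (p : Fin 3 × Fin 3) : Set E3 :=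
  (![![PhiQ '' sQ R, PhiB 1 '' sF R, PhiB (-1) '' sF R],
    ![PhiA 1 '' sF R, PhiV 1 1 '' sV R, PhiV 1 (-1) '' sV R],
    ![PhiA (-1) '' sF R, PhiV (-1) 1 '' sV R, PhiV (-1) (-1) '' sV R]] :
      Fin 3 → Fin 3 → Set E3) p.1 p.2

noncomputable def cl (r : ℝ) : Fin 3 := if |r| < 1 then 0 else if 0 < r then 1 else 2

lemma cl_of_lt {r : ℝ} (h : |r| < 1) : cl r = 0 := if_pos h
lemma cl_one : cl 1 = 1 := by unfold cl; norm_num
lemma cl_neg_one : cl (-1) = 2 := by unfold cl; norm_num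

lemma one_sq' : (1 : ℝ) ^ 2 = 1 := by norm_num
lemma neg_one_sq' : (-1 : ℝ) ^ 2 = 1 := by norm_num

lemma TT_lab (R : ℝ) (p : Fin 3 × Fin 3) {x : E3} (hx : x ∈ TT R p) :
    (cl (qa x), cl (qb x)) = p := by
  obtain ⟨i, j⟩ := p
  fin_cases i <;> fin_cases j
  · obtain ⟨y, hy, rfl⟩ := hx
    rw [(q_Q hy).1, (q_Q hy).2, cl_of_lt (abs_lt_of hy.1), cl_of_lt (abs_lt_of hy.2.1)]; rfl
  · obtain ⟨y, hy, rfl⟩ := hx
    rw [(q_B one_sq' hy).1, (q_B one_sq' hy).2, cl_of_lt (abs_lt_of hy.1), cl_one]; rfl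
  · obtain ⟨y, hy, rfl⟩ := hx
    rw [(q_B neg_one_sq' hy).1, (q_B neg_one_sq' hy).2, cl_of_lt (abs_lt_of hy.1), cl_neg_one]; rfl
  · obtain ⟨y, hy, rfl⟩ := hx
    rw [(q_A one_sq' hy).1, (q_A one_sq' hy).2, cl_of_lt (abs_lt_of hy.1), cl_one]; rfl
  · obtain ⟨y, hy, rfl⟩ := hx
    rw [(q_V one_sq' one_sq' hy).1, (q_V one_sq' one_sq' hy).2, cl_one]; rfl
  · obtain ⟨y, hy, rfl⟩ := hx
    rw [(q_V one_sq' neg_one_sq' hy).1, (q_V one_sq' neg_one_sq' hy).2, cl_one, cl_neg_one]; rfl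
  · obtain ⟨y, hy, rfl⟩ := hx
    rw [(q_A neg_one_sq' hy).1, (q_A neg_one_sq' hy).2, cl_of_lt (abs_lt_of hy.1), cl_neg_one]; rfl
  · obtain ⟨y, hy, rfl⟩ := hx
    rw [(q_V neg_one_sq' one_sq' hy).1, (q_V neg_one_sq' one_sq' hy).2, cl_one, cl_neg_one]; rfl
  · obtain ⟨y, hy, rfl⟩ := hx
    rw [(q_V neg_one_sq' neg_one_sq' hy).1, (q_V neg_one_sq' neg_one_sq' hy).2, cl_neg_one]; rfl

lemma TT_disj (R : ℝ) : Pairwise (Function.onFun Disjoint (TT R)) := by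
  intro p p' hp
  rw [Function.onFun, Set.disjoint_left]
  intro x hx hx'
  exact hp ((TT_lab R p hx).symm.trans (TT_lab R p' hx'))

lemma meas_sQ (R : ℝ) : MeasurableSet (sQ R) := by
  unfold sQ
  exact (meas_between 0 _ _).inter ((meas_between 1 _ _).inter ((meas_between 2 _ _).inter
    (measurableSet_eq_fun (measurable_pi_apply 2) measurable_const).compl))

lemma cont_Q : Continuous PhiQ :=
  continuous_iff_continuousAt.mpr fun y => (hasFDerivAt_PhiQ y).continuousAt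
lemma cont_B (s : ℝ) : Continuous (PhiB s) :=
  continuous_iff_continuousAt.mpr fun y => (hasFDerivAt_PhiB s y).continuousAt
lemma cont_A (s : ℝ) : Continuous (PhiA s) :=
  continuous_iff_continuousAt.mpr fun y => (hasFDerivAt_PhiA s y).continuousAt
lemma cont_V (s t : ℝ) : Continuous (PhiV s t) :=
  continuous_iff_continuousAt.mpr fun y => (hasFDerivAt_PhiV s t y).continuousAt

lemma TT_meas (R : ℝ) (p : Fin 3 × Fin 3) : MeasurableSet (TT R p) := by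
  obtain ⟨i, j⟩ := p
  fin_cases i <;> fin_cases j
  · exact (meas_sQ R).image_of_continuousOn_injOn cont_Q.continuousOn (inj_Q R)
  · exact (meas_sF R).image_of_continuousOn_injOn (cont_B _).continuousOn (inj_B one_sq' R)
  · exact (meas_sF R).image_of_continuousOn_injOn (cont_B _).continuousOn (inj_B neg_one_sq' R)
  · exact (meas_sF R).image_of_continuousOn_injOn (cont_A _).continuousOn (inj_A one_sq' R)
  · exact (meas_sV R).image_of_continuousOn_injOn (cont_V _ _).continuousOn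
      (inj_V one_sq' one_sq' R)
  · exact (meas_sV R).image_of_continuousOn_injOn (cont_V _ _).continuousOn
      (inj_V one_sq' neg_one_sq' R)
  · exact (meas_sF R).image_of_continuousOn_injOn (cont_A _).continuousOn (inj_A neg_one_sq' R)
  · exact (meas_sV R).image_of_continuousOn_injOn (cont_V _ _).continuousOn
      (inj_V neg_one_sq' one_sq' R)
  · exact (meas_sV R).image_of_continuousOn_injOn (cont_V _ _).continuousOn
      (inj_V neg_one_sq' neg_one_sq' R)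

section ints
variable (ψ : E3 → ℝ) (hψ : ContDiff ℝ 1 ψ) (R : ℝ) (hR : 0 < R) (hfar : Far ψ R)
include hψ hR hfar

lemma TT_int (p : Fin 3 × Fin 3) : IntegrableOn (FF gE ψ) (TT R p) := by
  obtain ⟨i, j⟩ := p
  fin_cases i <;> fin_cases j
  · exact (intQ gE ψ hψ R hR hfar (inj_Q R) (fun y hy => g_Q hy)).1
  · exact (intB 1 one_sq' gE ψ hψ R hR hfar (inj_B one_sq' R) (fun y hy => g_B one_sq' hy)).1
  · exact (intB (-1) neg_one_sq' gE ψ hψ R hR hfar (inj_B neg_one_sq' R)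
      (fun y hy => g_B neg_one_sq' hy)).1
  · exact (intA 1 one_sq' gE ψ hψ R hR hfar (inj_A one_sq' R) (fun y hy => g_A one_sq' hy)).1
  · exact (intV 1 1 one_sq' one_sq' gE ψ hψ R hR hfar (inj_V one_sq' one_sq' R)
      (fun y hy => g_V one_sq' one_sq' hy)).1
  · exact (intV 1 (-1) one_sq' neg_one_sq' gE ψ hψ R hR hfar (inj_V one_sq' neg_one_sq' R)
      (fun y hy => g_V one_sq' neg_one_sq' hy)).1
  · exact (intA (-1) neg_one_sq' gE ψ hψ R hR hfar (inj_A neg_one_sq' R)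
      (fun y hy => g_A neg_one_sq' hy)).1
  · exact (intV (-1) 1 neg_one_sq' one_sq' gE ψ hψ R hR hfar (inj_V neg_one_sq' one_sq' R)
      (fun y hy => g_V neg_one_sq' one_sq' hy)).1
  · exact (intV (-1) (-1) neg_one_sq' neg_one_sq' gE ψ hψ R hR hfar
      (inj_V neg_one_sq' neg_one_sq' R) (fun y hy => g_V neg_one_sq' neg_one_sq' hy)).1

lemma TT_sum : ∑ p, ∫ x in TT R p, FF gE ψ x = 0 := by
  rw [Fintype.sum_prod_type]
  simp only [Fin.sum_univ_three]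
  have e00 : ∫ x in TT R (0, 0), FF gE ψ x = -JA ψ R 1 + JA ψ R (-1) - JB ψ R 1 + JB ψ R (-1) :=
    (intQ gE ψ hψ R hR hfar (inj_Q R) (fun y hy => g_Q hy)).2
  have e01 : ∫ x in TT R (0, 1), FF gE ψ x
      = 1 * JB ψ R 1 + 26 / 25 * (KC ψ R 1 1 + KC ψ R (-1) 1) :=
    (intB 1 one_sq' gE ψ hψ R hR hfar (inj_B one_sq' R) (fun y hy => g_B one_sq' hy)).2
  have e02 : ∫ x in TT R (0, 2), FF gE ψ x
      = (-1) * JB ψ R (-1) + 26 / 25 * (KC ψ R 1 (-1) + KC ψ R (-1) (-1)) :=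
    (intB (-1) neg_one_sq' gE ψ hψ R hR hfar (inj_B neg_one_sq' R)
      (fun y hy => g_B neg_one_sq' hy)).2
  have e10 : ∫ x in TT R (1, 0), FF gE ψ x
      = 1 * JA ψ R 1 - 26 / 25 * (KD ψ R 1 1 + KD ψ R 1 (-1)) :=
    (intA 1 one_sq' gE ψ hψ R hR hfar (inj_A one_sq' R) (fun y hy => g_A one_sq' hy)).2
  have e20 : ∫ x in TT R (2, 0), FF gE ψ x
      = (-1) * JA ψ R (-1) - 26 / 25 * (KD ψ R (-1) 1 + KD ψ R (-1) (-1)) :=
    (intA (-1) neg_one_sq' gE ψ hψ R hR hfar (inj_A neg_one_sq' R)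
      (fun y hy => g_A neg_one_sq' hy)).2
  have e11 : ∫ x in TT R (1, 1), FF gE ψ x = 26 / 25 * (KD ψ R 1 1 - KC ψ R 1 1) :=
    (intV 1 1 one_sq' one_sq' gE ψ hψ R hR hfar (inj_V one_sq' one_sq' R)
      (fun y hy => g_V one_sq' one_sq' hy)).2
  have e12 : ∫ x in TT R (1, 2), FF gE ψ x = 26 / 25 * (KD ψ R 1 (-1) - KC ψ R 1 (-1)) :=
    (intV 1 (-1) one_sq' neg_one_sq' gE ψ hψ R hR hfar (inj_V one_sq' neg_one_sq' R)
      (fun y hy => g_V one_sq' neg_one_sq' hy)).2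
  have e21 : ∫ x in TT R (2, 1), FF gE ψ x = 26 / 25 * (KD ψ R (-1) 1 - KC ψ R (-1) 1) :=
    (intV (-1) 1 neg_one_sq' one_sq' gE ψ hψ R hR hfar (inj_V neg_one_sq' one_sq' R)
      (fun y hy => g_V neg_one_sq' one_sq' hy)).2
  have e22 : ∫ x in TT R (2, 2), FF gE ψ x = 26 / 25 * (KD ψ R (-1) (-1) - KC ψ R (-1) (-1)) :=
    (intV (-1) (-1) neg_one_sq' neg_one_sq' gE ψ hψ R hR hfar
      (inj_V neg_one_sq' neg_one_sq' R) (fun y hy => g_V neg_one_sq' neg_one_sq' hy)).2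
  rw [e00, e01, e02, e10, e11, e12, e20, e21, e22]
  ring

end ints

/-! ### coverage -/

lemma sgn_bound {s x c : ℝ} (hs : s ^ 2 = 1) (h : |x| < c) : -c < s * x ∧ s * x < c := by
  rw [← abs_lt, abs_mul, abs_s hs, one_mul]; exact h

lemma cover_Q {R : ℝ} {x : E3} {a b : ℝ} (hx : x ≠ 0) (h2 : |x 2| < R / 4)
    (ha : |a| < 1) (hb : |b| < 1) (k : KKT (x 0) (x 1) (x 2) a b) : x ∈ PhiQ '' sQ R := by
  obtain ⟨k1, k2, k3, k4, k5, k6⟩ := k
  have f1 := k3 ha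
  have f2 := k5 hb
  have f3 := ax_by_of_zero k1 k2 f1 f2
  obtain ⟨g1, g2⟩ := lin_of_zero f1 f2 f3
  have hn : 0 < 1 + (a ^ 2 + b ^ 2) / 20 := by positivity
  have hn1 : 1 ≤ 1 + (a ^ 2 + b ^ 2) / 20 := by
    have := sq_nonneg a; have := sq_nonneg b; linarith
  set l := x 2 / (1 + (a ^ 2 + b ^ 2) / 20) with hl
  have e2 : l * (1 + (a ^ 2 + b ^ 2) / 20) = x 2 := by rw [hl]; field_simp
  have e0 : x 0 = -(l * b) := by
    have : (x 0) * (1 + (a ^ 2 + b ^ 2) / 20) = (-(l * b)) * (1 + (a ^ 2 + b ^ 2) / 20) := by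
      rw [g1]; linear_combination b * e2
    exact mul_right_cancel₀ hn.ne' this
  have e1 : x 1 = -(l * a) := by
    have : (x 1) * (1 + (a ^ 2 + b ^ 2) / 20) = (-(l * a)) * (1 + (a ^ 2 + b ^ 2) / 20) := by
      rw [g2]; linear_combination a * e2
    exact mul_right_cancel₀ hn.ne' this
  have hlR : |l| < R := by
    have h3 : |l| ≤ |x 2| := by
      rw [← e2, abs_mul, abs_of_pos hn]
      exact le_mul_of_one_le_right (abs_nonneg _) hn1
    have h4 := abs_nonneg (x 2)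
    linarith
  have hl0 : l ≠ 0 := by
    intro h
    apply hx
    ext i
    fin_cases i
    · change x 0 = 0
      rw [e0, h]; ring
    · change x 1 = 0
      rw [e1, h]; ring
    · change x 2 = 0
      rw [← e2, h]; ring
  refine ⟨![a, b, l], ⟨abs_lt.mp ha, abs_lt.mp hb, abs_lt.mp hlR, hl0⟩, ?_⟩
  ext i
  fin_cases i
  · exact e0.symm
  · exact e1.symm
  · change l * (1 + (a * a + b * b) / 20) = x 2
    rw [← e2]; ring

lemma cover_B {R : ℝ} {x : E3} {a s : ℝ} (hs : s ^ 2 = 1) (h0 : |x 0| < R / 4)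
    (h1 : |x 1| < R / 4) (ha : |a| < 1) (k : KKT (x 0) (x 1) (x 2) a s)
    (hf : fb (x 0) (x 1) (x 2) a s ≠ 0) : x ∈ PhiB s '' sF R := by
  obtain ⟨k1, k2, k3, k4, k5, k6⟩ := k
  have f1 := k3 ha
  have hs0 : s ≠ 0 := by rintro rfl; norm_num at hs
  have f2 : s * fb (x 0) (x 1) (x 2) a s < 0 := lt_of_le_of_ne k6 (mul_ne_zero hs0 hf)
  set y : E3 := ![a, -(s * x 0), x 0 * a - s * x 1] with hy
  have hPhi : PhiB s y = x := by
    ext i
    fin_cases i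
    · change -(-(s * x 0) * s) = x 0
      linear_combination x 0 * hs
    · change -(-(s * x 0) * a) - s * (x 0 * a - s * x 1) = x 1
      linear_combination x 1 * hs
    · change -(s * x 0) * (1 + (a * a + 1) / 20) + s * ((x 0 * a - s * x 1) * a) / 10 = x 2
      unfold fa at f1
      linear_combination (-s) * f1 + (s * x 0 / 20 + x 2) * hs
  have hd := dl_pos ha.le (abs_s hs).le
  have h2 : 0 < y 2 := by
    have g := fb_B hs y
    rw [hPhi] at g
    have g1 : 0 < y 2 * dl a s := by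
      have : y 0 = a := rfl
      rw [this] at g
      linarith
    exact pos_of_mul_pos_left g1 hd.le
  have hsb := sgn_bound hs h0
  have hsb1 := sgn_bound hs h1
  have hR : 0 < R := by have := abs_nonneg (x 0); linarith
  have hxa : x 0 * a < R / 4 := by
    calc x 0 * a ≤ |x 0 * a| := le_abs_self _
      _ = |x 0| * |a| := abs_mul _ _
      _ ≤ |x 0| * 1 := mul_le_mul_of_nonneg_left ha.le (abs_nonneg _)
      _ < R / 4 := by rw [mul_one]; exact h0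
  refine ⟨y, ⟨abs_lt.mp ha, ⟨?_, ?_⟩, ⟨h2, ?_⟩⟩, hPhi⟩
  · change -R < -(s * x 0)
    linarith
  · change -(s * x 0) < R
    linarith
  · change x 0 * a - s * x 1 < R
    linarith

lemma cover_A {R : ℝ} {x : E3} {b s : ℝ} (hs : s ^ 2 = 1) (h0 : |x 0| < R / 4)
    (h1 : |x 1| < R / 4) (hb : |b| < 1) (k : KKT (x 0) (x 1) (x 2) s b)
    (hf : fa (x 0) (x 1) (x 2) s b ≠ 0) : x ∈ PhiA s '' sF R := by
  obtain ⟨k1, k2, k3, k4, k5, k6⟩ := k
  have f1 := k5 hb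
  have hs0 : s ≠ 0 := by rintro rfl; norm_num at hs
  have f2 : 0 < s * fa (x 0) (x 1) (x 2) s b := lt_of_le_of_ne k4 (mul_ne_zero hs0 hf).symm
  set y : E3 := ![b, -(s * x 1), s * x 0 - x 1 * b] with hy
  have hPhi : PhiA s y = x := by
    ext i
    fin_cases i
    · change -(-(s * x 1) * b) + s * (s * x 0 - x 1 * b) = x 0
      linear_combination x 0 * hs
    · change -(-(s * x 1) * s) = x 1
      linear_combination x 1 * hs
    · change -(s * x 1) * (1 + (b * b + 1) / 20) - s * ((s * x 0 - x 1 * b) * b) / 10 = x 2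
      unfold fb at f1
      linear_combination (-s) * f1 + (s * x 1 / 20 + x 2) * hs
  have hd := dl_pos (abs_s hs).le hb.le
  have h2 : 0 < y 2 := by
    have g := fa_A hs y
    rw [hPhi] at g
    have g1 : 0 < y 2 * dl s b := by
      have : y 0 = b := rfl
      rw [this] at g
      linarith
    exact pos_of_mul_pos_left g1 hd.le
  have hsb := sgn_bound hs h0
  have hsb1 := sgn_bound hs h1
  have hR : 0 < R := by have := abs_nonneg (x 0); linarith
  have hxa : -(R / 4) < x 1 * b := by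
    have : -(x 1 * b) < R / 4 := by
      calc -(x 1 * b) ≤ |x 1 * b| := neg_le_abs _
        _ = |x 1| * |b| := abs_mul _ _
        _ ≤ |x 1| * 1 := mul_le_mul_of_nonneg_left hb.le (abs_nonneg _)
        _ < R / 4 := by rw [mul_one]; exact h1
    linarith
  refine ⟨y, ⟨abs_lt.mp hb, ⟨?_, ?_⟩, ⟨h2, ?_⟩⟩, hPhi⟩
  · change -R < -(s * x 1)
    linarith
  · change -(s * x 1) < R
    linarith
  · change s * x 0 - x 1 * b < R
    linarith

lemma cover_V {R : ℝ} {x : E3} {s t : ℝ} (hs : s ^ 2 = 1) (ht : t ^ 2 = 1) (h0 : |x 0| < R / 4)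
    (h1 : |x 1| < R / 4) (h2 : |x 2| < R / 4) (k : KKT (x 0) (x 1) (x 2) s t)
    (hf : fa (x 0) (x 1) (x 2) s t ≠ 0) (hf' : fb (x 0) (x 1) (x 2) s t ≠ 0) :
    x ∈ PhiV s t '' sV R := by
  obtain ⟨k1, k2, k3, k4, k5, k6⟩ := k
  have hs0 : s ≠ 0 := by rintro rfl; norm_num at hs
  have ht0 : t ≠ 0 := by rintro rfl; norm_num at ht
  have f1 : 0 < s * fa (x 0) (x 1) (x 2) s t := lt_of_le_of_ne k4 (mul_ne_zero hs0 hf).symm
  have f2 : t * fb (x 0) (x 1) (x 2) s t < 0 := lt_of_le_of_ne k6 (mul_ne_zero ht0 hf')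
  have hst : (s * t) ^ 2 = 1 := by rw [mul_pow, hs, ht]; norm_num
  set y : E3 := ![(t * x 0 + s * x 1 + 10 * x 2) / 9,
    -(10 / 9 * (s * x 0 / 10 + t * x 1 + s * t * x 2)),
    10 / 9 * (s * x 0 + t * x 1 / 10 + s * t * x 2)] with hy
  have hPhi : PhiV s t y = x := by
    ext i
    fin_cases i
    · change -((t * x 0 + s * x 1 + 10 * x 2) / 9 * t)
        + s * (10 / 9 * (s * x 0 + t * x 1 / 10 + s * t * x 2)) = x 0
      linear_combination (10 / 9 * x 0 + 10 / 9 * t * x 2) * hs - (x 0 / 9) * ht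
    · change -((t * x 0 + s * x 1 + 10 * x 2) / 9 * s)
        - t * (-(10 / 9 * (s * x 0 / 10 + t * x 1 + s * t * x 2))) = x 1
      linear_combination (10 / 9 * x 1 + 10 / 9 * s * x 2) * ht - (x 1 / 9) * hs
    · change 11 / 10 * ((t * x 0 + s * x 1 + 10 * x 2) / 9)
        + s * t * (-(10 / 9 * (s * x 0 / 10 + t * x 1 + s * t * x 2))) / 10
        - s * t * (10 / 9 * (s * x 0 + t * x 1 / 10 + s * t * x 2)) / 10 = x 2
      linear_combination (-(11 / 90) * t * x 0 - 2 / 9 * t ^ 2 * x 2) * hs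
        + (-(11 / 90) * s * x 1 - 2 / 9 * x 2) * ht
  have p2 : 0 < y 2 := by
    have g := fa_V hs ht y
    rw [hPhi] at g
    linarith
  have p1 : 0 < y 1 := by
    have g := fb_V hs ht y
    rw [hPhi] at g
    linarith
  have b1 := sgn_bound hs h0
  have b2 := sgn_bound ht h0
  have b3 := sgn_bound hs h1
  have b4 := sgn_bound ht h1
  have b5 := sgn_bound hst h2
  have b6 := abs_lt.mp h2
  have hR : 0 < R := by have := abs_nonneg (x 0); linarith
  refine ⟨y, ⟨⟨?_, ?_⟩, ⟨p1, ?_⟩, ⟨p2, ?_⟩⟩, hPhi⟩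
  · change -R < (t * x 0 + s * x 1 + 10 * x 2) / 9
    linarith
  · change (t * x 0 + s * x 1 + 10 * x 2) / 9 < R
    linarith
  · change -(10 / 9 * (s * x 0 / 10 + t * x 1 + s * t * x 2)) < R
    linarith
  · change 10 / 9 * (s * x 0 + t * x 1 / 10 + s * t * x 2) < R
    linarith

lemma sq_of_abs_one {a : ℝ} (h : |a| = 1) : a ^ 2 = 1 := by
  rw [← sq_abs, h]; norm_num

lemma ne_zero_of_PPr {x : E3} (h : PPr (x 0) (x 1) (x 2) ≠ 0) : x ≠ 0 := by
  rintro rfl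
  apply h
  unfold PPr; simp

lemma cover {R : ℝ} {x : E3} (hP : PPr (x 0) (x 1) (x 2) ≠ 0)
    (h0 : |x 0| < R / 4) (h1 : |x 1| < R / 4) (h2 : |x 2| < R / 4) : x ∈ ⋃ p, TT R p := by
  have k := q_spec x
  obtain ⟨g1, g2⟩ := good_of_PPr hP k
  set a := qa x
  set b := qb x
  rw [mem_iUnion]
  by_cases ha : |a| < 1
  · by_cases hb : |b| < 1
    · exact ⟨(0, 0), cover_Q (ne_zero_of_PPr hP) h2 ha hb k⟩
    · have hb1 : |b| = 1 := le_antisymm k.2.1 (not_lt.mp hb)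
      have hf := g2.resolve_left hb
      have hs := sq_of_abs_one hb1
      have := cover_B hs h0 h1 ha k hf
      rcases pm_one_of_abs hb1 with h | h
      · rw [h] at this
        exact ⟨(0, 1), this⟩
      · rw [h] at this
        exact ⟨(0, 2), this⟩
  · have ha1 : |a| = 1 := le_antisymm k.1 (not_lt.mp ha)
    have hf := g1.resolve_left ha
    have hs := sq_of_abs_one ha1
    by_cases hb : |b| < 1
    · have := cover_A hs h0 h1 hb k hf
      rcases pm_one_of_abs ha1 with h | h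
      · rw [h] at this
        exact ⟨(1, 0), this⟩
      · rw [h] at this
        exact ⟨(2, 0), this⟩
    · have hb1 : |b| = 1 := le_antisymm k.2.1 (not_lt.mp hb)
      have hf' := g2.resolve_left hb
      have ht := sq_of_abs_one hb1
      have := cover_V hs ht h0 h1 h2 k hf hf'
      rcases pm_one_of_abs ha1 with h | h <;> rcases pm_one_of_abs hb1 with h' | h'
      · rw [h, h'] at this
        exact ⟨(1, 1), this⟩
      · rw [h, h'] at this
        exact ⟨(1, 2), this⟩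
      · rw [h, h'] at this
        exact ⟨(2, 1), this⟩
      · rw [h, h'] at this
        exact ⟨(2, 2), this⟩

lemma ae_PPr_ne : ∀ᵐ x : E3, PPr (x 0) (x 1) (x 2) ≠ 0 :=
  (PiLp.volume_preserving_toLp (Fin 3)).quasiMeasurePreserving.ae ae_PP_ne

theorem hdiv_E3 (ψ : E3 → ℝ) (hψ : ContDiff ℝ 1 ψ) (hc : HasCompactSupport ψ) :
    ∫ x, FF gE ψ x = 0 := by
  obtain ⟨r, hr⟩ := hc.isCompact.isBounded.subset_closedBall (0 : E3)
  set R : ℝ := 4 * (|r| + 1) with hRdef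
  have hR : 0 < R := by positivity
  have hout : ∀ x : E3, (R / 4 ≤ |x 0| ∨ R / 4 ≤ |x 1| ∨ R / 4 ≤ |x 2|) → x ∉ tsupport ψ := by
    intro x hx hmem
    have h1 := hr hmem
    rw [mem_closedBall_zero_iff] at h1
    have h2 : ∀ i : Fin 3, |x i| ≤ ‖x‖ := fun i => norm_le_pi_norm x i
    have h3 : r ≤ |r| := le_abs_self r
    have h4 : R / 4 = |r| + 1 := by rw [hRdef]; ring
    rw [h4] at hx
    rcases hx with h | h | h
    · linarith [h2 0]
    · linarith [h2 1]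
    · linarith [h2 2]
  have hfar : Far ψ R := fun x hx => image_eq_zero_of_notMem_tsupport (hout x hx)
  have hz : ∀ᵐ x : E3, x ∉ (⋃ p, TT R p) → FF gE ψ x = 0 := by
    filter_upwards [ae_PPr_ne] with x hP hx
    have hfarx : R / 4 ≤ |x 0| ∨ R / 4 ≤ |x 1| ∨ R / 4 ≤ |x 2| := by
      by_contra hcon
      push Not at hcon
      exact hx (cover hP hcon.1 hcon.2.1 hcon.2.2)
    have hd : fderiv ℝ ψ x = 0 := fderiv_of_notMem_tsupport ℝ (hout x hfarx)
    unfold FF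
    rw [hd]
    simp
  rw [← setIntegral_eq_integral_of_ae_compl_eq_zero hz,
    integral_iUnion_fintype (TT_meas R) (TT_disj R) (TT_int ψ hψ R hR hfar)]
  exact TT_sum ψ hψ R hR hfar

end Pool.Agent.Lib.MP_3a7ba1_an
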