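import Mathlib
import Pool.Agent.Lib.MP_3a7ba1_an.Defs

/-!
The two polynomial inequalities: the data on the doubly covered surface (`ineqQ`) and on the
outer cone over the edge `b = 1` (`ineqE`) are convex data, with a quartic gain.
-/

set_option autoImplicit false

namespace Pool.Agent.Lib.MP_3a7ba1_an

theorem lin_sq_le (p q h k P Q : ℝ) (hP : 0 ≤ P) (hQ : 0 ≤ Q) (hp : |p| ≤ P) (hq : |q| ≤ Q) :
    (p * h + q * k) ^ 2 ≤ P ^ 2 * h ^ 2 + Q ^ 2 * k ^ 2 + P * Q * (h ^ 2 + k ^ 2) := by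
  have hp2 : p ^ 2 ≤ P ^ 2 := by rw [← sq_abs p]; gcongr
  have hq2 : q ^ 2 ≤ Q ^ 2 := by rw [← sq_abs q]; gcongr
  have hpq : |p * q| ≤ P * Q := by rw [abs_mul]; gcongr
  have h1 : 2 * (p * q) * (h * k) ≤ P * Q * (h ^ 2 + k ^ 2) := by
    have h2 : 2 * (p * q) * (h * k) ≤ |2 * (p * q) * (h * k)| := le_abs_self _
    have h3 : |2 * (p * q) * (h * k)| = |p * q| * (2 * |h * k|) := by
      rw [abs_mul, abs_mul, abs_two]; ring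
    have h4 : 2 * |h * k| ≤ h ^ 2 + k ^ 2 := by
      rw [abs_mul, ← sq_abs h, ← sq_abs k]; nlinarith [sq_nonneg (|h| - |k|)]
    calc 2 * (p * q) * (h * k) ≤ |p * q| * (2 * |h * k|) := by rw [← h3]; exact h2
      _ ≤ P * Q * (h ^ 2 + k ^ 2) := by gcongr
  nlinarith [mul_le_mul_of_nonneg_right hp2 (sq_nonneg h),
    mul_le_mul_of_nonneg_right hq2 (sq_nonneg k)]

theorem sq_le_one' {a : ℝ} (ha : |a| ≤ 1) : a ^ 2 ≤ 1 := by
  rw [← sq_abs]; exact pow_le_one₀ (abs_nonneg a) ha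

theorem coefA (a a' b' : ℝ) (ha : |a| ≤ 1) (ha' : |a'| ≤ 1) (hb' : |b'| ≤ 1) :
    |1 - (a' ^ 2 + a' * a + a ^ 2) / 60 + b' ^ 2 / 20| ≤ 11 / 10 := by
  have h1 := sq_le_one' ha
  have h2 := sq_le_one' ha'
  have h3 := sq_le_one' hb'
  rw [abs_le]; constructor
  · nlinarith [sq_nonneg (a' - a), sq_nonneg b']
  · nlinarith [sq_nonneg (a' + a), sq_nonneg a, sq_nonneg a']

theorem coefB (a b b' : ℝ) (ha : |a| ≤ 1) (hb : |b| ≤ 1) (hb' : |b'| ≤ 1) :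
    |a * (b' + b) / 20| ≤ 1 / 10 := by
  have h1 : |b' + b| ≤ 2 := (abs_add_le _ _).trans (by linarith)
  rw [abs_div, abs_mul, abs_of_pos (by norm_num : (0:ℝ) < 20)]
  have h2 : |a| * |b' + b| ≤ 1 * 2 := by gcongr
  linarith

/-- `|ΔS|^2 ≤ 3.44 (h^2+k^2)` on the square -/
theorem dS_sq_le (a b a' b' : ℝ) (ha : |a| ≤ 1) (hb : |b| ≤ 1) (ha' : |a'| ≤ 1) (hb' : |b'| ≤ 1) :
    (S1 a' b' - S1 a b) ^ 2 + (S2 a' b' - S2 a b) ^ 2 + (S3 a' b' - S3 a b) ^ 2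
      ≤ 86 / 25 * ((a' - a) ^ 2 + (b' - b) ^ 2) := by
  have e1 : S1 a' b' - S1 a b =
      (1 - (a' ^ 2 + a' * a + a ^ 2) / 60 + b' ^ 2 / 20) * (a' - a)
        + (a * (b' + b) / 20) * (b' - b) := by
    simp only [S1]; ring
  have e2 : S2 a' b' - S2 a b =
      (1 - (b' ^ 2 + b' * b + b ^ 2) / 60 + a' ^ 2 / 20) * (b' - b)
        + (b * (a' + a) / 20) * (a' - a) := by
    simp only [S2]; ring
  have e3 : S3 a' b' - S3 a b = b' * (a' - a) + a * (b' - b) := by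
    simp only [S3]; ring
  have k1 := lin_sq_le _ _ (a' - a) (b' - b) _ _ (by norm_num) (by norm_num)
    (coefA a a' b' ha ha' hb') (coefB a b b' ha hb hb')
  have k2 := lin_sq_le _ _ (b' - b) (a' - a) _ _ (by norm_num) (by norm_num)
    (coefA b b' a' hb hb' ha') (coefB b a a' hb ha ha')
  have k3 := lin_sq_le _ _ (a' - a) (b' - b) _ _ (by norm_num) (by norm_num) hb' ha
  rw [e1, e2, e3]
  linarith [k1, k2, k3]

theorem diff_sq_le (a a' : ℝ) (ha : |a| ≤ 1) (ha' : |a'| ≤ 1) : (a' - a) ^ 2 ≤ 4 := by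
  have : |a' - a| ≤ 2 := (abs_sub _ _).trans (by linarith)
  rw [← sq_abs]
  nlinarith [abs_nonneg (a' - a)]

/-- the quartic gain is at most a multiple of `h^2+k^2` -/
theorem dS_four_le (a b a' b' : ℝ) (ha : |a| ≤ 1) (hb : |b| ≤ 1) (ha' : |a'| ≤ 1)
    (hb' : |b'| ≤ 1) :
    1 / 2000 * ((S1 a' b' - S1 a b) ^ 2 + (S2 a' b' - S2 a b) ^ 2
          + (S3 a' b' - S3 a b) ^ 2) ^ 2 ≤ 1 / 20 * ((a' - a) ^ 2 + (b' - b) ^ 2) := by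
  have h1 := dS_sq_le a b a' b' ha hb ha' hb'
  have h2 := diff_sq_le a a' ha ha'
  have h3 := diff_sq_le b b' hb hb'
  have h0 : 0 ≤ (S1 a' b' - S1 a b) ^ 2 + (S2 a' b' - S2 a b) ^ 2 + (S3 a' b' - S3 a b) ^ 2 := by
    positivity
  generalize (S1 a' b' - S1 a b) ^ 2 + (S2 a' b' - S2 a b) ^ 2 + (S3 a' b' - S3 a b) ^ 2 = X at *
  have h5 : 0 ≤ (a' - a) ^ 2 + (b' - b) ^ 2 := by positivity
  have h6 : (a' - a) ^ 2 + (b' - b) ^ 2 ≤ 8 := by linarith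
  generalize (a' - a) ^ 2 + (b' - b) ^ 2 = Y at *
  have h4 : X ^ 2 ≤ (86 / 25 * Y) ^ 2 := by gcongr
  nlinarith

theorem dl_ge (a b : ℝ) (ha : |a| ≤ 1) (hb : |b| ≤ 1) : 9 / 10 ≤ dl a b := by
  have h1 := sq_le_one' ha
  have h2 := sq_le_one' hb
  unfold dl
  linarith

theorem mul_diff_bounds (a a' : ℝ) (ha : |a| ≤ 1) (ha' : |a'| ≤ 1) :
    -2 ≤ a * (a' - a) ∧ a * (a' - a) ≤ 1 / 4 := by
  have h1 := sq_le_one' ha
  have h2 := sq_le_one' ha'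
  constructor
  · nlinarith [sq_nonneg (a + a')]
  · nlinarith [sq_nonneg (a - a' / 2)]

/-- the cubic term -/
theorem cubic_term (t h k m : ℝ) (ht1 : -2 ≤ t) (ht2 : t ≤ 1 / 4) (hm0 : 0 ≤ m) (hm : m ≤ 126 / 25) :
    -(42 / 25 * h ^ 2 + 63 / 100 * k ^ 2) ≤ t * (h ^ 2 - 3 * k ^ 2) / 6 * m := by
  rcases le_total 0 t with h0 | h0
  · have h1 : 0 ≤ t * h ^ 2 * m := by positivity
    have h2 : t * m ≤ 63 / 50 := by nlinarith
    have h3 : t * m * k ^ 2 ≤ 63 / 50 * k ^ 2 := mul_le_mul_of_nonneg_right h2 (sq_nonneg k)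
    nlinarith [sq_nonneg h]
  · have h1 : 0 ≤ (-t) * k ^ 2 * m := by
      have : 0 ≤ -t := by linarith
      positivity
    have h2 : (-t) * m ≤ 252 / 25 := by nlinarith
    have h3 : (-t) * m * h ^ 2 ≤ 252 / 25 * h ^ 2 := mul_le_mul_of_nonneg_right h2 (sq_nonneg h)
    nlinarith [sq_nonneg k]

/-- the quadratic term -/
theorem quad_term (a b h k : ℝ) (ha : |a| ≤ 1) (hb : |b| ≤ 1) :
    -(77 / 50 * (h ^ 2 + k ^ 2)) ≤ (h ^ 2 - k ^ 2) / 2 * (3 * (a ^ 2 - b ^ 2) + (a ^ 4 - b ^ 4) / 25) := by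
  have h1 := sq_le_one' ha
  have h2 := sq_le_one' hb
  have e : 3 * (a ^ 2 - b ^ 2) + (a ^ 4 - b ^ 4) / 25 = (a ^ 2 - b ^ 2) * (3 + (a ^ 2 + b ^ 2) / 25) := by
    ring
  rw [e]
  have h3 : |a ^ 2 - b ^ 2| ≤ 1 := by
    rw [abs_le]; constructor <;> nlinarith [sq_nonneg a, sq_nonneg b]
  have h4 : |3 + (a ^ 2 + b ^ 2) / 25| ≤ 77 / 25 := by
    rw [abs_of_nonneg (by positivity)]; linarith
  have h5 : |(h ^ 2 - k ^ 2) / 2| ≤ (h ^ 2 + k ^ 2) / 2 := by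
    rw [abs_le]; constructor <;> nlinarith [sq_nonneg h, sq_nonneg k]
  have h6 : |(h ^ 2 - k ^ 2) / 2 * ((a ^ 2 - b ^ 2) * (3 + (a ^ 2 + b ^ 2) / 25))|
      ≤ (h ^ 2 + k ^ 2) / 2 * (1 * (77 / 25)) := by
    rw [abs_mul, abs_mul]; gcongr
  have h7 := neg_abs_le ((h ^ 2 - k ^ 2) / 2 * ((a ^ 2 - b ^ 2) * (3 + (a ^ 2 + b ^ 2) / 25)))
  linarith

theorem identQ (a b a' b' : ℝ) (hδ0 : dl a b ≠ 0) :
    ell a' b' - (ell a b + GQ1 a b * (S1 a' b' - S1 a b) + GQ2 a b * (S2 a' b' - S2 a b)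
      + GQ3 a b * (S3 a' b' - S3 a b)) =
      ((a' - a) ^ 2 * (1 - b' ^ 2) + (b' - b) ^ 2 * (1 - a' ^ 2) + (a' - a) ^ 2 * (b' - b) ^ 2)
      + 1 / 2 * ((a' - a) ^ 2 + (b' - b) ^ 2)
      + 1 / 100 * ((a' - a) ^ 2 * (2 * a ^ 2 + (a + a') ^ 2)
        + (b' - b) ^ 2 * (2 * b ^ 2 + (b + b') ^ 2))
      + ((((a' - a) ^ 2 - (b' - b) ^ 2) / 2 * (3 * (a ^ 2 - b ^ 2) + (a ^ 4 - b ^ 4) / 25))
        + (a * (a' - a) * ((a' - a) ^ 2 - 3 * (b' - b) ^ 2) / 6 * (3 + 2 * b ^ 2 + a ^ 2 / 25))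
        + (b * (b' - b) * ((b' - b) ^ 2 - 3 * (a' - a) ^ 2) / 6 * (3 + 2 * a ^ 2 + b ^ 2 / 25)))
        / (10 * dl a b) := by
  simp only [GQ3, GQ1, GQ2]
  field_simp
  simp only [ell, S1, S2, S3, dl]
  ring

theorem ineqQ (a b a' b' : ℝ) (ha : |a| ≤ 1) (hb : |b| ≤ 1) (ha' : |a'| ≤ 1) (hb' : |b'| ≤ 1) :
    ell a b + GQ1 a b * (S1 a' b' - S1 a b) + GQ2 a b * (S2 a' b' - S2 a b)
      + GQ3 a b * (S3 a' b' - S3 a b)
      + 1 / 2000 * ((S1 a' b' - S1 a b) ^ 2 + (S2 a' b' - S2 a b) ^ 2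
          + (S3 a' b' - S3 a b) ^ 2) ^ 2 ≤ ell a' b' := by
  have h4 := dS_four_le a b a' b' ha hb ha' hb'
  have hδ := dl_ge a b ha hb
  have hδ0 : dl a b ≠ 0 := by
    have : 0 < dl a b := by linarith
    exact this.ne'
  have m1 := mul_diff_bounds a a' ha ha'
  have m2 := mul_diff_bounds b b' hb hb'
  have sa := sq_le_one' ha
  have sb := sq_le_one' hb
  have sa' := sq_le_one' ha'
  have sb' := sq_le_one' hb'
  have q1 := quad_term a b (a' - a) (b' - b) ha hb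
  have q2 := cubic_term (a * (a' - a)) (a' - a) (b' - b) (3 + 2 * b ^ 2 + a ^ 2 / 25) m1.1 m1.2
    (by positivity) (by linarith)
  have q3 := cubic_term (b * (b' - b)) (b' - b) (a' - a) (3 + 2 * a ^ 2 + b ^ 2 / 25) m2.1 m2.2
    (by positivity) (by linarith)
  have ident := identQ a b a' b' hδ0
  have hpos1 : 0 ≤ (a' - a) ^ 2 * (1 - b' ^ 2) + (b' - b) ^ 2 * (1 - a' ^ 2)
      + (a' - a) ^ 2 * (b' - b) ^ 2 := by
    have : 0 ≤ 1 - b' ^ 2 := by linarith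
    have : 0 ≤ 1 - a' ^ 2 := by linarith
    positivity
  have hpos2 : 0 ≤ 1 / 100 * ((a' - a) ^ 2 * (2 * a ^ 2 + (a + a') ^ 2)
        + (b' - b) ^ 2 * (2 * b ^ 2 + (b + b') ^ 2)) := by positivity
  have hbr : -(77 / 20 * ((a' - a) ^ 2 + (b' - b) ^ 2)) ≤ 
      ((((a' - a) ^ 2 - (b' - b) ^ 2) / 2 * (3 * (a ^ 2 - b ^ 2) + (a ^ 4 - b ^ 4) / 25))
        + (a * (a' - a) * ((a' - a) ^ 2 - 3 * (b' - b) ^ 2) / 6 * (3 + 2 * b ^ 2 + a ^ 2 / 25))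
        + (b * (b' - b) * ((b' - b) ^ 2 - 3 * (a' - a) ^ 2) / 6 * (3 + 2 * a ^ 2 + b ^ 2 / 25))) := by
    linarith
  have hY : 0 ≤ (a' - a) ^ 2 + (b' - b) ^ 2 := by positivity
  have hbr2 : -(77 / 180 * ((a' - a) ^ 2 + (b' - b) ^ 2)) ≤ 
      ((((a' - a) ^ 2 - (b' - b) ^ 2) / 2 * (3 * (a ^ 2 - b ^ 2) + (a ^ 4 - b ^ 4) / 25))
        + (a * (a' - a) * ((a' - a) ^ 2 - 3 * (b' - b) ^ 2) / 6 * (3 + 2 * b ^ 2 + a ^ 2 / 25))
        + (b * (b' - b) * ((b' - b) ^ 2 - 3 * (a' - a) ^ 2) / 6 * (3 + 2 * a ^ 2 + b ^ 2 / 25)))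
        / (10 * dl a b) := by
    rw [le_div_iff₀ (by linarith)]
    refine le_trans ?_ hbr
    have h9 := mul_nonneg hY (sub_nonneg.2 hδ)
    generalize (a' - a) ^ 2 + (b' - b) ^ 2 = Y at *
    linarith
  linarith

/-- the bracket for the edge inequality -/
theorem bracketE (a a' b' : ℝ) (ha : |a| ≤ 1) (ha' : |a'| ≤ 1) (hb' : |b'| ≤ 1) :
    4 ≤ -(1 + b') * (1 - a' ^ 2) - (1 + b') * (1 / 2 + (1 + b' ^ 2) / 100)
      + GE1 a * a' * (1 + b') / 20 + GE2 a * (1 - (1 + b' + b' ^ 2) / 60 + a' ^ 2 / 20)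
      + GE3 a * a' := by
  have sa := sq_le_one' ha
  have sb' := sq_le_one' hb'
  have sa' := sq_le_one' ha'
  have hb2 := (abs_le.1 hb').1
  have hb3 := (abs_le.1 hb').2
  have haa : |a * a'| ≤ |a'| := by
    rw [abs_mul]; nlinarith [abs_nonneg a']
  have t1 : -(2 * (1 - a' ^ 2)) ≤ -(1 + b') * (1 - a' ^ 2) := by nlinarith
  have t2 : -(26 / 25) ≤ -((1 + b') * (1 / 2 + (1 + b' ^ 2) / 100)) := by nlinarith
  have t3 : -(6 / 25 * |a'|) ≤ GE1 a * a' * (1 + b') / 20 := by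
    have e : GE1 a * a' * (1 + b') / 20 = -((a * a') * ((1 + b') * (3 / 25))) := by
      simp only [GE1]; ring
    rw [e]
    have h1 : |(a * a') * ((1 + b') * (3 / 25))| ≤ |a'| * (2 * (3 / 25)) := by
      rw [abs_mul]
      have : |(1 + b') * (3 / 25)| ≤ 2 * (3 / 25) := by
        rw [abs_of_nonneg (by linarith)]; linarith
      gcongr
    have h2 := le_abs_self ((a * a') * ((1 + b') * (3 / 25)))
    linarith
  have t4 : 44 / 5 * (19 / 20 + a' ^ 2 / 20) ≤ GE2 a * (1 - (1 + b' + b' ^ 2) / 60 + a' ^ 2 / 20) := by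
    have h1 : 44 / 5 ≤ GE2 a := by simp only [GE2]; linarith
    have h2 : 19 / 20 + a' ^ 2 / 20 ≤ 1 - (1 + b' + b' ^ 2) / 60 + a' ^ 2 / 20 := by linarith
    have h3 : 0 ≤ 19 / 20 + a' ^ 2 / 20 := by positivity
    exact mul_le_mul h1 h2 h3 (by linarith)
  have t5 : -(64 / 25 * |a'|) ≤ GE3 a * a' := by
    have e : GE3 a * a' = (a * a') * ((63 + a ^ 2) / 25) := by
      simp only [GE3]; ring
    rw [e]
    have h1 : |(a * a') * ((63 + a ^ 2) / 25)| ≤ |a'| * (64 / 25) := by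
      rw [abs_mul]
      have : |(63 + a ^ 2) / 25| ≤ 64 / 25 := by
        rw [abs_of_nonneg (by positivity)]; linarith
      gcongr
    have h2 := neg_abs_le ((a * a') * ((63 + a ^ 2) / 25))
    linarith
  have e6 : a' ^ 2 = |a'| ^ 2 := (sq_abs a').symm
  nlinarith [sq_nonneg (|a'| - 7 / 12)]

theorem sq_split (P Q : ℝ) : (P + Q) ^ 2 ≤ 3 / 2 * P ^ 2 + 3 * Q ^ 2 := by
  nlinarith [sq_nonneg (P - 2 * Q)]

theorem splitE (a a' b' : ℝ) (ha : |a| ≤ 1) (ha' : |a'| ≤ 1) (hb' : |b'| ≤ 1) :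
    (S1 a' b' - S1 a 1) ^ 2 + (S2 a' b' - S2 a 1) ^ 2 + (S3 a' b' - S3 a 1) ^ 2 ≤
      3 / 2 * (9 / 4 * (a' - a) ^ 2) + 3 * (86 / 25 * (1 - b') ^ 2) := by
  -- split of ΔS
  have hP : (S1 a' 1 - S1 a 1) ^ 2 + (S2 a' 1 - S2 a 1) ^ 2 + (S3 a' 1 - S3 a 1) ^ 2
      ≤ 9 / 4 * (a' - a) ^ 2 := by
    have e1 : S1 a' 1 - S1 a 1 = (21 / 20 - (a' ^ 2 + a' * a + a ^ 2) / 60) * (a' - a) := by
      simp only [S1]; ring
    have e2 : S2 a' 1 - S2 a 1 = (a' + a) / 20 * (a' - a) := by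
      simp only [S2]; ring
    have e3 : S3 a' 1 - S3 a 1 = a' - a := by simp only [S3]; ring
    have c1 : (21 / 20 - (a' ^ 2 + a' * a + a ^ 2) / 60) ^ 2 ≤ (21 / 20) ^ 2 := by
      have h2 := sq_le_one' ha
      have h3 := sq_le_one' ha'
      apply sq_le_sq'
      · nlinarith [sq_nonneg (a' - a)]
      · nlinarith [sq_nonneg (a' + a), sq_nonneg a, sq_nonneg a']
    have c2 : ((a' + a) / 20) ^ 2 ≤ 1 / 100 := by
      have h2 := sq_le_one' ha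
      have h3 := sq_le_one' ha'
      nlinarith [sq_nonneg (a' - a)]
    rw [e1, e2, e3, mul_pow, mul_pow]
    nlinarith [mul_le_mul_of_nonneg_right c1 (sq_nonneg (a' - a)),
      mul_le_mul_of_nonneg_right c2 (sq_nonneg (a' - a))]
  have hQ : (S1 a' b' - S1 a' 1) ^ 2 + (S2 a' b' - S2 a' 1) ^ 2 + (S3 a' b' - S3 a' 1) ^ 2
      ≤ 86 / 25 * (1 - b') ^ 2 := by
    have := dS_sq_le a' 1 a' b' ha' (by norm_num) ha' hb'
    nlinarith [this]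
  have s1 := sq_split (S1 a' 1 - S1 a 1) (S1 a' b' - S1 a' 1)
  have s2 := sq_split (S2 a' 1 - S2 a 1) (S2 a' b' - S2 a' 1)
  have s3 := sq_split (S3 a' 1 - S3 a 1) (S3 a' b' - S3 a' 1)
  have f1 : S1 a' 1 - S1 a 1 + (S1 a' b' - S1 a' 1) = S1 a' b' - S1 a 1 := by ring
  have f2 : S2 a' 1 - S2 a 1 + (S2 a' b' - S2 a' 1) = S2 a' b' - S2 a 1 := by ring
  have f3 : S3 a' 1 - S3 a 1 + (S3 a' b' - S3 a' 1) = S3 a' b' - S3 a 1 := by ring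
  rw [f1] at s1
  rw [f2] at s2
  rw [f3] at s3
  linarith

theorem ineqE (a a' b' : ℝ) (ha : |a| ≤ 1) (ha' : |a'| ≤ 1) (hb' : |b'| ≤ 1) :
    ell a 1 + GE1 a * (S1 a' b' - S1 a 1) + GE2 a * (S2 a' b' - S2 a 1)
      + GE3 a * (S3 a' b' - S3 a 1)
      + 1 / 2000 * ((S1 a' b' - S1 a 1) ^ 2 + (S2 a' b' - S2 a 1) ^ 2
          + (S3 a' b' - S3 a 1) ^ 2) ^ 2 ≤ ell a' b' := by
  have ident : ell a' b' - (ell a 1 + GE1 a * (S1 a' b' - S1 a 1) + GE2 a * (S2 a' b' - S2 a 1)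
      + GE3 a * (S3 a' b' - S3 a 1)) = 1 / 100 * (a' - a) ^ 4 + (1 - b') *
      (-(1 + b') * (1 - a' ^ 2) - (1 + b') * (1 / 2 + (1 + b' ^ 2) / 100)
      + GE1 a * a' * (1 + b') / 20 + GE2 a * (1 - (1 + b' + b' ^ 2) / 60 + a' ^ 2 / 20)
      + GE3 a * a') := by
    simp only [ell, GE1, GE2, GE3, S1, S2, S3]
    ring
  have hbr := bracketE a a' b' ha ha' hb'
  have h1b : 0 ≤ 1 - b' := by linarith [(abs_le.1 hb').2]
  have hbr2 : (1 - b') * 4 ≤ (1 - b') *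
      (-(1 + b') * (1 - a' ^ 2) - (1 + b') * (1 / 2 + (1 + b' ^ 2) / 100)
      + GE1 a * a' * (1 + b') / 20 + GE2 a * (1 - (1 + b' + b' ^ 2) / 60 + a' ^ 2 / 20)
      + GE3 a * a') := mul_le_mul_of_nonneg_left hbr h1b
  have hPQ := splitE a a' b' ha ha' hb'
  have h0 : 0 ≤ (S1 a' b' - S1 a 1) ^ 2 + (S2 a' b' - S2 a 1) ^ 2 + (S3 a' b' - S3 a 1) ^ 2 := by
    positivity
  generalize (S1 a' b' - S1 a 1) ^ 2 + (S2 a' b' - S2 a 1) ^ 2 + (S3 a' b' - S3 a 1) ^ 2 = X at *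
  have h5 : X ^ 2 ≤ 3 / 2 * (3 / 2 * (9 / 4 * (a' - a) ^ 2)) ^ 2
      + 3 * (3 * (86 / 25 * (1 - b') ^ 2)) ^ 2 :=
    (pow_le_pow_left₀ h0 hPQ 2).trans (sq_split _ _)
  have h6 : (1 - b') ^ 4 ≤ 8 * (1 - b') := by
    have h7 : 1 - b' ≤ 2 := by linarith [(abs_le.1 hb').1]
    have h8 : (1 - b') ^ 3 ≤ 2 ^ 3 := by gcongr
    nlinarith
  have h7 : (a' - a) ^ 4 ≥ 0 := by positivity
  have h9 : 1 / 2000 * X ^ 2 ≤ 1 / 100 * (a' - a) ^ 4 + (1 - b') * 4 := by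
    nlinarith
  linarith

end Pool.Agent.Lib.MP_3a7ba1_an
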