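import Mathlib
import Pool.Agent.Lib.MP_3a7ba1_an.Defs

set_option autoImplicit false

namespace Pool.Agent.Lib.MP_3a7ba1_an

open MeasureTheory Metric Set Filter Function ContinuousLinearMap
open scoped Convolution Topology

/-- the derivative of a mollified Lipschitz function is the mollified derivative -/
theorem hasFDerivAt_conv (ρ : ContDiffBump (0 : V)) {φ : V → ℝ} {M : NNReal}
    (hφ : LipschitzWith M φ) (x : V) :
    HasFDerivAt (ρ.normed volume ⋆[lsmul ℝ ℝ, volume] φ)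
      ((ρ.normed volume ⋆[lsmul ℝ ℝ, volume] fderiv ℝ φ) x) x := by
  have h := hasFDerivAt_integral_of_dominated_loc_of_lip (𝕜 := ℝ) (μ := (volume : Measure V))
    (s := univ) (x₀ := x)
    (bound := fun t => ρ.normed volume t * M) (F := fun x t => ρ.normed volume t • φ (x - t))
    (F' := fun t => ρ.normed volume t • fderiv ℝ φ (x - t)) univ_mem ?_ ?_ ?_ ?_ ?_ ?_
  · exact h.2
  · refine Eventually.of_forall fun y => Continuous.aestronglyMeasurable ?_
    exact ρ.continuous_normed.smul (hφ.continuous.comp (continuous_const.sub continuous_id))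
  · refine Continuous.integrable_of_hasCompactSupport ?_ ?_
    · exact ρ.continuous_normed.smul (hφ.continuous.comp (continuous_const.sub continuous_id))
    · exact ρ.hasCompactSupport_normed.smul_right
  · refine (ρ.continuous_normed.aestronglyMeasurable).smul ?_
    exact ((measurable_fderiv ℝ φ).comp (measurable_const.sub measurable_id)).aestronglyMeasurable
  · refine Eventually.of_forall fun t => ?_
    refine LipschitzOnWith.of_dist_le_mul fun y _ z _ => ?_
    have h1 := hφ.dist_le_mul (y - t) (z - t)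
    rw [dist_sub_right] at h1
    rw [Real.dist_eq] at h1
    simp only [Real.dist_eq, smul_eq_mul, ← mul_sub, abs_mul, Real.coe_nnabs]
    rw [mul_assoc]
    refine mul_le_mul_of_nonneg_left ?_ (abs_nonneg _)
    rw [abs_of_nonneg (NNReal.coe_nonneg M)]
    exact h1
  · exact ρ.integrable_normed.mul_const M
  · have h1 : ∀ᵐ t : V, DifferentiableAt ℝ φ (x - t) :=
      (Measure.measurePreserving_sub_left (volume : Measure V) x).quasiMeasurePreserving.ae
        hφ.ae_differentiableAt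
    filter_upwards [h1] with t ht
    have h2 : HasFDerivAt (fun y : V => y - t) (ContinuousLinearMap.id ℝ V) x :=
      (hasFDerivAt_id x).sub_const t
    have h3 := ht.hasFDerivAt.comp x h2
    rw [ContinuousLinearMap.comp_id] at h3
    exact h3.const_smul (ρ.normed volume t)

theorem locallyIntegrable_fderiv {φ : V → ℝ} {M : NNReal} (hφ : LipschitzWith M φ) :
    LocallyIntegrable (fderiv ℝ φ) (volume : Measure V) := by
  rw [locallyIntegrable_iff]
  intro k hk
  refine Measure.integrableOn_of_bounded (M := M) hk.measure_lt_top.ne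
    (measurable_fderiv ℝ φ).aestronglyMeasurable ?_
  exact Eventually.of_forall fun x => norm_fderiv_le_of_lipschitz ℝ hφ

theorem norm_conv_fderiv_le (ρ : ContDiffBump (0 : V)) {φ : V → ℝ} {M : NNReal}
    (hφ : LipschitzWith M φ) (x : V) :
    ‖(ρ.normed volume ⋆[lsmul ℝ ℝ, volume] fderiv ℝ φ) x‖ ≤ M := by
  have h1 : ‖∫ t, ρ.normed volume t • fderiv ℝ φ (x - t)‖ ≤ ∫ t, ρ.normed (volume : Measure V) t * M := by
    refine norm_integral_le_of_norm_le (ρ.integrable_normed.mul_const (M : ℝ)) ?_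
    refine Eventually.of_forall fun t => ?_
    rw [norm_smul, Real.norm_of_nonneg (ρ.nonneg_normed t)]
    exact mul_le_mul_of_nonneg_left (norm_fderiv_le_of_lipschitz ℝ hφ) (ρ.nonneg_normed t)
  rw [integral_mul_const, ρ.integral_normed, one_mul] at h1
  exact h1

theorem conv_fderiv_eq_zero (ρ : ContDiffBump (0 : V)) {φ : V → ℝ} {R : ℝ}
    (hR : ∀ x, R < ‖x‖ → fderiv ℝ φ x = 0) (hρ : ρ.rOut ≤ 1) (x : V) (hx : R + 1 < ‖x‖) :
    (ρ.normed volume ⋆[lsmul ℝ ℝ, volume] fderiv ℝ φ) x = 0 := by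
  change ∫ t, ρ.normed volume t • fderiv ℝ φ (x - t) = 0
  have h : (fun t => ρ.normed (volume : Measure V) t • fderiv ℝ φ (x - t)) = fun _ => 0 := by
    funext t
    by_cases ht : t ∈ Function.support (ρ.normed (volume : Measure V))
    · rw [ρ.support_normed_eq, mem_ball_zero_iff] at ht
      rw [hR (x - t), smul_zero]
      have := norm_sub_norm_le x t
      linarith
    · rw [notMem_support.1 ht, zero_smul]
  rw [h, integral_zero]

/-- extension of the weak divergence condition from smooth to Lipschitz test functions -/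
theorem integral_inner_gradient_eq_zero (G : V → V) (B : ℝ)
    (hGm : AEStronglyMeasurable G (volume : Measure V)) (hGB : ∀ᵐ x ∂(volume : Measure V), ‖G x‖ ≤ B)
    (hdiv : ∀ ψ : V → ℝ, ContDiff ℝ (⊤ : ℕ∞) ψ → HasCompactSupport ψ →
      ∫ x, inner ℝ (G x) (gradient ψ x) = 0)
    (φ : V → ℝ) (M : NNReal) (hφ : LipschitzWith M φ) (hc : HasCompactSupport φ) :
    ∫ x, inner ℝ (G x) (gradient φ x) = 0 := by
  obtain ⟨bump, hb1, hb2, hb3⟩ : ∃ bump : ℕ → ContDiffBump (0 : V),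
      Tendsto (fun n => (bump n).rOut) atTop (𝓝 0) ∧ (∀ n, (bump n).rOut ≤ 2 * (bump n).rIn) ∧
      ∀ n, (bump n).rOut ≤ 1 := by
    refine ⟨fun n => ⟨1 / 2 / ((n : ℝ) + 1), 1 / ((n : ℝ) + 1), by positivity, ?_⟩, ?_, ?_, ?_⟩
    · apply div_lt_div_of_pos_right (by norm_num) (by positivity)
    · exact tendsto_one_div_add_atTop_nhds_zero_nat
    · intro n
      change 1 / ((n : ℝ) + 1) ≤ 2 * (1 / 2 / ((n : ℝ) + 1))
      apply le_of_eq; ring
    · intro n
      change 1 / ((n : ℝ) + 1) ≤ 1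
      rw [div_le_one (by positivity)]
      linarith [(Nat.cast_nonneg n : (0 : ℝ) ≤ n)]
  -- support
  obtain ⟨R, hR⟩ : ∃ R : ℝ, ∀ x, R < ‖x‖ → fderiv ℝ φ x = 0 := by
    obtain ⟨R, hR⟩ := hc.isBounded.subset_closedBall (0 : V)
    refine ⟨R, fun x hx => ?_⟩
    have : x ∉ tsupport φ := fun h => by
      have := hR h
      rw [mem_closedBall_zero_iff] at this
      linarith
    exact notMem_support.1 fun h => this (support_fderiv_subset ℝ h)
  have hM : ∀ x, ‖fderiv ℝ φ x‖ ≤ M := fun x => norm_fderiv_le_of_lipschitz ℝ hφ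
  set D : ℕ → V → (V →L[ℝ] ℝ) := fun n x =>
    ((bump n).normed volume ⋆[lsmul ℝ ℝ, volume] fderiv ℝ φ) x with hDdef
  have hlim : ∀ᵐ x : V, Tendsto (fun n => D n x) atTop (𝓝 (fderiv ℝ φ x)) :=
    ContDiffBump.ae_convolution_tendsto_right_of_locallyIntegrable hb1
      (Eventually.of_forall hb2) (locallyIntegrable_fderiv hφ)
  set J : (V →L[ℝ] ℝ) → V := fun l => (InnerProductSpace.toDual ℝ V).symm l with hJ
  have hJc : Continuous J := (InnerProductSpace.toDual ℝ V).symm.continuous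
  have hJn : ∀ l, ‖J l‖ = ‖l‖ := fun l => (InnerProductSpace.toDual ℝ V).symm.norm_map l
  -- each approximating integral vanishes
  have hzero : ∀ n, ∫ x, inner ℝ (G x) (J (D n x)) = 0 := by
    intro n
    have hsm : ContDiff ℝ (⊤ : ℕ∞) ((bump n).normed volume ⋆[lsmul ℝ ℝ, volume] φ) :=
      (bump n).hasCompactSupport_normed.contDiff_convolution_left _ (bump n).contDiff_normed
        hφ.continuous.locallyIntegrable
    have hcs : HasCompactSupport ((bump n).normed volume ⋆[lsmul ℝ ℝ, volume] φ) :=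
      (bump n).hasCompactSupport_normed.convolution _ hc
    have h := hdiv _ hsm hcs
    rw [← h]
    refine integral_congr_ae (Eventually.of_forall fun x => ?_)
    change inner ℝ (G x) (J (D n x)) = inner ℝ (G x) (gradient _ x)
    rw [gradient, (hasFDerivAt_conv (bump n) hφ x).fderiv]
  have hDm : ∀ n, AEStronglyMeasurable (D n) (volume : Measure V) := by
    intro n
    have : D n = fderiv ℝ ((bump n).normed volume ⋆[lsmul ℝ ℝ, volume] φ) := by
      funext x
      exact (hasFDerivAt_conv (bump n) hφ x).fderiv.symm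
    rw [this]
    exact (measurable_fderiv ℝ _).aestronglyMeasurable
  have htend : Tendsto (fun n => ∫ x, inner ℝ (G x) (J (D n x))) atTop
      (𝓝 (∫ x, inner ℝ (G x) (gradient φ x))) := by
    refine tendsto_integral_of_dominated_convergence
      (fun x => (closedBall (0 : V) (R + 1)).indicator (fun _ => B * M) x) ?_ ?_ ?_ ?_
    · intro n
      exact hGm.inner (hJc.comp_aestronglyMeasurable (hDm n))
    · refine (integrable_indicator_iff measurableSet_closedBall).2 ?_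
      exact integrableOn_const (isCompact_closedBall (0 : V) (R + 1)).measure_lt_top.ne
    · intro n
      filter_upwards [hGB] with x hx
      by_cases hxR : x ∈ closedBall (0 : V) (R + 1)
      · rw [indicator_of_mem hxR]
        refine (norm_inner_le_norm _ _).trans ?_
        rw [hJn]
        exact mul_le_mul hx (norm_conv_fderiv_le _ hφ x) (norm_nonneg _)
          ((norm_nonneg _).trans hx)
      · rw [indicator_of_notMem hxR]
        rw [mem_closedBall_zero_iff, not_le] at hxR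
        have : D n x = 0 := conv_fderiv_eq_zero (bump n) hR (hb3 n) x hxR
        rw [this]
        simp [hJ]
    · filter_upwards [hlim] with x hx
      have h1 : Tendsto (fun n => J (D n x)) atTop (𝓝 (J (fderiv ℝ φ x))) :=
        (hJc.tendsto _).comp hx
      exact tendsto_const_nhds.inner h1
  have : (fun n => ∫ x, inner ℝ (G x) (J (D n x))) = fun _ => 0 := funext hzero
  rw [this] at htend
  exact (tendsto_nhds_unique htend tendsto_const_nhds)

/-- uniform convexity of the fourth power of the norm -/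
theorem norm_four_convex (x y : V) (a b : ℝ) (ha : 0 ≤ a) (hb : 0 ≤ b) (hab : a + b = 1) :
    ‖a • x + b • y‖ ^ 4 + 1 / 16 * (a * b) * ‖x - y‖ ^ 4 ≤ a * ‖x‖ ^ 4 + b * ‖y‖ ^ 4 := by
  have hb' : b = 1 - a := by linarith
  have e1 : ‖a • x + b • y‖ ^ 2 = a * ‖x‖ ^ 2 + b * ‖y‖ ^ 2 - a * b * ‖x - y‖ ^ 2 := by
    rw [norm_add_sq_real, norm_sub_sq_real, norm_smul, norm_smul, inner_smul_left,
      inner_smul_right, mul_pow, mul_pow, Real.norm_eq_abs, Real.norm_eq_abs, sq_abs, sq_abs]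
    simp only [conj_trivial]
    rw [hb']; ring
  have e2 : ‖x - y‖ ^ 2 ≤ 2 * (‖x‖ ^ 2 + ‖y‖ ^ 2) := by
    have h := norm_sub_le x y
    nlinarith [norm_nonneg (x - y), norm_nonneg x, norm_nonneg y, sq_nonneg (‖x‖ - ‖y‖)]
  have e3 : 0 ≤ ‖a • x + b • y‖ ^ 2 := sq_nonneg _
  have f1 : ‖a • x + b • y‖ ^ 4 = (‖a • x + b • y‖ ^ 2) ^ 2 := by ring
  have f2 : ‖x - y‖ ^ 4 = (‖x - y‖ ^ 2) ^ 2 := by ring
  have f3 : ‖x‖ ^ 4 = (‖x‖ ^ 2) ^ 2 := by ring
  have f4 : ‖y‖ ^ 4 = (‖y‖ ^ 2) ^ 2 := by ring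
  rw [f1, f2, f3, f4, e1]
  rw [e1] at e3
  have hX : 0 ≤ ‖x‖ ^ 2 := sq_nonneg _
  have hY : 0 ≤ ‖y‖ ^ 2 := sq_nonneg _
  have hD : 0 ≤ ‖x - y‖ ^ 2 := sq_nonneg _
  generalize ‖x‖ ^ 2 = X at *
  generalize ‖y‖ ^ 2 = Y at *
  generalize ‖x - y‖ ^ 2 = D at *
  subst hb'
  have ha1 : a ≤ 1 := by linarith
  -- M = aX+bY ≥ abD
  have key : D ^ 2 / 16 ≤ (X - Y) ^ 2 + (a * X + (1 - a) * Y) * D := by
    rcases le_total X Y with h | h
    · have h1 : X ≤ a * X + (1 - a) * Y := by nlinarith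
      have h2 : X * D ≤ (a * X + (1 - a) * Y) * D := mul_le_mul_of_nonneg_right h1 hD
      nlinarith [sq_nonneg (D - 8 * (Y - X)), mul_nonneg hX hD]
    · have h1 : Y ≤ a * X + (1 - a) * Y := by nlinarith
      have h2 : Y * D ≤ (a * X + (1 - a) * Y) * D := mul_le_mul_of_nonneg_right h1 hD
      nlinarith [sq_nonneg (D - 8 * (X - Y)), mul_nonneg hY hD]
  have hp : 0 ≤ a * (1 - a) := mul_nonneg ha hb
  have k1 : a * (1 - a) * (D ^ 2 / 16) ≤ a * (1 - a) * ((X - Y) ^ 2 + (a * X + (1 - a) * Y) * D) :=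
    mul_le_mul_of_nonneg_left key hp
  have k2 : a * (1 - a) * D * (a * (1 - a) * D) ≤ a * (1 - a) * D * (a * X + (1 - a) * Y) :=
    mul_le_mul_of_nonneg_left (by linarith) (mul_nonneg hp hD)
  nlinarith

section Lagrangian

variable {ι : Type} (s g : ι → V) (ℓ : ι → ℝ) (c : ℝ)

/-- one member of the family -/
noncomputable def Fm (i : ι) (q : V) : ℝ := ℓ i + inner ℝ (g i) (q - s i) + c * ‖q - s i‖ ^ 4

/-- the Lagrangian -/
noncomputable def Lag (q : V) : ℝ := ⨆ i, Fm s g ℓ c i q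

theorem Fm_convex (hc : 0 ≤ c) (i : ι) (x y : V) (a b : ℝ) (ha : 0 ≤ a) (hb : 0 ≤ b)
    (hab : a + b = 1) :
    Fm s g ℓ c i (a • x + b • y) + c / 16 * (a * b) * ‖x - y‖ ^ 4
      ≤ a * Fm s g ℓ c i x + b * Fm s g ℓ c i y := by
  have h := norm_four_convex (x - s i) (y - s i) a b ha hb hab
  have e1 : a • (x - s i) + b • (y - s i) = a • x + b • y - s i := by
    rw [smul_sub, smul_sub]
    have : (a • x - a • s i + (b • y - b • s i)) = a • x + b • y - (a + b) • s i := by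
      rw [add_smul]; abel
    rw [this, hab, one_smul]
  have e2 : x - s i - (y - s i) = x - y := by abel
  rw [e1, e2] at h
  have e3 : inner ℝ (g i) (a • x + b • y - s i)
      = a * inner ℝ (g i) (x - s i) + b * inner ℝ (g i) (y - s i) := by
    rw [← e1, inner_add_right, inner_smul_right, inner_smul_right]
  simp only [Fm]
  rw [e3]
  have h2 := mul_le_mul_of_nonneg_left h hc
  have h3 : ℓ i = a * ℓ i + b * ℓ i := by rw [← add_mul, hab, one_mul]
  nlinarith

theorem Fm_le (B : ℝ) (hs : ∀ i, ‖s i‖ ≤ B) (hg : ∀ i, ‖g i‖ ≤ B) (hℓ : ∀ i, |ℓ i| ≤ B)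
    (hc : 0 ≤ c) (i : ι) (q : V) :
    Fm s g ℓ c i q ≤ B + B * (‖q‖ + B) + c * (‖q‖ + B) ^ 4 := by
  have h1 : ‖q - s i‖ ≤ ‖q‖ + B := (norm_sub_le _ _).trans (by linarith [hs i])
  have h2 : inner ℝ (g i) (q - s i) ≤ B * (‖q‖ + B) := by
    refine (real_inner_le_norm _ _).trans ?_
    exact mul_le_mul (hg i) h1 (norm_nonneg _) ((norm_nonneg _).trans (hg i))
  have h3 : c * ‖q - s i‖ ^ 4 ≤ c * (‖q‖ + B) ^ 4 := by gcongr
  have h4 := (abs_le.1 (hℓ i)).2
  simp only [Fm]
  linarith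

theorem Fm_bdd (B : ℝ) (hs : ∀ i, ‖s i‖ ≤ B) (hg : ∀ i, ‖g i‖ ≤ B) (hℓ : ∀ i, |ℓ i| ≤ B)
    (hc : 0 ≤ c) (q : V) : BddAbove (range fun i => Fm s g ℓ c i q) := by
  refine ⟨B + B * (‖q‖ + B) + c * (‖q‖ + B) ^ 4, ?_⟩
  rintro _ ⟨i, rfl⟩
  exact Fm_le s g ℓ c B hs hg hℓ hc i q

theorem Lag_convex [Nonempty ι] (B : ℝ) (hs : ∀ i, ‖s i‖ ≤ B) (hg : ∀ i, ‖g i‖ ≤ B)
    (hℓ : ∀ i, |ℓ i| ≤ B) (hc : 0 ≤ c) (x y : V) (a b : ℝ) (ha : 0 ≤ a) (hb : 0 ≤ b)
    (hab : a + b = 1) :
    Lag s g ℓ c (a • x + b • y) + c / 16 * (a * b) * ‖x - y‖ ^ 4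
      ≤ a * Lag s g ℓ c x + b * Lag s g ℓ c y := by
  have h : Lag s g ℓ c (a • x + b • y) ≤
      a * Lag s g ℓ c x + b * Lag s g ℓ c y - c / 16 * (a * b) * ‖x - y‖ ^ 4 := by
    refine ciSup_le fun i => ?_
    have h1 := Fm_convex s g ℓ c hc i x y a b ha hb hab
    have h2 : Fm s g ℓ c i x ≤ Lag s g ℓ c x := le_ciSup (Fm_bdd s g ℓ c B hs hg hℓ hc x) i
    have h3 : Fm s g ℓ c i y ≤ Lag s g ℓ c y := le_ciSup (Fm_bdd s g ℓ c B hs hg hℓ hc y) i
    have h4 := mul_le_mul_of_nonneg_left h2 ha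
    have h5 := mul_le_mul_of_nonneg_left h3 hb
    linarith
  linarith

theorem Lag_strictConvexOn [Nonempty ι] (B : ℝ) (hs : ∀ i, ‖s i‖ ≤ B) (hg : ∀ i, ‖g i‖ ≤ B)
    (hℓ : ∀ i, |ℓ i| ≤ B) (hc : 0 < c) : StrictConvexOn ℝ univ (Lag s g ℓ c) := by
  refine ⟨convex_univ, fun x _ y _ hxy a b ha hb hab => ?_⟩
  have h := Lag_convex s g ℓ c B hs hg hℓ hc.le x y a b ha.le hb.le hab
  have h1 : 0 < ‖x - y‖ := norm_pos_iff.2 (sub_ne_zero.2 hxy)
  have h2 : 0 < c / 16 * (a * b) * ‖x - y‖ ^ 4 := by positivity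
  simp only [smul_eq_mul]
  linarith

theorem Lag_continuous [Nonempty ι] (B : ℝ) (hs : ∀ i, ‖s i‖ ≤ B) (hg : ∀ i, ‖g i‖ ≤ B)
    (hℓ : ∀ i, |ℓ i| ≤ B) (hc : 0 < c) : Continuous (Lag s g ℓ c) :=
  (Lag_strictConvexOn s g ℓ c B hs hg hℓ hc).convexOn.locallyLipschitz.continuous

theorem Lag_ge (B : ℝ) (hs : ∀ i, ‖s i‖ ≤ B) (hg : ∀ i, ‖g i‖ ≤ B)
    (hℓ : ∀ i, |ℓ i| ≤ B) (hc : 0 ≤ c) (i : ι) (q : V) :
    ℓ i + inner ℝ (g i) (q - s i) ≤ Lag s g ℓ c q := by
  have h3 : Fm s g ℓ c i q ≤ Lag s g ℓ c q := le_ciSup (Fm_bdd s g ℓ c B hs hg hℓ hc q) i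
  have h4 : 0 ≤ c * ‖q - s i‖ ^ 4 := by positivity
  simp only [Fm] at h3
  linarith

theorem Lag_at [Nonempty ι] (B : ℝ) (hs : ∀ i, ‖s i‖ ≤ B) (hg : ∀ i, ‖g i‖ ≤ B)
    (hℓ : ∀ i, |ℓ i| ≤ B) (hc : 0 ≤ c)
    (hD : ∀ i j, ℓ i + inner ℝ (g i) (s j - s i) + c * ‖s j - s i‖ ^ 4 ≤ ℓ j) (j : ι) :
    Lag s g ℓ c (s j) = ℓ j := by
  apply le_antisymm
  · exact ciSup_le fun i => hD i j
  · have := Lag_ge s g ℓ c B hs hg hℓ hc j (s j)
    simpa using this

end Lagrangian


theorem measurable_gradient (u : V → ℝ) : Measurable (gradient u) :=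
  (InnerProductSpace.toDual ℝ V).symm.continuous.measurable.comp (measurable_fderiv ℝ u)

theorem norm_gradient_le {u : V → ℝ} {K : NNReal} (hu : LipschitzWith K u) (x : V) :
    ‖gradient u x‖ ≤ K := by
  rw [gradient, LinearIsometryEquiv.norm_map]
  exact norm_fderiv_le_of_lipschitz ℝ hu

theorem integrableOn_Lag_gradient {L : V → ℝ} (hL : Continuous L) {u : V → ℝ} {K : NNReal}
    (hu : LipschitzWith K u) : IntegrableOn (fun x => L (gradient u x)) (ball (0 : V) 1) := by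
  obtain ⟨C, hC⟩ := (isCompact_closedBall (0 : V) K).exists_bound_of_continuousOn hL.continuousOn
  refine Measure.integrableOn_of_bounded (M := C) measure_ball_lt_top.ne
    (hL.measurable.comp (measurable_gradient u)).aestronglyMeasurable ?_
  refine Eventually.of_forall fun x => hC _ ?_
  rw [mem_closedBall_zero_iff]
  exact norm_gradient_le hu x

/-- A family of data `(s i, g i, ℓ i)` satisfying uniformly strict subgradient inequalities,
together with a divergence free selection of subgradients along a Lipschitz function which is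
not differentiable at the origin, refutes the frozen statement. -/
theorem of_data {ι : Type} (s g : ι → V) (ℓ : ι → ℝ) (B : ℝ)
    (hs : ∀ i, ‖s i‖ ≤ B) (hg : ∀ i, ‖g i‖ ≤ B) (hℓ : ∀ i, |ℓ i| ≤ B)
    (c : ℝ) (hc : 0 < c)
    (hD : ∀ i j, ℓ i + inner ℝ (g i) (s j - s i) + c * ‖s j - s i‖ ^ 4 ≤ ℓ j)
    (u : V → ℝ) (K : NNReal) (hu : LipschitzWith K u)
    (G : V → V) (hGm : MeasureTheory.AEStronglyMeasurable G MeasureTheory.volume)
    (hGu : ∀ᵐ x ∂(MeasureTheory.volume : MeasureTheory.Measure V),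
      ∃ i, HasGradientAt u (s i) x ∧ G x = g i)
    (hdiv : ∀ ψ : V → ℝ, ContDiff ℝ (⊤ : ℕ∞) ψ → HasCompactSupport ψ →
      ∫ x, inner ℝ (G x) (gradient ψ x) = 0)
    (hnot : ¬ DifferentiableAt ℝ u 0) :
    ¬ (∀ (L : EuclideanSpace ℝ (Fin 3) → ℝ), StrictConvexOn ℝ Set.univ L →
    ∀ (Ω : Set (EuclideanSpace ℝ (Fin 3))), IsOpen Ω → Bornology.IsBounded Ω →
    ∀ (u : EuclideanSpace ℝ (Fin 3) → ℝ) (K : NNReal), LipschitzWith K u →
    (∀ (φ : EuclideanSpace ℝ (Fin 3) → ℝ) (M : NNReal), LipschitzWith M φ →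
        HasCompactSupport φ → tsupport φ ⊆ Ω →
        ∫ x in Ω, L (gradient u x) ≤ ∫ x in Ω, L (gradient (u + φ) x)) →
    ContDiffOn ℝ 1 u Ω) := by
  intro H
  have hne : Nonempty ι := by
    obtain ⟨x, i, -⟩ := hGu.exists
    exact ⟨i⟩
  have hGB : ∀ᵐ x ∂(volume : Measure V), ‖G x‖ ≤ B := by
    filter_upwards [hGu] with x hx
    obtain ⟨i, _, h⟩ := hx
    rw [h]; exact hg i
  have hLc : Continuous (Lag s g ℓ c) := Lag_continuous s g ℓ c B hs hg hℓ hc
  have key := H (Lag s g ℓ c) (Lag_strictConvexOn s g ℓ c B hs hg hℓ hc) (ball 0 1) isOpen_ball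
    isBounded_ball u K hu ?_
  · exact hnot ((key.contDiffAt (isOpen_ball.mem_nhds (mem_ball_self one_pos))).differentiableAt
      one_ne_zero)
  · intro φ M hφ hcs hsub
    have hint := integral_inner_gradient_eq_zero G B hGm hGB hdiv φ M hφ hcs
    have hgz : ∀ x, x ∉ ball (0 : V) 1 → inner ℝ (G x) (gradient φ x) = 0 := by
      intro x hx
      have h1 : fderiv ℝ φ x = 0 := by
        by_contra h
        exact hx (hsub (support_fderiv_subset ℝ h))
      rw [gradient, h1, map_zero, inner_zero_right]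
    have hint2 : ∫ x in ball (0 : V) 1, inner ℝ (G x) (gradient φ x) = 0 := by
      rw [setIntegral_eq_integral_of_forall_compl_eq_zero hgz]
      exact hint
    have hI1 := integrableOn_Lag_gradient hLc hu
    have hI2 : IntegrableOn (fun x => inner ℝ (G x) (gradient φ x)) (ball (0 : V) 1) := by
      refine Measure.integrableOn_of_bounded (M := B * M) measure_ball_lt_top.ne
        (hGm.inner (measurable_gradient φ).aestronglyMeasurable) ?_
      refine ae_restrict_of_ae ?_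
      filter_upwards [hGB] with x hx
      refine (norm_inner_le_norm _ _).trans ?_
      exact mul_le_mul hx (norm_gradient_le hφ x) (norm_nonneg _) ((norm_nonneg _).trans hx)
    have hI3 := integrableOn_Lag_gradient hLc (hu.add hφ)
    have hsum : ∫ x in ball (0 : V) 1, Lag s g ℓ c (gradient u x)
        = ∫ x in ball (0 : V) 1, (Lag s g ℓ c (gradient u x) + inner ℝ (G x) (gradient φ x)) := by
      rw [integral_add hI1 hI2, hint2, add_zero]
    rw [hsum]
    refine integral_mono_ae (hI1.add hI2) hI3 ?_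
    refine ae_restrict_of_ae ?_
    filter_upwards [hGu, hφ.ae_differentiableAt (μ := (volume : Measure V))] with x hx hφx
    obtain ⟨i, hi1, hi2⟩ := hx
    have e1 : gradient u x = s i := hi1.gradient
    have e2 : gradient (u + φ) x = s i + gradient φ x := by
      have h1 : HasGradientAt φ (gradient φ x) x := hφx.hasGradientAt
      rw [hasGradientAt_iff_hasFDerivAt] at hi1 h1
      have h2 := hi1.add h1
      rw [← map_add] at h2
      exact (hasGradientAt_iff_hasFDerivAt.2 h2).gradient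
    have h3 := Lag_ge s g ℓ c B hs hg hℓ hc.le i (s i + gradient φ x)
    rw [add_sub_cancel_left] at h3
    simp only [e1, e2, hi2]
    rw [Lag_at s g ℓ c B hs hg hℓ hc.le hD i]
    exact h3

end Pool.Agent.Lib.MP_3a7ba1_an
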