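import Mathlib
import Pool.Agent.Lib.MP_3a7ba1_an.Div
import Pool.Agent.Lib.MP_3a7ba1_an.Ineq
import Pool.Agent.Lib.MP_3a7ba1_an.OfData

/-!
Assembly of the counterexample.
-/

set_option autoImplicit false

namespace Pool.Agent.Lib.MP_3a7ba1_an

open MeasureTheory Set

noncomputable def GG (x : V) : V := WithLp.toLp 2 (gf (pa x) (pb x))

lemma inner_gradient' (ψ : V → ℝ) (x v : V) : inner ℝ v (gradient ψ x) = fderiv ℝ ψ x v := by
  rw [real_inner_comm]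
  unfold gradient
  exact InnerProductSpace.toDual_symm_apply

noncomputable def TL : E3 ≃L[ℝ] V := (PiLp.continuousLinearEquiv 2 ℝ (fun _ : Fin 3 => ℝ)).symm

lemma TL_apply (y : E3) : TL y = WithLp.toLp 2 y := rfl

lemma FF_eq (ψ : V → ℝ) (hψ : Differentiable ℝ ψ) (y : E3) :
    FF gE (fun y => ψ (TL y)) y = inner ℝ (GG (WithLp.toLp 2 y)) (gradient ψ (WithLp.toLp 2 y)) := by
  rw [inner_gradient']
  have hd : fderiv ℝ (fun y => ψ (TL y)) y = (fderiv ℝ ψ (TL y)).comp (TL : E3 →L[ℝ] V) := by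
    have h1 := (hψ (TL y)).hasFDerivAt.comp y (TL.hasFDerivAt (x := y))
    exact h1.fderiv
  unfold FF
  rw [hd]
  have h2 : gE y = ∑ k, gE y k • (Pi.single k (1 : ℝ) : E3) := by
    ext j
    simp [Finset.sum_apply, Pi.single_apply]
  have h3 : GG (WithLp.toLp 2 y) = TL (gE y) := rfl
  rw [h3]
  conv_rhs => rw [h2]
  rw [map_sum, map_sum]
  simp only [map_smul, smul_eq_mul]
  rfl

theorem hdiv_V (ψ : V → ℝ) (hψ : ContDiff ℝ (⊤ : ℕ∞) ψ) (hc : HasCompactSupport ψ) :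
    ∫ x, inner ℝ (GG x) (gradient ψ x) = 0 := by
  have h1 : ContDiff ℝ 1 (fun y : E3 => ψ (TL y)) :=
    (hψ.of_le (by exact_mod_cast le_top)).comp TL.contDiff
  have h2 : HasCompactSupport (fun y : E3 => ψ (TL y)) :=
    hc.comp_homeomorph TL.toHomeomorph
  have h3 := hdiv_E3 _ h1 h2
  have h4 : Differentiable ℝ ψ := hψ.differentiable (by simp)
  have h5 := (PiLp.volume_preserving_toLp (Fin 3)).integral_comp
    (MeasurableEquiv.toLp 2 E3).measurableEmbedding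
    (fun x : V => (inner ℝ (GG x) (gradient ψ x) : ℝ))
  rw [← h5, ← h3]
  apply integral_congr_ae
  filter_upwards with y
  exact (FF_eq ψ h4 y).symm

lemma measurable_gf_comp : Measurable fun x : V => gf (pa x) (pb x) := by
  have ha := measurable_pa
  have hb := measurable_pb
  unfold gf
  apply Measurable.ite
  · exact (measurableSet_lt ha.abs measurable_const).inter
      (measurableSet_lt hb.abs measurable_const).compl
  · rw [measurable_pi_iff]
    intro i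
    fin_cases i <;> simp [GE1, GE2, GE3] <;> fun_prop
  · apply Measurable.ite
    · exact (measurableSet_lt ha.abs measurable_const).compl.inter
        (measurableSet_lt hb.abs measurable_const)
    · rw [measurable_pi_iff]
      intro i
      fin_cases i <;> simp [GE1, GE2, GE3] <;> fun_prop
    · rw [measurable_pi_iff]
      intro i
      fin_cases i <;> simp [GQ1, GQ2, GQ3, dl] <;> fun_prop

lemma measurable_GG : Measurable GG := by
  have := (MeasurableEquiv.toLp 2 E3).measurable.comp measurable_gf_comp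
  exact this

/-! ### the inequalities -/

lemma S_neg2 (a b : ℝ) : S1 a (-b) = S1 a b ∧ S2 a (-b) = - S2 a b ∧ S3 a (-b) = - S3 a b ∧
    ell a (-b) = ell a b := by
  refine ⟨?_, ?_, ?_, ?_⟩
  · unfold S1; ring
  · unfold S2; ring
  · unfold S3; ring
  · unfold ell; ring

lemma S_neg1 (a b : ℝ) : S1 (-a) b = - S1 a b ∧ S2 (-a) b = S2 a b ∧ S3 (-a) b = - S3 a b ∧
    ell (-a) b = ell a b := by
  refine ⟨?_, ?_, ?_, ?_⟩
  · unfold S1; ring
  · unfold S2; ring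
  · unfold S3; ring
  · unfold ell; ring

lemma S_swap (a b : ℝ) : S1 b a = S2 a b ∧ S2 b a = S1 a b ∧ S3 b a = S3 a b ∧
    ell b a = ell a b := by
  refine ⟨?_, ?_, ?_, ?_⟩
  · unfold S1 S2; ring
  · unfold S1 S2; ring
  · unfold S3; ring
  · unfold ell; ring

theorem data_ineq (a b a' b' : ℝ) (ha : |a| ≤ 1) (hb : |b| ≤ 1) (ha' : |a'| ≤ 1)
    (hb' : |b'| ≤ 1) :
    ell a b + gf a b 0 * (S1 a' b' - S1 a b) + gf a b 1 * (S2 a' b' - S2 a b)
      + gf a b 2 * (S3 a' b' - S3 a b)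
      + 1 / 2000 * ((S1 a' b' - S1 a b) ^ 2 + (S2 a' b' - S2 a b) ^ 2
          + (S3 a' b' - S3 a b) ^ 2) ^ 2 ≤ ell a' b' := by
  unfold gf
  split_ifs with h1 h2
  · have hb1 : |b| = 1 := le_antisymm hb (not_lt.mp h1.2)
    rcases pm_one_of_abs hb1 with h | h
    · subst h
      have := ineqE a a' b' ha ha' hb'
      simpa using this
    · subst h
      have := ineqE a a' (-b') ha ha' (by rwa [abs_neg])
      obtain ⟨e1, e2, e3, e4⟩ := S_neg2 a' b'
      obtain ⟨f1, f2, f3, f4⟩ := S_neg2 a 1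
      rw [e1, e2, e3, e4] at this
      rw [f1, f2, f3, f4]
      simp only [Matrix.cons_val_zero, Matrix.cons_val_one, Matrix.cons_val]
      refine le_trans (le_of_eq ?_) this
      ring
  · have ha1 : |a| = 1 := le_antisymm ha (not_lt.mp h2.1)
    rcases pm_one_of_abs ha1 with h | h
    · subst h
      have := ineqE b b' a' hb hb' ha'
      obtain ⟨e1, e2, e3, e4⟩ := S_swap a' b'
      obtain ⟨f1, f2, f3, f4⟩ := S_swap 1 b
      rw [e1, e2, e3, e4, f1, f2, f3, f4] at this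
      simp only [Matrix.cons_val_zero, Matrix.cons_val_one, Matrix.cons_val]
      refine le_trans (le_of_eq ?_) this
      ring
    · subst h
      have := ineqE b b' (-a') hb hb' (by rwa [abs_neg])
      obtain ⟨e1, e2, e3, e4⟩ := S_swap (-a') b'
      obtain ⟨f1, f2, f3, f4⟩ := S_swap 1 b
      obtain ⟨g1, g2, g3, g4⟩ := S_neg1 a' b'
      obtain ⟨k1, k2, k3, k4⟩ := S_neg1 1 b
      rw [e1, e2, e3, e4, f1, f2, f3, f4, g1, g2, g3, g4] at this
      rw [k1, k2, k3, k4]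
      simp only [Matrix.cons_val_zero, Matrix.cons_val_one, Matrix.cons_val]
      refine le_trans (le_of_eq ?_) this
      ring
  · have := ineqQ a b a' b' ha hb ha' hb'
    simpa using this

lemma abs_mul_le' {p q P Q : ℝ} (hp : |p| ≤ P) (hq : |q| ≤ Q) : |p * q| ≤ P * Q := by
  rw [abs_mul]
  exact mul_le_mul hp hq (abs_nonneg _) ((abs_nonneg _).trans hp)

lemma abs_GQ1_le {a b : ℝ} (ha : |a| ≤ 1) (hb : |b| ≤ 1) : |GQ1 a b| ≤ 6 := by
  have hd := dl_ge a b ha hb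
  have hd0 : 0 < dl a b := dl_pos ha hb
  unfold GQ1
  rw [abs_div, abs_of_pos hd0, div_le_iff₀ hd0]
  have e : 3 * a + 2 * a * b ^ 2 + a ^ 3 / 25 = a * (3 + 2 * b ^ 2 + a ^ 2 / 25) := by ring
  rw [e]
  have h1 := sq_le_one' ha
  have h2 := sq_le_one' hb
  have h3 : |3 + 2 * b ^ 2 + a ^ 2 / 25| ≤ 27 / 5 := by
    rw [abs_of_nonneg (by positivity)]; linarith
  have := abs_mul_le' ha h3
  linarith

lemma abs_GQ2_le {a b : ℝ} (ha : |a| ≤ 1) (hb : |b| ≤ 1) : |GQ2 a b| ≤ 6 := by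
  have hd := dl_ge a b ha hb
  have hd0 : 0 < dl a b := dl_pos ha hb
  unfold GQ2
  rw [abs_div, abs_of_pos hd0, div_le_iff₀ hd0]
  have e : 3 * b + 2 * a ^ 2 * b + b ^ 3 / 25 = b * (3 + 2 * a ^ 2 + b ^ 2 / 25) := by ring
  rw [e]
  have h1 := sq_le_one' ha
  have h2 := sq_le_one' hb
  have h3 : |3 + 2 * a ^ 2 + b ^ 2 / 25| ≤ 27 / 5 := by
    rw [abs_of_nonneg (by positivity)]; linarith
  have := abs_mul_le' hb h3
  linarith

lemma abs_GQ3_le {a b : ℝ} (ha : |a| ≤ 1) (hb : |b| ≤ 1) : |GQ3 a b| ≤ 6 := by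
  have e : GQ3 a b = (-4) * (a * b) + (-(1 / 10)) * (b * GQ1 a b) + (-(1 / 10)) * (a * GQ2 a b) := by
    unfold GQ3; ring
  rw [e]
  have h1 := abs_mul_le' ha hb
  have h2 := abs_mul_le' hb (abs_GQ1_le ha hb)
  have h3 := abs_mul_le' ha (abs_GQ2_le ha hb)
  rw [abs_le] at h1 h2 h3 ⊢
  constructor <;> linarith [h1.1, h1.2, h2.1, h2.2, h3.1, h3.2]

lemma abs_GE1_le {a : ℝ} (ha : |a| ≤ 1) : |GE1 a| ≤ 3 := by
  have e : GE1 a = (-12 / 5) * a := by unfold GE1; ring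
  rw [e, abs_mul]
  rw [show |(-12 / 5 : ℝ)| = 12 / 5 by norm_num [abs_of_neg]]
  linarith

lemma abs_GE2_le {a : ℝ} (ha : |a| ≤ 1) : |GE2 a| ≤ 10 := by
  have h := sq_le_one' ha
  have h0 := sq_nonneg a
  unfold GE2
  rw [abs_le]; constructor <;> linarith

lemma abs_GE3_le {a : ℝ} (ha : |a| ≤ 1) : |GE3 a| ≤ 3 := by
  have h := sq_le_one' ha
  have h0 := sq_nonneg a
  have e : GE3 a = a * ((63 + a ^ 2) / 25) := by unfold GE3; ring
  rw [e]
  have h3 : |(63 + a ^ 2) / 25| ≤ 3 := by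
    rw [abs_of_nonneg (by positivity)]; linarith
  have := abs_mul_le' ha h3
  linarith

lemma norm_toLp_le (v : E3) {c0 c1 c2 : ℝ} (h0 : |v 0| ≤ c0) (h1 : |v 1| ≤ c1) (h2 : |v 2| ≤ c2) :
    ‖(WithLp.toLp 2 v : V)‖ ≤ c0 + c1 + c2 := by
  have e : (WithLp.toLp 2 v : V) = vec (v 0) (v 1) (v 2) := by
    ext i; fin_cases i <;> rfl
  rw [e]
  exact (norm_vec_le _ _ _).trans (by linarith)

lemma norm_gf_le {a b : ℝ} (ha : |a| ≤ 1) (hb : |b| ≤ 1) : ‖(WithLp.toLp 2 (gf a b) : V)‖ ≤ 18 := by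
  unfold gf
  split_ifs with h1 h2
  · refine (norm_toLp_le _ (c0 := 3) (c1 := 1 * 10) (c2 := 1 * 3) ?_ ?_ ?_).trans (by norm_num)
    · exact abs_GE1_le ha
    · exact abs_mul_le' hb (abs_GE2_le ha)
    · exact abs_mul_le' hb (abs_GE3_le ha)
  · refine (norm_toLp_le _ (c0 := 1 * 10) (c1 := 3) (c2 := 1 * 3) ?_ ?_ ?_).trans (by norm_num)
    · exact abs_mul_le' ha (abs_GE2_le hb)
    · exact abs_GE1_le hb
    · exact abs_mul_le' ha (abs_GE3_le hb)
  · refine (norm_toLp_le _ (c0 := 6) (c1 := 6) (c2 := 6) ?_ ?_ ?_).trans (by norm_num)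
    · exact abs_GQ1_le ha hb
    · exact abs_GQ2_le ha hb
    · exact abs_GQ3_le ha hb

lemma abs_ell_le {a b : ℝ} (ha : |a| ≤ 1) (hb : |b| ≤ 1) : |ell a b| ≤ 18 := by
  have h1 := sq_le_one' ha
  have h2 := sq_le_one' hb
  have h3 := sq_nonneg a
  have h4 := sq_nonneg b
  have h5 : a ^ 2 * b ^ 2 ≤ 1 := mul_le_one₀ h1 h4 h2
  have h6 : 0 ≤ a ^ 2 * b ^ 2 := mul_nonneg h3 h4
  have h7 : a ^ 4 ≤ 1 := by
    have : a ^ 4 = a ^ 2 * a ^ 2 := by ring
    rw [this]; exact mul_le_one₀ h1 h3 h1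
  have h8 : b ^ 4 ≤ 1 := by
    have : b ^ 4 = b ^ 2 * b ^ 2 := by ring
    rw [this]; exact mul_le_one₀ h2 h4 h2
  have h9 : 0 ≤ a ^ 4 := by positivity
  have h10 : 0 ≤ b ^ 4 := by positivity
  unfold ell
  rw [abs_le]
  constructor <;> linarith

lemma norm_vec_four (p q r : ℝ) : ‖vec p q r‖ ^ 4 = (p ^ 2 + q ^ 2 + r ^ 2) ^ 2 := by
  have h : ‖vec p q r‖ ^ 2 = p ^ 2 + q ^ 2 + r ^ 2 := by
    rw [EuclideanSpace.norm_sq_eq]
    simp [vec, Fin.sum_univ_three]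
  have : ‖vec p q r‖ ^ 4 = (‖vec p q r‖ ^ 2) ^ 2 := by ring
  rw [this, h]

lemma Svec_sub (a b a' b' : ℝ) :
    Svec a' b' - Svec a b = vec (S1 a' b' - S1 a b) (S2 a' b' - S2 a b) (S3 a' b' - S3 a b) := by
  ext i; fin_cases i <;> rfl

lemma inner_toLp_vec (v : E3) (p q r : ℝ) :
    inner ℝ (WithLp.toLp 2 v : V) (vec p q r) = v 0 * p + v 1 * q + v 2 * r := by
  have e : (WithLp.toLp 2 v : V) = vec (v 0) (v 1) (v 2) := by
    ext i; fin_cases i <;> rfl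
  rw [e, inner_vec]
  rfl

theorem main :
    ¬ (∀ (L : EuclideanSpace ℝ (Fin 3) → ℝ), StrictConvexOn ℝ Set.univ L →
    ∀ (Ω : Set (EuclideanSpace ℝ (Fin 3))), IsOpen Ω → Bornology.IsBounded Ω →
    ∀ (u : EuclideanSpace ℝ (Fin 3) → ℝ) (K : NNReal), LipschitzWith K u →
    (∀ (φ : EuclideanSpace ℝ (Fin 3) → ℝ) (M : NNReal), LipschitzWith M φ →
        HasCompactSupport φ → tsupport φ ⊆ Ω →
        ∫ x in Ω, L (gradient u x) ≤ ∫ x in Ω, L (gradient (u + φ) x)) →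
    ContDiffOn ℝ 1 u Ω) := by
  refine of_data (ι := {p : ℝ × ℝ // |p.1| ≤ 1 ∧ |p.2| ≤ 1})
    (fun p => Svec p.1.1 p.1.2) (fun p => WithLp.toLp 2 (gf p.1.1 p.1.2))
    (fun p => ell p.1.1 p.1.2) 18 ?_ ?_ ?_ (1 / 2000) (by norm_num) ?_ u 4 lipschitz_u GG
    measurable_GG.aestronglyMeasurable ?_ hdiv_V not_differentiableAt_u
  · intro p
    exact (norm_Svec_le p.2.1 p.2.2).trans (by norm_num)
  · intro p
    exact norm_gf_le p.2.1 p.2.2
  · intro p
    exact abs_ell_le p.2.1 p.2.2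
  · intro p q
    rw [Svec_sub, norm_vec_four, inner_toLp_vec]
    have := data_ineq p.1.1 p.1.2 q.1.1 q.1.2 p.2.1 p.2.2 q.2.1 q.2.2
    linarith
  · filter_upwards [ae_PP_ne] with x hx
    exact ⟨⟨(pa x, pb x), abs_pa_le x, abs_pb_le x⟩, hasGradientAt_of_PP hx, rfl⟩

end Pool.Agent.Lib.MP_3a7ba1_an
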